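import Pool.Agent.H492.UB.Stm

set_option autoImplicit false

namespace Pool.Agent.H492.UB

open MvPolynomial

namespace SepAux

/-- LEVEL LEMMA. -/
theorem level {R : Type} [CommRing R] [IsDomain R] {ι : Type} [Fintype ι] (t B : ι → R)
    (hinj : ∀ i i', t i * B i' = t i' * B i → i = i') (n : ℕ) (hn : n ≤ Fintype.card ι) (c : Fin n → R)
    (h : ∀ i, ∑ j : Fin n, c j * (t i ^ (j : ℕ) * B i ^ (n - 1 - (j : ℕ))) = 0) : c = 0 := by
  classical
  obtain ⟨f⟩ : Nonempty (Fin n ↪ ι) := by
    apply Function.Embedding.nonempty_of_card_le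
    simpa using hn
  set M := Matrix.projVandermonde (fun i => t (f i)) (fun i => B (f i)) with hM
  have hdet : M.det ≠ 0 := by
    rw [hM, Matrix.det_projVandermonde]
    refine Finset.prod_ne_zero_iff.2 fun i _ => Finset.prod_ne_zero_iff.2 fun j hj => ?_
    intro h0
    have h1 := f.injective (hinj _ _ (sub_eq_zero.1 h0))
    rw [Finset.mem_Ioi] at hj
    exact absurd h1 hj.ne'
  refine Matrix.eq_zero_of_mulVec_eq_zero hdet ?_
  funext i
  rw [Matrix.mulVec, dotProduct, Pi.zero_apply, ← h (f i)]
  refine Finset.sum_congr rfl fun j _ => ?_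
  rw [hM, Matrix.projVandermonde_apply]
  have : (j.rev : ℕ) = n - 1 - (j : ℕ) := by rw [Fin.val_rev]; omega
  rw [this]
  ring

variable {r : ℕ}

theorem lin_add (v w : V r) : lin (v + w) = lin v + lin w := by
  unfold lin
  rw [← Finset.sum_add_distrib]
  exact Finset.sum_congr rfl fun i _ => by rw [Pi.add_apply, map_add, add_mul]

theorem lin_zero : lin (0 : V r) = 0 := by
  unfold lin
  simp

theorem lin_homog (v : V r) : (lin v).IsHomogeneous 1 := by
  unfold lin
  refine IsHomogeneous.sum _ _ _ fun i _ => ?_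
  exact (isHomogeneous_X _ i).C_mul _

theorem coeff_lin (v : V r) (i : Fin r) : coeff (Finsupp.single i 1) (lin v) = v i := by
  classical
  unfold lin
  rw [coeff_sum, Finset.sum_eq_single i]
  · rw [coeff_C_mul, coeff_X, if_pos rfl, mul_one]
  · intro j _ hj
    rw [coeff_C_mul, coeff_X, if_neg, mul_zero]
    intro h
    exact hj (Finsupp.single_left_injective one_ne_zero h)
  · intro h; exact absurd (Finset.mem_univ i) h

theorem lin_inj {v w : V r} (h : lin v = lin w) : v = w := by
  funext i
  rw [← coeff_lin v i, ← coeff_lin w i, h]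

theorem lin_ne {v : V r} (h : v ≠ 0) : lin v ≠ 0 := fun h' => h (lin_inj (h'.trans lin_zero.symm))

/-- the algebra endomorphism of a linear map -/
noncomputable def Phi (A : V r →ₗ[ZMod 2] V r) : MvPolynomial (Fin r) (ZMod 2) →ₐ[ZMod 2] MvPolynomial (Fin r) (ZMod 2) :=
  aeval (fun i => lin (A (Pi.single i 1)))

/-- `lin` as a linear map -/
noncomputable def linL : V r →ₗ[ZMod 2] MvPolynomial (Fin r) (ZMod 2) where
  toFun := lin
  map_add' := lin_add
  map_smul' := by
    intro c v
    unfold lin
    rw [RingHom.id_apply, Finset.smul_sum]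
    exact Finset.sum_congr rfl fun i _ => by
      rw [Pi.smul_apply, smul_eq_mul, map_mul, mul_assoc, ← smul_eq_C_mul]

theorem Phi_lin (A : V r →ₗ[ZMod 2] V r) (v : V r) : Phi A (lin v) = lin (A v) := by
  have h1 : (Phi A).toLinearMap ∘ₗ linL = linL ∘ₗ A := by
    refine LinearMap.pi_ext' fun i => LinearMap.ext_ring ?_
    show Phi A (lin (Pi.single i 1)) = lin (A (Pi.single i 1))
    have : lin (Pi.single i 1 : V r) = X i := by
      unfold lin
      rw [Finset.sum_eq_single i]
      · rw [Pi.single_eq_same, C_1, one_mul]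
      · intro j _ hj
        rw [Pi.single_eq_of_ne hj, C_0, zero_mul]
      · intro h; exact absurd (Finset.mem_univ i) h
    rw [this, Phi, aeval_X]
  exact LinearMap.congr_fun h1 v

theorem pair_inj {a b a' b' : V r} (ha : a ≠ 0) (hb : b ≠ 0) (ha' : a' ≠ 0) (hab : a ≠ b)
    (h : lin a * lin b' = lin a' * lin b) : a = a' ∧ b = b' := by
  obtain ⟨i₀, hi₀⟩ : ∃ i, a i ≠ 0 := by
    by_contra hcon
    push Not at hcon
    exact ha (funext hcon)
  have hai : a i₀ = 1 := by
    have : ∀ x : ZMod 2, x ≠ 0 → x = 1 := by decide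
    exact this _ hi₀
  have h2 : ∀ x : ZMod 2, x + x = 0 := by decide
  have h01 : ∀ x : ZMod 2, x = 0 ∨ x = 1 := by decide
  let A : V r →ₗ[ZMod 2] V r :=
    { toFun := fun v => v + v i₀ • a
      map_add' := by intro v w; simp only [Pi.add_apply, add_smul]; abel
      map_smul' := by intro c v; simp only [Pi.smul_apply, smul_eq_mul, RingHom.id_apply, smul_add, mul_smul] }
  have hAa : A a = 0 := by
    show a + a i₀ • a = 0
    rw [hai, one_smul]
    funext i
    exact h2 _
  have hker : ∀ v : V r, A v = 0 → v = 0 ∨ v = a := by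
    intro v hv
    have hv' : v + v i₀ • a = 0 := hv
    rcases h01 (v i₀) with h | h
    · left
      rw [h, zero_smul, add_zero] at hv'
      exact hv'
    · right
      rw [h, one_smul] at hv'
      funext i
      have h3 : v i + a i = 0 := congrFun hv' i
      have h4 := h2 (a i)
      exact add_right_cancel (h3.trans h4.symm)
  have h5 := congrArg (Phi A) h
  rw [map_mul, map_mul, Phi_lin, Phi_lin, Phi_lin, Phi_lin, hAa, lin_zero, zero_mul] at h5
  have h6 : A a' = 0 ∨ A b = 0 := by
    rcases mul_eq_zero.1 h5.symm with h7 | h7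
    · left; exact lin_inj (h7.trans lin_zero.symm)
    · right; exact lin_inj (h7.trans lin_zero.symm)
  have h8 : a' = a := by
    rcases h6 with h7 | h7
    · rcases hker _ h7 with h9 | h9
      · exact absurd h9 ha'
      · exact h9
    · rcases hker _ h7 with h9 | h9
      · exact absurd h9 hb
      · exact absurd h9.symm hab
  refine ⟨h8.symm, ?_⟩
  rw [h8] at h
  exact (lin_inj (mul_left_cancel₀ (lin_ne ha) h)).symm

/-- separating polynomials in `k` variables -/
def SepK (r k κ N : ℕ) : Prop := ∃ (J : Type) (_ : Fintype J) (q : J → MvPolynomial (Fin k) (ZMod 2)),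
  Fintype.card J = N ∧ (∀ j, (q j).IsHomogeneous κ) ∧ ∀ F : J → MvPolynomial (Fin r) (ZMod 2),
    (∀ g : Fin k → V r, LinearIndependent (ZMod 2) g → ∑ j, F j * aeval (fun i => lin (g i)) (q j) = 0) → F = 0

theorem card_li (r k : ℕ) (hk : k ≤ r) :
    Nat.card {s : Fin k → V r // LinearIndependent (ZMod 2) s} = ∏ i : Fin k, (2 ^ r - 2 ^ (i : ℕ)) := by
  have h1 : Module.finrank (ZMod 2) (V r) = r := by simp
  have h := card_linearIndependent (K := ZMod 2) (V := V r) (k := k) (by rw [h1]; exact hk)
  rw [h1] at h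
  rw [h]
  simp

theorem sepK_two (r : ℕ) (hr : 2 ≤ r) :
    SepK r 2 ((2 ^ r - 1) * (2 ^ r - 2) - 1) ((2 ^ r - 1) * (2 ^ r - 2)) := by
  classical
  set N := (2 ^ r - 1) * (2 ^ r - 2) with hN
  have hcard := card_li r 2 hr
  rw [Fin.prod_univ_two] at hcard
  simp only [Fin.val_zero, pow_zero, Fin.val_one, pow_one] at hcard
  refine ⟨Fin N, inferInstance, fun j => X 1 ^ (j : ℕ) * X 0 ^ (N - 1 - (j : ℕ)), Fintype.card_fin _, ?_, ?_⟩
  · intro j
    have := ((isHomogeneous_X (ZMod 2) (1 : Fin 2)).pow (j : ℕ)).mul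
      ((isHomogeneous_X (ZMod 2) (0 : Fin 2)).pow (N - 1 - (j : ℕ)))
    have e : 1 * (j : ℕ) + 1 * (N - 1 - (j : ℕ)) = N - 1 := by
      have := j.2
      omega
    rwa [e] at this
  · intro F hF
    have : Fintype {s : Fin 2 → V r // LinearIndependent (ZMod 2) s} := Fintype.ofFinite _
    refine level (ι := {s : Fin 2 → V r // LinearIndependent (ZMod 2) s}) (fun g => lin (g.1 1))
      (fun g => lin (g.1 0)) ?_ N ?_ F ?_
    · intro g g' hgg
      have e1 := pair_inj (g.2.ne_zero 1) (g.2.ne_zero 0) (g'.2.ne_zero 1)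
        (fun h => absurd (g.2.injective h) (by decide)) hgg
      refine Subtype.ext (funext fun i => ?_)
      fin_cases i
      · exact e1.2
      · exact e1.1
    · rw [← Nat.card_eq_fintype_card, hcard]
    · intro g
      have := hF g.1 g.2
      rw [← this]
      refine Finset.sum_congr rfl fun j _ => ?_
      rw [map_mul, map_pow, map_pow, aeval_X, aeval_X]

theorem sepK_succ (r k κ N : ℕ) (hk : k + 1 < r) (h : SepK r (k + 1) κ N) :
    SepK r (k + 2) (κ + (2 ^ r - 2 ^ (k + 1) - 1)) (N * (2 ^ r - 2 ^ (k + 1))) := by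
  classical
  obtain ⟨J, _, q, hJ, hq, hs⟩ := h
  set n := 2 ^ r - 2 ^ (k + 1) with hn
  refine ⟨J × Fin n, inferInstance, fun x => rename Fin.castSucc (q x.1) *
    (X (Fin.last (k + 1)) ^ (x.2 : ℕ) * X 0 ^ (n - 1 - (x.2 : ℕ))), ?_, ?_, ?_⟩
  · rw [Fintype.card_prod, hJ, Fintype.card_fin]
  · intro x
    refine IsHomogeneous.mul ((hq x.1).rename_isHomogeneous) ?_
    have := ((isHomogeneous_X (ZMod 2) (Fin.last (k + 1))).pow (x.2 : ℕ)).mul
      ((isHomogeneous_X (ZMod 2) (0 : Fin (k + 2))).pow (n - 1 - (x.2 : ℕ)))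
    have e : 1 * (x.2 : ℕ) + 1 * (n - 1 - (x.2 : ℕ)) = n - 1 := by
      have := x.2.2
      omega
    rwa [e] at this
  · intro F hF
    have key : ∀ t : Fin n, (fun j => F (j, t)) = 0 := by
      intro t
      apply hs
      intro g hg
      set ι := {h : V r // h ∉ Submodule.span (ZMod 2) (Set.range g)} with hι
      have : Fintype ι := Fintype.ofFinite _
      have hcard : Fintype.card ι = n := by
        have h1 : Nat.card (Submodule.span (ZMod 2) (Set.range g)) = 2 ^ (k + 1) := by
          rw [Module.natCard_eq_pow_finrank (K := ZMod 2), finrank_span_eq_card hg]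
          simp
        have h2 : Nat.card (V r) = 2 ^ r := by simp
        rw [← Nat.card_eq_fintype_card]
        have h3 : Nat.card ι = Nat.card (V r) - Nat.card (Submodule.span (ZMod 2) (Set.range g)) := by
          rw [Nat.card_eq_fintype_card, Nat.card_eq_fintype_card, Nat.card_eq_fintype_card]
          exact Fintype.card_subtype_compl _
        rw [h3, h1, h2]
      have h4 := level (ι := ι) (fun h => lin h.1) (fun _ => lin (g 0)) (fun i i' he => by
          have := mul_right_cancel₀ (lin_ne (hg.ne_zero 0)) he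
          exact Subtype.ext (lin_inj this)) n (le_of_eq hcard.symm)
        (fun t => ∑ j, F (j, t) * aeval (fun i => lin (g i)) (q j)) (fun h => by
          have h5 := hF (Fin.snoc g h.1) (hg.finSnoc h.2)
          rw [← h5, Fintype.sum_prod_type_right]
          refine Finset.sum_congr rfl fun t' _ => ?_
          rw [Finset.sum_mul]
          refine Finset.sum_congr rfl fun j _ => ?_
          rw [map_mul, map_mul, map_pow, map_pow, aeval_X, aeval_X, aeval_rename]
          have e1 : ((fun i => lin ((Fin.snoc g h.1 : Fin (k + 2) → V r) i)) ∘ Fin.castSucc) =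
              fun i => lin (g i) := by
            funext i
            simp only [Function.comp_apply, Fin.snoc_castSucc]
          have e2 : (Fin.snoc g h.1 : Fin (k + 2) → V r) (Fin.last (k + 1)) = h.1 := Fin.snoc_last _ _
          have e3 : (Fin.snoc g h.1 : Fin (k + 2) → V r) 0 = g 0 := by
            have := Fin.snoc_castSucc (α := fun _ => V r) h.1 g (0 : Fin (k + 1))
            rwa [Fin.castSucc_zero] at this
          rw [e1, e2, e3]
          ring)
      exact congrFun h4 t
    funext x
    exact congrFun (key x.2) x.1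

theorem sep_of (r κ N : ℕ) (h : SepK r r κ N) (hN : N = ∏ i : Fin r, (2 ^ r - 2 ^ (i : ℕ))) : Sep r κ := by
  classical
  obtain ⟨J, _, q, hJ, hq, hs⟩ := h
  have hc : Fintype.card (Bas r) = Fintype.card J := by
    rw [hJ, hN, ← card_li r r le_rfl, Nat.card_eq_fintype_card]
  obtain ⟨e⟩ : Nonempty (Bas r ≃ J) := Fintype.card_eq.1 hc
  refine ⟨fun h => q (e h), fun j => hq _, fun F hF => ?_⟩
  have h1 : (fun j => F (e.symm j)) = 0 := by
    apply hs
    intro g hg
    have h2 := hF ⟨g, hg⟩
    rw [← h2, ← e.sum_comp]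
    refine Finset.sum_congr rfl fun j _ => ?_
    simp only [Equiv.symm_apply_apply]
  funext j
  have := congrFun h1 (e j)
  simpa using this

end SepAux

open SepAux in
theorem sSep : SSep := by
  constructor
  · have h2 := sepK_two 4 (by norm_num)
    have h3 := sepK_succ 4 1 _ _ (by norm_num) h2
    have h4 := sepK_succ 4 2 _ _ (by norm_num) h3
    norm_num at h4
    refine sep_of 4 227 20160 h4 ?_
    rw [Fin.prod_univ_four]
    norm_num
  · have h2 := sepK_two 5 (by norm_num)
    have h3 := sepK_succ 5 1 _ _ (by norm_num) h2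
    have h4 := sepK_succ 5 2 _ _ (by norm_num) h3
    have h5 := sepK_succ 5 3 _ _ (by norm_num) h4
    norm_num at h5
    refine sep_of 5 994 9999360 h5 ?_
    rw [Fin.prod_univ_five]
    norm_num

end Pool.Agent.H492.UB
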