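import Pool.Agent.H492.UB.Stm

/-!
# The number of the words `IsT`
-/

set_option autoImplicit false

namespace Pool.Agent.H492.UB

namespace Crd

variable {r : ℕ}

theorem z2 {a : ZMod 2} (h : a ≠ 0) : a = 1 := by
  revert h
  revert a
  decide

/-- a linear form which does not vanish at two given nonzero vectors -/
theorem dual {v w : V r} (hv : v ≠ 0) (hw : w ≠ 0) :
    ∃ G : V r →ₗ[ZMod 2] ZMod 2, G v = 1 ∧ G w = 1 := by
  obtain ⟨i, hi⟩ : ∃ i, v i ≠ 0 := by
    by_contra h
    push Not at h
    exact hv (funext h)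
  obtain ⟨j, hj⟩ : ∃ j, w j ≠ 0 := by
    by_contra h
    push Not at h
    exact hw (funext h)
  by_cases h1 : w i = 0
  · by_cases h2 : v j = 0
    · refine ⟨(LinearMap.proj (R := ZMod 2) (φ := fun _ : Fin r => ZMod 2) i) +
        LinearMap.proj (R := ZMod 2) (φ := fun _ : Fin r => ZMod 2) j, ?_, ?_⟩
      · change v i + v j = 1
        rw [h2, add_zero, z2 hi]
      · change w i + w j = 1
        rw [h1, zero_add, z2 hj]
    · exact ⟨LinearMap.proj j, z2 h2, z2 hj⟩
  · exact ⟨LinearMap.proj i, z2 hi, z2 h1⟩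

/-- transitivity on nonzero vectors -/
theorem trans {v w : V r} (hv : v ≠ 0) (hw : w ≠ 0) :
    ∃ A : V r →ₗ[ZMod 2] V r, LinearMap.ker A = ⊥ ∧ A v = w := by
  obtain ⟨G, h1, h2⟩ := dual hv hw
  refine ⟨LinearMap.id + G.smulRight (w - v), ?_, ?_⟩
  · rw [LinearMap.ker_eq_bot']
    intro z hz
    have hz' : z + G z • (w - v) = 0 := hz
    have h3 : G z = 0 := by
      have := congrArg G hz'
      rw [map_add, map_smul, map_sub, h1, h2, sub_self, smul_zero, add_zero, map_zero] at this
      exact this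
    rw [h3, zero_smul, add_zero] at hz'
    exact hz'
  · change v + G v • (w - v) = w
    rw [h1, one_smul, add_sub_cancel]

theorem enc_ne {y : Fin r → V r} {v : V r} (h : IsT v y) (z k i : Fin r) (hz : z.val = 0)
    (hi : i ≠ k) : enc (y (Equiv.swap z k k)) < enc (y (Equiv.swap z k i)) := by
  rw [Equiv.swap_apply_right]
  refine h.2.2 _ _ hz ?_
  intro h0
  apply hi
  have h1 : Equiv.swap z k i = z := Fin.ext (by rw [h0, hz])
  have h2 : Equiv.swap z k i = Equiv.swap z k k := by rw [h1, Equiv.swap_apply_right]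
  exact (Equiv.swap z k).injective h2

end Crd

open Crd in
theorem sCard : SCard := by
  classical
  intro r v hr hv
  set z : Fin r := ⟨0, hr⟩ with hz
  choose g hg hgv using fun w : {w : V r // w ≠ 0} => trans hv w.2
  have hgi : ∀ w, Function.Injective (g w) := fun w => LinearMap.ker_eq_bot.1 (hg w)
  let Φ : {y : Fin r → V r // IsT v y} × Fin r × {w : V r // w ≠ 0} → Bas r := fun q =>
    ⟨fun i => g q.2.2 (q.1.1 (Equiv.swap z q.2.1 i)), by
      have h1 : LinearIndependent (ZMod 2) (fun i => q.1.1 (Equiv.swap z q.2.1 i)) :=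
        q.1.2.1.comp _ (Equiv.swap z q.2.1).injective
      exact h1.map' (g q.2.2) (hg q.2.2)⟩
  have hsum : ∀ q, ∑ i, (Φ q).1 i = q.2.2.1 := by
    intro q
    change ∑ i, g q.2.2 (q.1.1 (Equiv.swap z q.2.1 i)) = _
    rw [← map_sum, Equiv.sum_comp (Equiv.swap z q.2.1) (fun i => q.1.1 i), q.1.2.2.1, hgv]
  have hinj : Function.Injective Φ := by
    rintro ⟨y, k, w⟩ ⟨y', k', w'⟩ h
    have hw : w = w' := by
      apply Subtype.ext
      rw [← hsum ⟨y, k, w⟩, ← hsum ⟨y', k', w'⟩, h]
    subst hw
    have hu : ∀ i, y.1 (Equiv.swap z k i) = y'.1 (Equiv.swap z k' i) := by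
      intro i
      exact hgi w (congrFun (congrArg Subtype.val h) i)
    have hk : k = k' := by
      by_contra hne
      have h1 := enc_ne y.2 z k k' rfl (Ne.symm hne)
      have h2 := enc_ne y'.2 z k' k rfl hne
      rw [hu, hu] at h1
      exact absurd h1 (not_lt.2 h2.le)
    subst hk
    have hy : y = y' := by
      apply Subtype.ext
      funext i
      have := hu (Equiv.swap z k i)
      rwa [Equiv.swap_apply_self] at this
    rw [hy]
  have hc := Nat.card_le_card_of_injective Φ hinj
  rw [Nat.card_prod, Nat.card_prod] at hc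
  have h1 : Nat.card (Fin r) = r := by simp
  have h2 : Nat.card {w : V r // w ≠ 0} = 2 ^ r - 1 := by
    have h3 : Fintype.card {w : V r // ¬ w = 0} = Fintype.card (V r) -
      Fintype.card {w : V r // w = 0} := Fintype.card_subtype_compl _
    rw [Nat.card_eq_fintype_card]
    refine h3.trans ?_
    rw [Fintype.card_subtype_eq]
    simp
  rw [h1, h2] at hc
  rw [mul_comm]
  exact hc

end Pool.Agent.H492.UB
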