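import Pool.Agent.H492.UB.Stm
import Pool.Graph.R_seed8.H50R3.DM.TwoB

/-!
# The coefficient polynomial satisfies the double shuffle relations (helper154, for helper492)
-/

set_option autoImplicit false

namespace Pool.Agent.H492.UB

open MvPolynomial Pool.Agent.H777R4.DM Pool.Agent.H159.LS

attribute [local instance 100] LieRing.ofAssociativeRing

section sba

variable {α M : Type} [AddCommGroup M] [Module ℚ M]

lemma sba_lext_apply (F : List α → M) (P : Al α) :
    lext F P = P.coeff.sum fun m c => c • F (FreeMonoid.toList m) := by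
  unfold lext
  rw [LinearMap.comp_apply, Finsupp.linearCombination_apply]
  rfl

lemma sba_lext_congr {F G : List α → M} {P : Al α} (h : ∀ u, co P u ≠ 0 → F u = G u) :
    lext F P = lext G P := by
  rw [sba_lext_apply, sba_lext_apply]
  apply Finsupp.sum_congr
  intro m hm
  rw [h (FreeMonoid.toList m) (Finsupp.mem_support_iff.1 hm)]

lemma sba_lext_add (F G : List α → M) (P : Al α) :
    lext (fun u => F u + G u) P = lext F P + lext G P := by
  simp only [sba_lext_apply, smul_add, Finsupp.sum_add]

lemma sba_lext_zero (P : Al α) : lext (fun _ : List α => (0 : M)) P = 0 := by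
  simp only [sba_lext_apply, smul_zero, Finsupp.sum_fun_zero]

lemma sba_lext_sum {β : Type} (l : List β) (F : β → List α → M) (P : Al α) :
    (l.map fun w => lext (F w) P).sum = lext (fun u => (l.map fun w => F w u).sum) P := by
  induction l with
  | nil => simp only [List.map_nil, List.sum_nil, sba_lext_zero]
  | cons b l ih => simp only [List.map_cons, List.sum_cons, sba_lext_add, ih]

lemma sba_lext_family {ι : Type} (s : Finset ι) (f : ι → List α) (hf : Set.InjOn f s)
    (F : List α → M) (P : Al α) (h : ∀ u, co P u ≠ 0 → F u ≠ 0 → ∃ k ∈ s, f k = u) :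
    lext F P = ∑ k ∈ s, co P (f k) • F (f k) := by
  classical
  rw [sba_lext_apply]
  have h1 : (∑ k ∈ s, co P (f k) • F (f k)) =
      ∑ m ∈ s.image (fun k => FreeMonoid.ofList (f k)), P.coeff m • F (FreeMonoid.toList m) := by
    rw [Finset.sum_image]
    · rfl
    · intro a ha b hb hab
      exact hf ha hb (FreeMonoid.ofList.injective hab)
  rw [h1]
  unfold Finsupp.sum
  set t := s.image (fun k => FreeMonoid.ofList (f k)) with ht
  have h2 : ∑ m ∈ P.coeff.support, P.coeff m • F (FreeMonoid.toList m) =
      ∑ m ∈ P.coeff.support ∪ t, P.coeff m • F (FreeMonoid.toList m) := by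
    apply Finset.sum_subset Finset.subset_union_left
    intro m _ hm
    rw [Finsupp.notMem_support_iff.1 hm, zero_smul]
  have h3 : ∑ m ∈ t, P.coeff m • F (FreeMonoid.toList m) =
      ∑ m ∈ P.coeff.support ∪ t, P.coeff m • F (FreeMonoid.toList m) := by
    apply Finset.sum_subset Finset.subset_union_right
    intro m _ hm
    by_contra hne
    apply hm
    have hc : co P (FreeMonoid.toList m) ≠ 0 := by
      intro h0
      apply hne
      have h0' : P.coeff m = 0 := h0
      rw [h0', zero_smul]
    have hF : F (FreeMonoid.toList m) ≠ 0 := by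
      intro h0
      apply hne
      rw [h0, smul_zero]
    obtain ⟨k, hk, hkm⟩ := h _ hc hF
    rw [ht, Finset.mem_image]
    exact ⟨k, hk, by rw [hkm]; rfl⟩
  rw [h2, h3]

/-! words -/

lemma sba_mem_sh (a b w : List α) (h : w ∈ sh a b) : w.length = a.length + b.length := by
  induction a generalizing b w with
  | nil => simp at h; simp [h]
  | cons x a iha =>
    induction b generalizing w with
    | nil => simp at h; simp [h]
    | cons y b ihb =>
      rw [sh_cons_cons, List.mem_append, List.mem_map, List.mem_map] at h
      rcases h with ⟨u, hu, rfl⟩ | ⟨u, hu, rfl⟩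
      · have := iha _ _ hu
        simp only [List.length_cons] at this ⊢
        omega
      · have := ihb _ hu
        simp only [List.length_cons] at this ⊢
        omega

lemma sba_wordX_append (a b : List ℕ) : wordX (a ++ b) = wordX a ++ wordX b := by
  induction a with
  | nil => rfl
  | cons k a ih => simp [wordX, ih]

lemma sba_xw_reverse (v : List ℕ) : (xw v).reverse = wordX v.reverse := by
  induction v with
  | nil => rfl
  | cons k v ih =>
    rw [List.reverse_cons, sba_wordX_append, ← ih]
    simp [xw, wordX]

lemma sba_xw_inj {v v' : List ℕ} (h : xw v = xw v') : v = v' := by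
  have h1 : wordX v.reverse = wordX v'.reverse := by
    rw [← sba_xw_reverse, ← sba_xw_reverse, h]
  have h2 := strip_wordX v.reverse 0
  have h3 := strip_wordX v'.reverse 0
  rw [h1, h3] at h2
  exact List.reverse_injective (congrArg Prod.fst h2).symm

lemma sba_xw_length (v : List ℕ) : (xw v).length = v.sum + v.length := by
  induction v with
  | nil => rfl
  | cons k v ih =>
    simp only [xw, List.length_cons, List.length_append, List.length_replicate, ih,
      List.sum_cons]
    omega

lemma sba_xw_count (v : List ℕ) : (xw v).count 1 = v.length := by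
  induction v with
  | nil => rfl
  | cons k v ih =>
    have h : (List.replicate k (0 : Fin 2)).count 1 = 0 := by
      rw [List.count_eq_zero]
      intro hm
      have := List.eq_of_mem_replicate hm
      exact absurd this (by decide)
    simp only [xw, List.count_cons_self, List.count_append, ih, h, List.length_cons]
    omega

lemma sba_exists_xw (u : List (Fin 2)) : ∃ (m : ℕ) (v : List ℕ), u = List.replicate m 0 ++ xw v := by
  induction u with
  | nil => exact ⟨0, [], rfl⟩
  | cons i u ih =>
    obtain ⟨m, v, rfl⟩ := ih
    by_cases h : i = 1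
    · exact ⟨0, m :: v, by rw [h]; rfl⟩
    · have h0 : i = 0 := by omega
      exact ⟨m + 1, v, by rw [h0]; rfl⟩

variable {S : Type} [CommRing S]

lemma sba_pY_rep (z : S) (w : List S) (m : ℕ) (u : List (Fin 2)) :
    pY z w (List.replicate m 0 ++ u) = z ^ m * pY z w u := by
  induction m with
  | zero => simp
  | succ m ih =>
    rw [List.replicate_succ, List.cons_append]
    have h : pY z w ((0 : Fin 2) :: (List.replicate m 0 ++ u)) =
        z * pY z w (List.replicate m 0 ++ u) := by
      cases w <;> simp [pY]
    rw [h, ih]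
    ring

lemma sba_pY_xw (z : S) (w : List S) (v : List ℕ) : pY z w (xw v) = pX (ps z w) v := by
  induction v generalizing z w with
  | nil => cases w <;> simp [xw, pY, pX]
  | cons k v ih =>
    cases w with
    | nil => simp [xw, pY, pX]
    | cons a l =>
      have h : pY z (a :: l) (xw (k :: v)) = pY (z + a) l (List.replicate k 0 ++ xw v) := by
        simp [xw, pY]
      rw [h, sba_pY_rep, ih]
      rfl

lemma sba_pX_ofFn (r : ℕ) (l : List S) (hl : l.length = r) (k : Fin r → ℕ) :
    pX l (List.ofFn k) = ∏ i : Fin r, l.getD i 0 ^ k i := by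
  induction r generalizing l with
  | zero =>
    obtain rfl : l = [] := List.length_eq_zero_iff.1 hl
    simp [pX]
  | succ r ih =>
    cases l with
    | nil => simp at hl
    | cons a l =>
      rw [List.ofFn_succ, Fin.prod_univ_succ]
      have h1 : pX (a :: l) (k 0 :: List.ofFn fun i => k i.succ) =
        a ^ k 0 * pX l (List.ofFn fun i => k i.succ) := rfl
      rw [h1, ih l (by simpa using hl)]
      simp

lemma sba_pX_append (a b : List S) (v v' : List ℕ) (h : a.length = v.length) :
    pX (a ++ b) (v ++ v') = pX a v * pX b v' := by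
  induction a generalizing v with
  | nil =>
    obtain rfl : v = [] := List.length_eq_zero_iff.1 h.symm
    simp [pX]
  | cons x a ih =>
    cases v with
    | nil => simp at h
    | cons k v =>
      simp only [List.cons_append, pX]
      rw [ih v (by simpa using h)]
      ring

lemma sba_pX_reverse (a : List S) (v : List ℕ) (h : a.length = v.length) :
    pX a.reverse v.reverse = pX a v := by
  induction a generalizing v with
  | nil =>
    obtain rfl : v = [] := List.length_eq_zero_iff.1 h.symm
    simp
  | cons x a ih =>
    cases v with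
    | nil => simp at h
    | cons k v =>
      rw [List.reverse_cons, List.reverse_cons, sba_pX_append _ _ _ _ (by simpa using h),
        ih v (by simpa using h)]
      simp [pX, mul_comm]

variable [Algebra ℚ S]

lemma sba_ev (r e : ℕ) (ψ : A) (l : List S) (hl : l.length = r) :
    ev (hpol r e ψ) l = ∑ k ∈ Finset.Nat.antidiagonalTuple r e,
      co ψ (xw (List.ofFn k)) • pX l (List.ofFn k) := by
  unfold ev hpol
  rw [map_sum]
  apply Finset.sum_congr rfl
  intro k _
  rw [map_mul, aeval_C, map_prod, sba_pX_ofFn r l hl, Algebra.smul_def]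
  simp only [map_pow, aeval_X]

lemma sba_co_ls {r e : ℕ} {ψ : A} (h : ψ ∈ ls r e) {u : List (Fin 2)} (hu : co ψ u ≠ 0) :
    u.length = e + r ∧ u.count 1 = r := h.2 u hu

lemma sba_mem_tuple {r e : ℕ} {v : List ℕ} (h1 : v.length = r) (h2 : v.sum = e) :
    ∃ k ∈ Finset.Nat.antidiagonalTuple r e, List.ofFn k = v := by
  subst h1
  refine ⟨v.get, ?_, List.ofFn_get v⟩
  rw [Finset.Nat.mem_antidiagonalTuple, ← h2]
  conv_rhs => rw [← List.ofFn_get v]
  rw [List.sum_ofFn]

lemma sba_tuple {r e : ℕ} {k : Fin r → ℕ} (h : k ∈ Finset.Nat.antidiagonalTuple r e) :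
    (List.ofFn k).length = r ∧ (List.ofFn k).sum = e := by
  rw [Finset.Nat.mem_antidiagonalTuple] at h
  rw [List.sum_ofFn, List.length_ofFn]
  exact ⟨rfl, h⟩

/-- the second relation for one word -/
lemma sba_Y (r e : ℕ) (ψ : A) (h : ψ ∈ ls r e) (w : List S) (hw : w.length = r) :
    ev (hpol r e ψ) (ps 0 w) = lext (fun u => pY 0 w u) ψ := by
  have hps : ∀ (z : S) (l : List S), (ps z l).length = l.length := by
    intro z l
    induction l generalizing z with
    | nil => rfl
    | cons a l ih => simp [ih]
  rw [sba_ev r e ψ _ ((hps 0 w).trans hw)]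
  rw [sba_lext_family (Finset.Nat.antidiagonalTuple r e) (fun k => xw (List.ofFn k))]
  · apply Finset.sum_congr rfl
    intro k _
    rw [sba_pY_xw]
  · intro k _ k' _ hkk
    exact List.ofFn_injective (sba_xw_inj hkk)
  · intro u hu hF
    obtain ⟨h1, h2⟩ := sba_co_ls h hu
    obtain ⟨m, v, rfl⟩ := sba_exists_xw u
    have hm : m = 0 := by
      by_contra hm
      apply hF
      rw [sba_pY_rep, zero_pow hm, zero_mul]
    subst hm
    rw [List.replicate_zero, List.nil_append] at h1 h2 ⊢
    rw [sba_xw_count] at h2
    rw [sba_xw_length] at h1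
    obtain ⟨k, hk, hkv⟩ := sba_mem_tuple h2 (show v.sum = e by omega)
    exact ⟨k, hk, by rw [hkv]⟩

/-- the first relation for one word -/
lemma sba_X (r e : ℕ) (ψ : A) (h : ψ ∈ ls r e) (F : AY)
    (hF : ∀ v, co F v = if v.length = r ∧ v.sum + v.length = e + r then co ψ (wordX v) else 0)
    (w : List S) (hw : w.length = r) :
    ev (hpol r e ψ) w.reverse = ((-1 : ℚ) ^ (e + r + 1)) • lext (fun v => pX w v) F := by
  rw [sba_ev r e ψ _ (by simpa using hw)]
  rw [sba_lext_family (Finset.Nat.antidiagonalTuple r e) (fun k => List.ofFn k)]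
  · rw [Finset.smul_sum]
    refine Finset.sum_nbij' (fun k => k ∘ Fin.rev) (fun k => k ∘ Fin.rev) ?_ ?_ ?_ ?_ ?_
    · intro k hk
      rw [Finset.Nat.mem_antidiagonalTuple] at hk ⊢
      rw [← hk]
      exact Equiv.sum_comp Fin.revPerm k
    · intro k hk
      rw [Finset.Nat.mem_antidiagonalTuple] at hk ⊢
      rw [← hk]
      exact Equiv.sum_comp Fin.revPerm k
    · intro k _
      funext i
      simp
    · intro k _
      funext i
      simp
    · intro k hk
      obtain ⟨h1, h2⟩ := sba_tuple hk
      have hrev : List.ofFn (k ∘ Fin.rev) = (List.ofFn k).reverse := by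
        apply List.ext_getElem
        · simp
        · intro i h3 h4
          rw [List.getElem_reverse, List.getElem_ofFn, List.getElem_ofFn]
          simp only [Function.comp_apply]
          refine congrArg k (Fin.ext ?_)
          simp only [Fin.val_rev, List.length_ofFn]
          omega
      have h3 : co F (List.ofFn (k ∘ Fin.rev)) = co ψ (wordX (List.ofFn k).reverse) := by
        rw [hF, hrev, if_pos]
        rw [List.length_reverse, List.sum_reverse, h1, h2]
        exact ⟨rfl, rfl⟩
      have h4 : co ψ (wordX (List.ofFn k).reverse) =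
          (-1) ^ (e + r + 1) * co ψ (xw (List.ofFn k)) := by
        rw [← sba_xw_reverse, Pool.Agent.H777R4.DM.taskTwoB ψ h.1.mem, sba_xw_length, h1, h2]
      have h5 : pX w.reverse (List.ofFn k) = pX w (List.ofFn k).reverse := by
        have := sba_pX_reverse w.reverse (List.ofFn k) (by simpa using hw)
        rw [← this, List.reverse_reverse]
      have h6 : ((-1 : ℚ) ^ (e + r + 1)) * (-1) ^ (e + r + 1) = 1 := by
        rw [← mul_pow]
        norm_num
      rw [h3, h4, hrev, h5, smul_smul, ← mul_assoc, h6, one_mul]
  · intro k _ k' _ hkk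
    exact List.ofFn_injective hkk
  · intro v hv _
    rw [hF] at hv
    split_ifs at hv with hc
    · obtain ⟨k, hk, hkv⟩ := sba_mem_tuple hc.1 (show v.sum = e by omega)
      exact ⟨k, hk, hkv⟩
    · exact absurd rfl hv

end sba

theorem sBA (h1 : SLieSplit) (h2 : SPrimSplit) (h3 : SpX) (h4 : SpY) : SBA := by
  intro r e ψ _ hψ
  refine ⟨?_, ?_, ?_⟩
  · unfold hpol
    apply IsHomogeneous.sum
    intro k hk
    rw [Finset.Nat.mem_antidiagonalTuple] at hk
    have h := (isHomogeneous_C (Fin r) (co ψ (xw (List.ofFn k)))).mul
      (IsHomogeneous.prod Finset.univ (fun i => (X i : MvPolynomial (Fin r) ℚ) ^ k i) k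
        (fun i _ => by simpa using (isHomogeneous_X ℚ i).pow (k i)))
    rw [hk, zero_add] at h
    exact h
  · intro a b ha hb hab
    have hF := co_Fp_comp (e + r) r ψ
    set F := Fp r (Pool.Agent.H777R4.DM.comp (e + r) ψ) 0 with hFdef
    have hprim : Prim F := hψ.1.fp (e + r) r
    have e1 : ((sh a b).map fun w => ev (hpol r e ψ) w.reverse) =
        (sh a b).map fun w => ((-1 : ℚ) ^ (e + r + 1)) • lext (fun v => pX w v) F := by
      apply List.map_congr_left
      intro w hw
      exact sba_X r e ψ hψ F hF w ((sba_mem_sh a b w hw).trans hab)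
    have e2 : ((sh a b).map fun w => ((-1 : ℚ) ^ (e + r + 1)) • lext (fun v => pX w v) F).sum =
        ((-1 : ℚ) ^ (e + r + 1)) • ((sh a b).map fun w => lext (fun v => pX w v) F).sum := by
      rw [List.smul_sum, List.map_map]
      rfl
    have e3 : lext (fun v => ((sh a b).map fun w => pX w v).sum) F =
        lext (fun v => ((splits v).map fun p => pX a p.1 * pX b p.2).sum) F :=
      congrArg (fun G => lext G F) (funext fun v => h3 _ a b v)
    have e4 : lext (fun v => pX a v * pX b [] + pX a [] * pX b v) F = 0 := by
      have h5 : (fun v => pX a v * pX b [] + pX a [] * pX b v) =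
          fun _ => (0 : MvPolynomial (Fin r) ℚ) := by
        funext v
        obtain ⟨x, a', rfl⟩ := List.exists_cons_of_ne_nil ha
        obtain ⟨y, b', rfl⟩ := List.exists_cons_of_ne_nil hb
        simp [pX]
      rw [h5, sba_lext_zero]
    rw [e1, e2, sba_lext_sum, e3, h2 F hprim _ (fun u v => pX a u * pX b v), e4, smul_zero]
  · intro a b ha hb hab
    have e1 : ((sh a b).map fun w => ev (hpol r e ψ) (ps 0 w)) =
        (sh a b).map fun w => lext (fun u => pY 0 w u) ψ := by
      apply List.map_congr_left
      intro w hw
      exact sba_Y r e ψ hψ w ((sba_mem_sh a b w hw).trans hab)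
    have e3 : lext (fun u => ((sh a b).map fun w => pY 0 w u).sum) ψ =
        lext (fun u => ((splits u).map fun p => pY 0 a p.1 * pY 0 b p.2).sum) ψ :=
      congrArg (fun G => lext G ψ) (funext fun u => by
        have := h4 (MvPolynomial (Fin r) ℚ) 0 0 a b u
        rwa [add_zero] at this)
    have e4 : lext (fun v => pY 0 a v * pY 0 b [] + pY 0 a [] * pY 0 b v) ψ = 0 := by
      have h5 : (fun v => pY 0 a v * pY 0 b [] + pY 0 a [] * pY 0 b v) =
          fun _ => (0 : MvPolynomial (Fin r) ℚ) := by
        funext v
        obtain ⟨x, a', rfl⟩ := List.exists_cons_of_ne_nil ha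
        obtain ⟨y, b', rfl⟩ := List.exists_cons_of_ne_nil hb
        simp [pY]
      rw [h5, sba_lext_zero]
    rw [e1, sba_lext_sum, e3, h1 ψ hψ.1.mem _ (fun u v => pY 0 a u * pY 0 b v), e4]

end Pool.Agent.H492.UB
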