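import Pool.Agent.H492.UB.Stm

/-!
# The counting argument
-/

set_option autoImplicit false

namespace Pool.Agent.H492.UB

open MvPolynomial

namespace Cnt

theorem sh_map {α β : Type} (g : α → β) (a b : List α) :
    sh (a.map g) (b.map g) = (sh a b).map (List.map g) := by
  induction a generalizing b with
  | nil => simp
  | cons x a iha =>
    induction b with
    | nil => simp
    | cons y b ihb =>
      have h1 : sh (g x :: a.map g) (b.map g) = (sh (x :: a) b).map (List.map g) := ihb
      have h2 : sh (a.map g) (g y :: b.map g) = (sh a (y :: b)).map (List.map g) := iha (y :: b)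
      rw [List.map_cons, List.map_cons, sh_cons_cons, sh_cons_cons, List.map_append, h1, h2]
      simp [Function.comp_def]

theorem ps_map {V S : Type} [Add V] [Add S] (g : V → S) (hg : ∀ a b, g (a + b) = g a + g b)
    (s : V) (w : List V) : (ps s w).map g = ps (g s) (w.map g) := by
  induction w generalizing s with
  | nil => simp
  | cons x w ih => rw [ps_cons, List.map_cons, List.map_cons, ps_cons, ih, hg]

theorem lin_add {r : ℕ} (u v : V r) : lin (u + v) = lin u + lin v := by
  unfold lin
  rw [← Finset.sum_add_distrib]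
  refine Finset.sum_congr rfl fun i _ => ?_
  rw [Pi.add_apply, C_add, add_mul]

theorem lin_zero {r : ℕ} : lin (0 : V r) = 0 := by
  unfold lin
  refine Finset.sum_eq_zero fun i _ => ?_
  rw [Pi.zero_apply, C_0, zero_mul]

theorem getD_lin {r : ℕ} (l : List (V r)) (n : ℕ) :
    (l.map lin).getD n (0 : MvPolynomial (Fin r) (ZMod 2)) = lin (l.getD n 0) := by
  have h := List.getD_map (l := l) (d := (0 : V r)) (n := n) (f := lin)
  rw [lin_zero] at h
  exact h

theorem lin_hom {r : ℕ} (v : V r) : (lin v).IsHomogeneous 1 := by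
  unfold lin
  refine IsHomogeneous.sum _ _ _ fun i _ => ?_
  simpa using (isHomogeneous_C (Fin r) (v i)).mul (isHomogeneous_X (ZMod 2) i)

/-- the value of the function attached to a family of polynomials -/
noncomputable def HL {r e : ℕ} (p : Bas r → MvPolynomial (Fin r) (ZMod 2)) (l : List (V r)) :
    (Bas r → W (ZMod 2) r e) →ₗ[ZMod 2] MvPolynomial (Fin r) (ZMod 2) :=
  ∑ j, (LinearMap.mulLeft (ZMod 2) (p j)) ∘ₗ
    (aeval (R := ZMod 2) (fun i : Fin r => (l.map lin).getD i 0)).toLinearMap ∘ₗ
      (W (ZMod 2) r e).subtype ∘ₗ LinearMap.proj j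

theorem HL_apply {r e : ℕ} (p : Bas r → MvPolynomial (Fin r) (ZMod 2)) (l : List (V r))
    (f : Bas r → W (ZMod 2) r e) :
    HL p l f = ∑ j, p j * ev (f j : MvPolynomial (Fin r) (ZMod 2)) (l.map lin) := by
  unfold HL ev
  simp [LinearMap.sum_apply]

theorem list_sum {X ι R : Type} [Fintype ι] [CommRing R] (p : ι → R) (g : ι → X → R)
    (L : List X) : (L.map fun w => ∑ j, p j * g j w).sum = ∑ j, p j * (L.map (g j)).sum := by
  induction L with
  | nil => simp
  | cons x L ih => simp [ih, mul_add, Finset.sum_add_distrib]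

theorem BA_HL {r e : ℕ} (p : Bas r → MvPolynomial (Fin r) (ZMod 2))
    (f : Bas r → W (ZMod 2) r e) : BA r (fun l : List (V r) => HL p l f) := by
  refine ⟨fun a b ha hb hab => ?_, fun a b ha hb hab => ?_⟩
  · simp only [HL_apply]
    rw [list_sum p (fun j (w : List (V r)) =>
      ev (f j : MvPolynomial (Fin r) (ZMod 2)) (w.reverse.map lin))]
    refine Finset.sum_eq_zero fun j _ => ?_
    have h := (f j).2.2.1 (a.map lin) (b.map lin) (by simpa using ha) (by simpa using hb)
      (by simpa using hab)
    rw [sh_map, List.map_map] at h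
    have h2 : ((fun w : List (MvPolynomial (Fin r) (ZMod 2)) =>
        ev (f j : MvPolynomial (Fin r) (ZMod 2)) w.reverse) ∘ List.map lin) =
        fun w : List (V r) => ev (f j : MvPolynomial (Fin r) (ZMod 2)) (w.reverse.map lin) := by
      funext w
      simp only [Function.comp_apply, List.map_reverse]
    rw [h2] at h
    rw [h, mul_zero]
  · simp only [HL_apply]
    rw [list_sum p (fun j (w : List (V r)) =>
      ev (f j : MvPolynomial (Fin r) (ZMod 2)) ((ps 0 w).map lin))]
    refine Finset.sum_eq_zero fun j _ => ?_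
    have h := (f j).2.2.2 (a.map lin) (b.map lin) (by simpa using ha) (by simpa using hb)
      (by simpa using hab)
    rw [sh_map, List.map_map] at h
    have h2 : ((fun w : List (MvPolynomial (Fin r) (ZMod 2)) =>
        ev (f j : MvPolynomial (Fin r) (ZMod 2)) (ps 0 w)) ∘ List.map lin) =
        fun w : List (V r) => ev (f j : MvPolynomial (Fin r) (ZMod 2)) ((ps 0 w).map lin) := by
      funext w
      simp only [Function.comp_apply]
      rw [ps_map lin lin_add, lin_zero]
    rw [h2] at h
    rw [h, mul_zero]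

theorem HL_hom {r e κ : ℕ} (p : Bas r → MvPolynomial (Fin r) (ZMod 2))
    (hp : ∀ j, (p j).IsHomogeneous κ) (f : Bas r → W (ZMod 2) r e) (l : List (V r)) :
    (HL p l f).IsHomogeneous (e + κ) := by
  rw [HL_apply]
  refine IsHomogeneous.sum _ _ _ fun j _ => ?_
  have h1 : (ev (f j : MvPolynomial (Fin r) (ZMod 2)) (l.map lin)).IsHomogeneous (1 * e) := by
    unfold ev
    refine (f j).2.1.aeval _ fun i => ?_
    rw [getD_lin]
    exact lin_hom _
  rw [one_mul] at h1
  rw [add_comm]
  exact (hp j).mul h1

theorem add_self_zero {r : ℕ} (m : MvPolynomial (Fin r) (ZMod 2)) : m + m = 0 := by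
  have h : (2 : ZMod 2) = 0 := rfl
  rw [← two_smul (ZMod 2) m, h, zero_smul]

theorem phi_lin {r : ℕ} (h : Fin r → V r) (u : V r) :
    aeval (R := ZMod 2) (fun i => lin (h i)) (lin u) = lin (∑ k, u k • h k) := by
  have h1 : ∀ (s : Finset (Fin r)), lin (∑ k ∈ s, u k • h k) =
      ∑ k ∈ s, C (u k) * lin (h k) := by
    intro s
    classical
    induction s using Finset.induction_on with
    | empty => simp [lin_zero]
    | insert k s hk ih =>
      rw [Finset.sum_insert hk, Finset.sum_insert hk, lin_add, ih]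
      congr 1
      unfold lin
      rw [Finset.mul_sum]
      refine Finset.sum_congr rfl fun i _ => ?_
      rw [Pi.smul_apply, smul_eq_mul, C_mul, mul_assoc]
  rw [h1]
  conv_lhs => unfold lin
  rw [map_sum]
  refine Finset.sum_congr rfl fun i _ => ?_
  rw [map_mul, aeval_X]
  congr 1
  rw [← algebraMap_eq, AlgHom.commutes]

theorem lin_single {r : ℕ} (i : Fin r) : lin (Pi.single i (1 : ZMod 2)) = X i := by
  unfold lin
  rw [Finset.sum_eq_single i]
  · simp
  · intro j _ hj
    rw [Pi.single_eq_of_ne hj]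
    simp
  · intro h
    exact absurd (Finset.mem_univ i) h

/-- the inverse basis -/
theorem exists_inv {r : ℕ} (h : Bas r) : ∃ w : Bas r, ∀ i, ∑ k, w.1 i k • h.1 k = Pi.single i 1 := by
  have hA : IsUnit (Matrix.of h.1 : Matrix (Fin r) (Fin r) (ZMod 2)) :=
    Matrix.linearIndependent_rows_iff_isUnit.mp h.2
  have hdet : IsUnit (Matrix.of h.1 : Matrix (Fin r) (Fin r) (ZMod 2)).det :=
    (Matrix.isUnit_iff_isUnit_det _).mp hA
  have hB : IsUnit (Matrix.of h.1 : Matrix (Fin r) (Fin r) (ZMod 2))⁻¹ := by
    rw [Matrix.isUnit_iff_isUnit_det]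
    exact Matrix.isUnit_nonsing_inv_det _ hdet
  refine ⟨⟨fun i => ((Matrix.of h.1 : Matrix (Fin r) (Fin r) (ZMod 2))⁻¹) i,
    Matrix.linearIndependent_rows_iff_isUnit.mpr hB⟩, fun i => ?_⟩
  have h1 := Matrix.nonsing_inv_mul (Matrix.of h.1 : Matrix (Fin r) (Fin r) (ZMod 2)) hdet
  funext j
  have h2 := congrFun (congrFun h1 i) j
  rw [Matrix.mul_apply] at h2
  rw [Finset.sum_apply]
  simp only [Pi.smul_apply, smul_eq_mul]
  refine h2.trans ?_
  rw [Matrix.one_apply, Pi.single_apply]
  simp only [eq_comm]

end Cnt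

open Cnt in
theorem sCount : SCount := by
  intro r κ hr hSep hStar hDim hCard e
  obtain ⟨p, hp, hsep⟩ := hSep
  have hv : (Pi.single (⟨0, hr⟩ : Fin r) (1 : ZMod 2) : V r) ≠ 0 := by
    intro h0
    have := congrFun h0 ⟨0, hr⟩
    simp at this
  generalize (Pi.single (⟨0, hr⟩ : Fin r) (1 : ZMod 2) : V r) = v at hv
  have : Fintype {y : Fin r → V r // IsT v y} := Fintype.ofFinite _
  have hfin : ∀ n, Module.Finite (ZMod 2) (homogeneousSubmodule (Fin r) (ZMod 2) n) := by
    intro n
    apply Module.finite_of_finrank_pos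
    rw [hDim (ZMod 2) r n hr]
    exact Nat.choose_pos (by omega)
  have := hfin (e + κ)
  have := hfin e
  have hWle : W (ZMod 2) r e ≤ homogeneousSubmodule (Fin r) (ZMod 2) e := fun f hf => hf.1
  have : Module.Finite (ZMod 2) (W (ZMod 2) r e) := Submodule.finiteDimensional_of_le hWle
  let Psi : (Bas r → W (ZMod 2) r e) →ₗ[ZMod 2]
      ({y : Fin r → V r // IsT v y} → homogeneousSubmodule (Fin r) (ZMod 2) (e + κ)) :=
    LinearMap.pi fun y => LinearMap.codRestrict _ (HL p (ps 0 (List.ofFn y.1)))
      (fun f => HL_hom p hp f _)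
  have hinj : Function.Injective Psi := by
    rw [← LinearMap.ker_eq_bot, LinearMap.ker_eq_bot']
    intro f hf
    have h1 : ∀ y : Fin r → V r, IsT v y → HL p (ps 0 (List.ofFn y)) f = 0 := by
      intro y hy
      have h2 := congrFun hf ⟨y, hy⟩
      exact congrArg Subtype.val h2
    have h3 : ∀ w : Bas r, HL p (List.ofFn w.1) f = 0 :=
      hStar (MvPolynomial (Fin r) (ZMod 2)) add_self_zero (fun l => HL p l f) (BA_HL p f) v hv h1
    have h4 : (fun j => (f j : MvPolynomial (Fin r) (ZMod 2))) = 0 := by
      apply hsep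
      intro h
      obtain ⟨w, hw⟩ := exists_inv h
      have h5 := congrArg (aeval (R := ZMod 2) (fun i => lin (h.1 i))) (h3 w)
      rw [HL_apply, map_sum, map_zero] at h5
      rw [← h5]
      refine Finset.sum_congr rfl fun j _ => ?_
      rw [map_mul, mul_comm]
      congr 1
      unfold ev
      have h6 : (fun i : Fin r => ((List.ofFn w.1).map lin).getD (i : ℕ)
          (0 : MvPolynomial (Fin r) (ZMod 2))) = fun i => lin (w.1 i) := by
        funext i
        rw [getD_lin]
        congr 1
        simp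
      rw [h6, ← AlgHom.comp_apply, comp_aeval]
      have h8 : (fun i => aeval (R := ZMod 2) (fun i => lin (h.1 i)) (lin (w.1 i))) =
          (X : Fin r → MvPolynomial (Fin r) (ZMod 2)) := by
        funext i
        rw [phi_lin, hw, lin_single]
      rw [h8, aeval_X_left, AlgHom.id_apply]
    funext j
    have := congrFun h4 j
    exact Subtype.ext this
  have hle := LinearMap.finrank_le_finrank_of_injective hinj
  rw [Module.finrank_pi_fintype, Module.finrank_pi_fintype, Finset.sum_const, Finset.sum_const,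
    hDim (ZMod 2) r (e + κ) hr, smul_eq_mul, smul_eq_mul, Finset.card_univ, Finset.card_univ,
    ← Nat.card_eq_fintype_card, ← Nat.card_eq_fintype_card] at hle
  have hc := hCard r v hr hv
  have hpos : 0 < Nat.card (Bas r) := by
    have : Nonempty (Bas r) :=
      ⟨⟨fun i => Pi.single i 1, by
        have h0 : (fun i : Fin r => (Pi.single i 1 : V r)) = ⇑(Pi.basisFun (ZMod 2) (Fin r)) := by
          funext i
          exact (Pi.basisFun_apply _ _ i).symm
        rw [h0]
        exact (Pi.basisFun (ZMod 2) (Fin r)).linearIndependent⟩⟩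
    exact Nat.card_pos
  apply Nat.le_of_mul_le_mul_left _ hpos
  calc Nat.card (Bas r) * (r * (2 ^ r - 1) * Module.finrank (ZMod 2) (W (ZMod 2) r e))
      = r * (2 ^ r - 1) * (Nat.card (Bas r) * Module.finrank (ZMod 2) (W (ZMod 2) r e)) := by
        ring
    _ ≤ r * (2 ^ r - 1) * (Nat.card {y : Fin r → V r // IsT v y} *
        (e + κ + r - 1).choose (r - 1)) := Nat.mul_le_mul_left _ hle
    _ = r * (2 ^ r - 1) * Nat.card {y : Fin r → V r // IsT v y} *
        (e + κ + r - 1).choose (r - 1) := by ring
    _ ≤ Nat.card (Bas r) * (e + κ + r - 1).choose (r - 1) := Nat.mul_le_mul_right _ hc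

end Pool.Agent.H492.UB
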