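import Pool.Agent.H492.UB.Stm

/-!
# The dimension of the space of homogeneous polynomials (`SDim`)
-/

set_option autoImplicit false

namespace Pool.Agent.H492.UB

open MvPolynomial

theorem sDim : SDim := by
  intro K _ r n hr
  have h1 : Module.finrank K (homogeneousSubmodule (Fin r) K n) =
      Module.finrank K (AddMonoidAlgebra.supported K K {d : Fin r →₀ ℕ | d.degree = n}) := by
    rw [homogeneousSubmodule_eq_finsupp_supported]
  have h2 : Module.finrank K (AddMonoidAlgebra.supported K K {d : Fin r →₀ ℕ | d.degree = n}) =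
      Nat.card {d : Fin r →₀ ℕ | d.degree = n} :=
    Module.finrank_eq_nat_card_basis (basisRestrictSupport K {d : Fin r →₀ ℕ | d.degree = n})
  have h3 : Nat.card {d : Fin r →₀ ℕ | d.degree = n} = Nat.card (Sym (Fin r) n) := by
    refine Nat.card_congr ((Equiv.subtypeEquivRight fun d => ?_).trans (Sym.equivNatSum (Fin r) n).symm)
    rw [Set.mem_ofPred_eq, Finsupp.degree_eq_sum, Finsupp.sum_fintype _ _ (fun _ => rfl)]
    rfl
  have h4 : Nat.card (Sym (Fin r) n) = (r + n - 1).choose n := by
    rw [Nat.card_eq_fintype_card, Sym.card_sym_eq_choose, Fintype.card_fin]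
  rw [h1, h2, h3, h4]
  have h5 : n + r - 1 = n + (r - 1) := by omega
  have h6 : r + n - 1 = n + (r - 1) := by omega
  rw [h5, h6, Nat.choose_symm_add]

end Pool.Agent.H492.UB
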