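import Pool.Agent.H492.UB.Stm

/-!
# The coefficient polynomial determines the element
-/

set_option autoImplicit false

namespace Pool.Agent.H492.UB

open MvPolynomial Pool.Agent.H777R4.DM Pool.Agent.H159.LS

attribute [local instance 100] LieRing.ofAssociativeRing

namespace SInjAux

theorem xw_append (v w : List ℕ) : xw (v ++ w) = xw v ++ xw w := by
  induction v with
  | nil => rfl
  | cons k v ih => simp [xw, ih]

theorem xw_reverse (v : List ℕ) : (xw v).reverse = wordX v.reverse := by
  induction v with
  | nil => rfl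
  | cons k v ih =>
    rw [List.reverse_cons, Pool.Agent.H777R4.DM.R0.wordX_append, xw, List.reverse_cons,
      List.reverse_append, ih]
    simp [wordX]

theorem coeff_hpol {r e : ℕ} {ψ : A} (h : hpol r e ψ = 0) (k : Fin r → ℕ) (hk : ∑ i, k i = e) :
    co ψ (xw (List.ofFn k)) = 0 := by
  have h1 : coeff (Finsupp.equivFunOnFinite.symm k) (hpol r e ψ) = 0 := by rw [h, coeff_zero]
  unfold hpol at h1
  rw [coeff_sum] at h1
  have h2 : ∀ k' : Fin r → ℕ, coeff (Finsupp.equivFunOnFinite.symm k)
      (C (co ψ (xw (List.ofFn k'))) * ∏ i, (X i : MvPolynomial (Fin r) ℚ) ^ k' i) =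
      if k' = k then co ψ (xw (List.ofFn k')) else 0 := by
    intro k'
    have h3 : (∏ i, (X i : MvPolynomial (Fin r) ℚ) ^ k' i) =
        monomial (Finsupp.equivFunOnFinite.symm k') 1 := by
      rw [monomial_eq, C_1, one_mul, Finsupp.prod_fintype]
      · simp
      · intro i; simp
    rw [h3, C_mul_monomial, mul_one, coeff_monomial]
    by_cases hkk : k' = k
    · rw [if_pos (by rw [hkk]), if_pos hkk]
    · rw [if_neg (fun h4 => hkk (Finsupp.equivFunOnFinite.symm.injective h4)), if_neg hkk]
  rw [Finset.sum_congr rfl fun k' _ => h2 k', Finset.sum_ite_eq', if_pos] at h1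
  · exact h1
  · rw [Finset.Nat.mem_antidiagonalTuple]; exact hk

end SInjAux

open SInjAux

theorem sInj : SInj := by
  intro r e ψ hr hψ h
  obtain ⟨hls, hsupp⟩ := hψ
  have hw : ∀ v : List ℕ, co ψ (wordX v) = 0 := by
    intro v
    by_contra hne
    obtain ⟨h1, h2⟩ := hsupp _ hne
    rw [wordX_count] at h2
    rw [wordX_length, h2] at h1
    have h3 : v.sum = e := by omega
    have h4 : wordX v = (xw v.reverse).reverse := by rw [xw_reverse, List.reverse_reverse]
    rw [h4, taskTwoB ψ hls.mem] at hne
    apply hne
    have h5 : v.reverse = List.ofFn (fun i : Fin r => v.reverse.get (i.cast (by simp [h2]))) := by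
      apply List.ext_get
      · simp [h2]
      · intro n h6 h7
        simp
    have h8 : ∑ i : Fin r, v.reverse.get (i.cast (by simp [h2])) = e := by
      rw [← List.sum_ofFn, ← h5, List.sum_reverse, h3]
    have h9 := coeff_hpol h _ h8
    rw [← h5] at h9
    rw [h9, mul_zero]
  have h0 : co ψ [0] = 0 := by
    by_contra hne
    obtain ⟨-, h2⟩ := hsupp _ hne
    simp at h2
    omega
  have hrun : ∀ k : ℕ, run k ψ = 0 := by
    intro k
    induction k with
    | zero =>
      apply al_ext
      intro l
      rw [co_run, List.replicate_zero, List.append_nil, hw, co_zero]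
    | succ k ih =>
      have h1 := Pool.Agent.H777R4.DM.R0.taskR0 ψ hls.mem h0 k
      rw [ih, map_zero, neg_zero] at h1
      rcases smul_eq_zero.mp h1 with h2 | h2
      · exfalso
        have : (0 : ℚ) < (k : ℚ) + 1 := by positivity
        linarith
      · exact h2
  apply al_ext
  intro u
  rw [← wordX_strip u, ← co_run, hrun, co_zero, co_zero]

end Pool.Agent.H492.UB
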