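import Pool.Agent.H492.UB.Stm

/-!
# Reduction modulo `p` of rational subspaces
-/

set_option autoImplicit false

namespace Pool.Agent.H492.UB

section lattice

variable {ι : Type} [Fintype ι]

/-- the integral vectors of a rational subspace -/
def latt (WQ : Submodule ℚ (ι → ℚ)) : Submodule ℤ (ι → ℤ) where
  carrier := {c | (fun i => (c i : ℚ)) ∈ WQ}
  add_mem' := by
    intro c d hc hd
    have e : (fun i => ((c + d) i : ℚ)) = (fun i => (c i : ℚ)) + fun i => (d i : ℚ) := by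
      funext i
      simp
    show (fun i => ((c + d) i : ℚ)) ∈ WQ
    rw [e]
    exact WQ.add_mem hc hd
  zero_mem' := by
    have e : (fun i => (((0 : ι → ℤ) i : ℤ) : ℚ)) = 0 := by
      funext i
      simp
    show (fun i => (((0 : ι → ℤ) i : ℤ) : ℚ)) ∈ WQ
    rw [e]
    exact WQ.zero_mem
  smul_mem' := by
    intro n c hc
    have e : (fun i => ((n • c) i : ℚ)) = (n : ℚ) • fun i => (c i : ℚ) := by
      funext i
      simp
    show (fun i => ((n • c) i : ℚ)) ∈ WQ
    rw [e]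
    exact WQ.smul_mem _ hc

theorem mem_latt {WQ : Submodule ℚ (ι → ℚ)} {c : ι → ℤ} :
    c ∈ latt WQ ↔ (fun i => (c i : ℚ)) ∈ WQ := Iff.rfl

theorem latt_basis_apply {WQ : Submodule ℚ (ι → ℚ)} {m : ℕ} (b : Module.Basis (Fin m) ℤ (latt WQ))
    (c : latt WQ) (i : ι) : (c : ι → ℤ) i = ∑ j, b.repr c j * (b j : ι → ℤ) i := by
  have h := congrArg (fun x : latt WQ => (x : ι → ℤ) i) (b.sum_repr c)
  simp only [Submodule.coe_sum, Submodule.coe_smul, Finset.sum_apply, Pi.smul_apply,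
    smul_eq_mul] at h
  exact h.symm

theorem latt_div {WQ : Submodule ℚ (ι → ℚ)} {p : ℕ} (hp : p ≠ 0) {y c : ι → ℤ} (hc : c ∈ latt WQ)
    (h : ∀ i, c i = p * y i) : y ∈ latt WQ := by
  rw [mem_latt] at hc ⊢
  have e : (fun i => (y i : ℚ)) = (p : ℚ)⁻¹ • fun i => (c i : ℚ) := by
    funext i
    rw [Pi.smul_apply, h i, smul_eq_mul, Int.cast_mul, Int.cast_natCast]
    have : (p : ℚ) ≠ 0 := Nat.cast_ne_zero.2 hp
    field_simp
  rw [e]
  exact WQ.smul_mem _ hc

theorem latt_le_span {WQ : Submodule ℚ (ι → ℚ)} {m : ℕ} (b : Module.Basis (Fin m) ℤ (latt WQ)) :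
    WQ ≤ Submodule.span ℚ (Set.range fun j : Fin m => fun i => (((b j : ι → ℤ) i : ℤ) : ℚ)) := by
  intro w hw
  set D : ℕ := ∏ i, (w i).den with hD
  have hD0 : (D : ℚ) ≠ 0 := by
    rw [hD]
    exact_mod_cast Finset.prod_ne_zero_iff.2 fun i _ => (w i).den_nz
  have hex : ∀ i, ∃ c : ℤ, (c : ℚ) = (D : ℚ) * w i := by
    intro i
    obtain ⟨k, hk⟩ : (w i).den ∣ D := Finset.dvd_prod_of_mem (fun i => (w i).den) (Finset.mem_univ i)
    refine ⟨k * (w i).num, ?_⟩
    rw [hk, Nat.cast_mul, Int.cast_mul, Int.cast_natCast]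
    have h1 : ((w i).den : ℚ) * w i = (w i).num := Rat.den_mul_eq_num (w i)
    rw [← h1]
    ring
  choose c hc using hex
  have hcL : c ∈ latt WQ := by
    rw [mem_latt]
    have e : (fun i => (c i : ℚ)) = (D : ℚ) • w := by
      funext i
      rw [hc i, Pi.smul_apply, smul_eq_mul]
    rw [e]
    exact WQ.smul_mem _ hw
  have hw2 : w = (D : ℚ)⁻¹ • ∑ j, (b.repr ⟨c, hcL⟩ j : ℚ) •
      (fun i => (((b j : ι → ℤ) i : ℤ) : ℚ)) := by
    funext i
    rw [Pi.smul_apply, Finset.sum_apply, smul_eq_mul]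
    have h1 := congrArg (fun z : ℤ => (z : ℚ)) (latt_basis_apply b ⟨c, hcL⟩ i)
    simp only [Int.cast_sum, Int.cast_mul] at h1
    rw [eq_inv_mul_iff_mul_eq₀ hD0, ← hc i]
    exact h1
  rw [hw2]
  exact Submodule.smul_mem _ _ (Submodule.sum_mem _ fun j _ => Submodule.smul_mem _ _
    (Submodule.subset_span ⟨j, rfl⟩))

theorem latt_indep {WQ : Submodule ℚ (ι → ℚ)} {m : ℕ} (b : Module.Basis (Fin m) ℤ (latt WQ))
    (p : ℕ) [hp : Fact p.Prime] :
    LinearIndependent (ZMod p) (fun j : Fin m => fun i => (((b j : ι → ℤ) i : ℤ) : ZMod p)) := by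
  rw [Fintype.linearIndependent_iff]
  intro g hg j
  have hp0 : p ≠ 0 := hp.out.ne_zero
  haveI : NeZero p := ⟨hp0⟩
  set x : latt WQ := ∑ j, ((g j).val : ℤ) • b j with hx
  have hxi : ∀ i, (x : ι → ℤ) i = ∑ j, ((g j).val : ℤ) * (b j : ι → ℤ) i := by
    intro i
    rw [hx]
    simp only [Submodule.coe_sum, Submodule.coe_smul, Finset.sum_apply, Pi.smul_apply, smul_eq_mul]
  have hdvd : ∀ i, (p : ℤ) ∣ (x : ι → ℤ) i := by
    intro i
    rw [← ZMod.intCast_zmod_eq_zero_iff_dvd, hxi, Int.cast_sum]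
    have h1 := congrFun hg i
    rw [Finset.sum_apply] at h1
    simp only [Pi.smul_apply, smul_eq_mul, Pi.zero_apply] at h1
    rw [← h1]
    refine Finset.sum_congr rfl fun j _ => ?_
    rw [Int.cast_mul, Int.cast_natCast, ZMod.natCast_zmod_val]
  choose y hy using hdvd
  have hyL : y ∈ latt WQ := latt_div hp0 x.2 hy
  have hxy : x = (p : ℤ) • (⟨y, hyL⟩ : latt WQ) := by
    apply Subtype.ext
    funext i
    rw [hy i]
    rfl
  have h2 : b.repr x j = ((g j).val : ℤ) := by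
    rw [hx, b.repr_sum_self]
  have h3 : ((g j).val : ℤ) = p * b.repr ⟨y, hyL⟩ j := by
    rw [← h2, hxy, map_smul, Finsupp.smul_apply, smul_eq_mul]
  have h4 := congrArg (fun z : ℤ => (z : ZMod p)) h3
  simp only [Int.cast_mul, Int.cast_natCast, ZMod.natCast_zmod_val, ZMod.natCast_self,
    zero_mul] at h4
  exact h4

end lattice

theorem sLattice : SLattice := by
  intro p hp ι _ WQ Wp h
  classical
  obtain ⟨m, b⟩ := Submodule.basisOfPid (Pi.basisFun ℤ ι) (latt WQ)
  have h1 : Module.finrank ℚ WQ ≤ m := by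
    refine (Submodule.finrank_mono (latt_le_span b)).trans ?_
    have := finrank_range_le_card (R := ℚ)
      (fun j : Fin m => fun i => (((b j : ι → ℤ) i : ℤ) : ℚ))
    rw [Fintype.card_fin] at this
    exact this
  have h2 : m ≤ Module.finrank (ZMod p) Wp := by
    have h3 : LinearIndependent (ZMod p)
        (fun j : Fin m => (⟨fun i => (((b j : ι → ℤ) i : ℤ) : ZMod p), h _ (b j).2⟩ : Wp)) := by
      apply LinearIndependent.of_comp Wp.subtype
      exact latt_indep b p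
    have := h3.fintype_card_le_finrank
    rwa [Fintype.card_fin] at this
  exact h1.trans h2

end Pool.Agent.H492.UB
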