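import Pool.Agent.H492.UB.Stm

/-!
# Reduction modulo two of the space `W`
-/

set_option autoImplicit false

namespace Pool.Agent.H492.UB

open MvPolynomial

namespace SModAux

/-- the exponents of degree `e` -/
abbrev Ix (r e : ℕ) : Type := ↥((Finset.univ : Finset (Fin r)).finsuppAntidiag e)

theorem mem_Ix {r e : ℕ} (m : Fin r →₀ ℕ) :
    m ∈ (Finset.univ : Finset (Fin r)).finsuppAntidiag e ↔ ∑ i, m i = e := by
  rw [Finset.mem_finsuppAntidiag]
  constructor
  · exact fun h => h.1
  · exact fun h => ⟨h, Finset.subset_univ _⟩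

/-- the polynomial with the coefficients `c` -/
noncomputable def Ph (K : Type) [CommRing K] (r e : ℕ) : (Ix r e → K) →ₗ[K] MvPolynomial (Fin r) K where
  toFun c := ∑ m : Ix r e, monomial m.1 (c m)
  map_add' c c' := by
    rw [← Finset.sum_add_distrib]
    exact Finset.sum_congr rfl fun m _ => by rw [Pi.add_apply, map_add]
  map_smul' a c := by
    rw [Finset.smul_sum]
    exact Finset.sum_congr rfl fun m _ => by
      rw [Pi.smul_apply, RingHom.id_apply, smul_monomial]

theorem Ph_apply (K : Type) [CommRing K] (r e : ℕ) (c : Ix r e → K) :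
    Ph K r e c = ∑ m : Ix r e, monomial m.1 (c m) := rfl

theorem coeff_Ph (K : Type) [CommRing K] (r e : ℕ) (c : Ix r e → K) (m : Ix r e) :
    coeff m.1 (Ph K r e c) = c m := by
  classical
  rw [Ph_apply, coeff_sum, Finset.sum_eq_single m]
  · rw [coeff_monomial, if_pos rfl]
  · intro b _ hb
    rw [coeff_monomial, if_neg]
    exact fun h => hb (Subtype.ext h)
  · intro h
    exact absurd (Finset.mem_univ m) h

theorem Ph_inj (K : Type) [CommRing K] (r e : ℕ) : Function.Injective (Ph K r e) := by
  intro c c' h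
  funext m
  rw [← coeff_Ph K r e c m, ← coeff_Ph K r e c' m, h]

theorem Ph_surj (K : Type) [CommRing K] (r e : ℕ) (f : MvPolynomial (Fin r) K)
    (hf : f.IsHomogeneous e) : Ph K r e (fun m => coeff m.1 f) = f := by
  classical
  ext m
  by_cases hm : ∑ i, m i = e
  · exact coeff_Ph K r e (fun m => coeff m.1 f) ⟨m, (mem_Ix m).2 hm⟩
  · have h1 : coeff m f = 0 := by
      by_contra h
      apply hm
      have h2 := hf h
      rw [← h2, Finsupp.weight_apply, Finsupp.sum_fintype]
      · exact Finset.sum_congr rfl fun i _ => by simp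
      · intro i
        simp
    rw [h1, Ph_apply, coeff_sum]
    refine Finset.sum_eq_zero fun b _ => ?_
    rw [coeff_monomial, if_neg]
    intro h
    apply hm
    rw [← h]
    exact (mem_Ix b.1).1 b.2

theorem finrank_W (K : Type) [Field K] (r e : ℕ) :
    Module.finrank K (W K r e) = Module.finrank K ((W K r e).comap (Ph K r e)) := by
  have h1 : ((W K r e).comap (Ph K r e)).map (Ph K r e) = W K r e := by
    rw [Submodule.map_comap_eq, inf_eq_right]
    intro f hf
    exact ⟨_, Ph_surj K r e f hf.1⟩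
  have h2 := (Submodule.equivMapOfInjective (Ph K r e) (Ph_inj K r e)
    ((W K r e).comap (Ph K r e))).finrank_eq
  rw [h1] at h2
  exact h2.symm

theorem map_Ph (K : Type) [Field K] (r e : ℕ) (c : Ix r e → ℤ) :
    map (Int.castRingHom K) (Ph ℤ r e c) = Ph K r e (fun m => (c m : K)) := by
  rw [Ph_apply, Ph_apply, map_sum]
  refine Finset.sum_congr rfl fun m _ => ?_
  rw [map_monomial]
  rfl

end SModAux

open SModAux in
/-- **reduction modulo two** -/
theorem sMod (h1 : SLattice) (h2 : STransfer) : SMod := by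
  intro r e
  rw [finrank_W ℚ r e, finrank_W (ZMod 2) r e]
  refine h1 2 (Ix r e) ((W ℚ r e).comap (Ph ℚ r e)) ((W (ZMod 2) r e).comap (Ph (ZMod 2) r e)) ?_
  intro c hc
  rw [Submodule.mem_comap, ← map_Ph ℚ r e c] at hc
  rw [Submodule.mem_comap, ← map_Ph (ZMod 2) r e c]
  exact h2 r e _ hc

end Pool.Agent.H492.UB
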