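import Pool.Agent.H492.UB.Stm

/-! The double shuffle relations pass to the reduction modulo two (helper747 for helper492). -/

set_option autoImplicit false

namespace Pool.Agent.H492.UB

open MvPolynomial

namespace Transfer

/-- the value of an integral polynomial at a list -/
noncomputable def evI {S : Type} [CommRing S] {r : ℕ} (f : MvPolynomial (Fin r) ℤ) (l : List S) :
    S :=
  eval₂ (Int.castRingHom S) (fun i : Fin r => l.getD i 0) f

theorem ev_map {K S : Type} [CommRing K] [CommRing S] [Algebra K S] {r : ℕ}
    (f : MvPolynomial (Fin r) ℤ) (l : List S) :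
    ev (map (Int.castRingHom K) f) l = evI f l := by
  unfold ev evI
  rw [aeval_def, eval₂_map]
  have h : (algebraMap K S).comp (Int.castRingHom K) = Int.castRingHom S := RingHom.ext_int _ _
  rw [h]

theorem getD_map {S S' : Type} [CommRing S] [CommRing S'] (g : S →+* S') (l : List S) (i : ℕ) :
    (l.map g).getD i 0 = g (l.getD i 0) := by
  rw [← List.getD_map (f := g), map_zero]

theorem hom_evI {S S' : Type} [CommRing S] [CommRing S'] (g : S →+* S') {r : ℕ}
    (f : MvPolynomial (Fin r) ℤ) (l : List S) : g (evI f l) = evI f (l.map g) := by
  unfold evI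
  rw [hom_eval₂]
  have h : g.comp (Int.castRingHom S) = Int.castRingHom S' := RingHom.ext_int _ _
  rw [h]
  congr 1
  funext i
  exact (getD_map g l i).symm

theorem sh_map {α β : Type} (g : α → β) : ∀ a b : List α,
    sh (a.map g) (b.map g) = (sh a b).map (List.map g) := by
  intro a
  induction a with
  | nil => intro b; rfl
  | cons x a iha =>
    intro b
    induction b with
    | nil => simp
    | cons y b ihb =>
      have h1 := iha (y :: b)
      rw [List.map_cons] at h1
      rw [List.map_cons] at ihb
      rw [List.map_cons, List.map_cons, sh_cons_cons, sh_cons_cons, List.map_append, h1, ihb,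
        List.map_map, List.map_map, List.map_map, List.map_map]
      rfl

theorem ps_map {S S' : Type} [CommRing S] [CommRing S'] (g : S →+* S') (w : List S) :
    ∀ s : S, ps (g s) (w.map g) = (ps s w).map g := by
  induction w with
  | nil => intro s; rfl
  | cons x w ih =>
    intro s
    rw [List.map_cons, ps_cons, ps_cons, List.map_cons, ← map_add, ih]

/-- the relation of the images -/
theorem rel_map (T : (S : Type) → [CommRing S] → List S → List S)
    (hT : ∀ (S S' : Type) [CommRing S] [CommRing S'] (g : S →+* S') (w : List S),
      T S' (w.map g) = (T S w).map g) {r : ℕ} (f : MvPolynomial (Fin r) ℤ)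
    {S S' : Type} [CommRing S] [CommRing S'] (g : S →+* S') (a b : List S) :
    ((sh (a.map g) (b.map g)).map fun w => evI f (T S' w)).sum =
      g ((sh a b).map fun w => evI f (T S w)).sum := by
  rw [sh_map, List.map_map, map_list_sum, List.map_map]
  congr 1
  apply List.map_congr_left
  intro w _
  show evI f (T S' (w.map g)) = g (evI f (T S w))
  rw [hT, hom_evI]

theorem ofFn_getD {S : Type} [CommRing S] (l : List S) (r : ℕ) (h : l.length = r) :
    List.ofFn (fun i : Fin r => l.getD i 0) = l := by
  apply List.ext_getElem
  · rw [List.length_ofFn, h]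
  · intro i h1 h2
    rw [List.getElem_ofFn, List.getD_eq_getElem _ _ h2]

theorem rel (T : (S : Type) → [CommRing S] → List S → List S)
    (hT : ∀ (S S' : Type) [CommRing S] [CommRing S'] (g : S →+* S') (w : List S),
      T S' (w.map g) = (T S w).map g) {r : ℕ} (f : MvPolynomial (Fin r) ℤ)
    (hQ : ∀ a b : List (MvPolynomial (Fin r) ℚ), a ≠ [] → b ≠ [] → a.length + b.length = r →
      ((sh a b).map fun w => evI f (T _ w)).sum = 0)
    {S : Type} [CommRing S] (a b : List S) (ha : a ≠ []) (hb : b ≠ [])
    (hab : a.length + b.length = r) : ((sh a b).map fun w => evI f (T S w)).sum = 0 := by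
  set L : List (MvPolynomial (Fin r) ℤ) := List.ofFn (fun i : Fin r => X i) with hL
  have hLl : L.length = r := List.length_ofFn
  have ha0 : 0 < a.length := List.length_pos_iff.2 ha
  have hb0 : 0 < b.length := List.length_pos_iff.2 hb
  have hA : (L.take a.length).length = a.length := by
    rw [List.length_take, hLl]
    omega
  have hB : (L.drop a.length).length = b.length := by
    rw [List.length_drop, hLl]
    omega
  -- the generic relation
  have hD : ((sh (L.take a.length) (L.drop a.length)).map fun w => evI f (T _ w)).sum = 0 := by
    apply map_injective (σ := Fin r) (Int.castRingHom ℚ) Int.cast_injective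
    rw [map_zero, ← rel_map T hT f (map (σ := Fin r) (Int.castRingHom ℚ))]
    apply hQ
    · rw [← List.length_pos_iff, List.length_map, hA]
      exact ha0
    · rw [← List.length_pos_iff, List.length_map, hB]
      exact hb0
    · rw [List.length_map, List.length_map, hA, hB, hab]
  -- specialisation
  set g : MvPolynomial (Fin r) ℤ →+* S :=
    eval₂Hom (Int.castRingHom S) (fun i : Fin r => (a ++ b).getD i 0) with hg
  have hLg : L.map g = a ++ b := by
    rw [hL, List.map_ofFn]
    rw [← ofFn_getD (a ++ b) r (by rw [List.length_append, hab])]
    congr 1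
    funext i
    show g (X i) = _
    rw [hg, eval₂Hom_X']
  have h1 : (L.take a.length).map g = a := by
    rw [List.map_take, hLg, List.take_left' rfl]
  have h2 : (L.drop a.length).map g = b := by
    rw [List.map_drop, hLg, List.drop_left' rfl]
  have h3 := rel_map T hT f g (L.take a.length) (L.drop a.length)
  rw [h1, h2, hD, map_zero] at h3
  exact h3

end Transfer

open Transfer in
theorem sTransfer : STransfer := by
  intro r e f hf
  obtain ⟨hh, h1, h2⟩ := hf
  refine ⟨?_, ?_, ?_⟩
  · intro c hc
    apply hh
    rw [coeff_map] at hc ⊢
    intro h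
    apply hc
    have h3 : coeff c f = 0 := Int.cast_injective (α := ℚ) (by simpa using h)
    rw [h3, map_zero]
  · intro a b ha hb hab
    have h3 := rel (fun _ _ w => w.reverse) (fun _ _ _ _ g w => List.map_reverse.symm) f
      (fun a b ha hb hab => by
        have := h1 a b ha hb hab
        simpa only [ev_map] using this) a b ha hb hab
    simpa only [ev_map] using h3
  · intro a b ha hb hab
    have h3 := rel (fun _ _ w => ps 0 w) (fun _ _ _ _ g w => by
        rw [← ps_map g w 0, map_zero]) f
      (fun a b ha hb hab => by
        have := h2 a b ha hb hab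
        simpa only [ev_map] using this) a b ha hb hab
    simpa only [ev_map] using h3

end Pool.Agent.H492.UB
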