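import Pool.Agent.H492.UB.Stm

/-! Monomial functions and shuffles. -/

set_option autoImplicit false

namespace Pool.Agent.H492.UB

namespace Sp

variable {S : Type} [CommRing S]

theorem sum_splits {α M : Type} [AddCommMonoid M] (x : α) (w : List α)
    (f : List α × List α → M) :
    ((splits (x :: w)).map f).sum = ((splits w).map fun p => f (x :: p.1, p.2)).sum +
      ((splits w).map fun p => f (p.1, x :: p.2)).sum := by
  show (((splits w).map (fun p => (x :: p.1, p.2)) ++
    (splits w).map (fun p => (p.1, x :: p.2))).map f).sum = _
  rw [List.map_append, List.sum_append, List.map_map, List.map_map]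
  rfl

theorem sum_sh {α M : Type} [AddCommMonoid M] (x y : α) (a b : List α) (f : List α → M) :
    ((sh (x :: a) (y :: b)).map f).sum = ((sh a (y :: b)).map fun w => f (x :: w)).sum +
      ((sh (x :: a) b).map fun w => f (y :: w)).sum := by
  rw [sh_cons_cons, List.map_append, List.sum_append, List.map_map, List.map_map]
  rfl

theorem sum_zero {α M : Type} [AddCommMonoid M] (l : List α) :
    (l.map fun _ => (0 : M)).sum = 0 := by
  induction l with
  | nil => rfl
  | cons x l ih => rw [List.map_cons, List.sum_cons, ih, zero_add]

theorem sum_mul {α : Type} (l : List α) (r : S) (f : α → S) :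
    (l.map fun x => r * f x).sum = r * (l.map f).sum := by
  induction l with
  | nil => simp
  | cons x l ih => rw [List.map_cons, List.sum_cons, ih, List.map_cons, List.sum_cons, mul_add]

theorem sum_single {α M : Type} [AddCommMonoid M] (x : α) (f : α → M) :
    (([x] : List α).map f).sum = f x := by
  simp

@[simp] theorem pX_nil_nil : pX ([] : List S) [] = 1 := rfl
@[simp] theorem pX_nil_cons (k : ℕ) (v : List ℕ) : pX ([] : List S) (k :: v) = 0 := rfl
@[simp] theorem pX_cons_nil (x : S) (a : List S) : pX (x :: a) [] = 0 := rfl
theorem pX_cons_cons (x : S) (a : List S) (k : ℕ) (v : List ℕ) :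
    pX (x :: a) (k :: v) = x ^ k * pX a v := rfl

@[simp] theorem pY_nil_nil (z : S) : pY z [] [] = 1 := rfl
@[simp] theorem pY_cons_nil (z x : S) (a : List S) : pY z (x :: a) [] = 0 := rfl
theorem pY_ne (z : S) (a : List S) {i : Fin 2} (hi : i ≠ 1) (u : List (Fin 2)) :
    pY z a (i :: u) = z * pY z a u := by
  cases a with
  | nil => exact if_neg hi
  | cons x a => exact if_neg hi
theorem pY_nil_one (z : S) (u : List (Fin 2)) : pY z [] (1 :: u) = 0 := by
  rw [pY, if_pos rfl]
theorem pY_cons_one (z x : S) (a : List S) (u : List (Fin 2)) :
    pY z (x :: a) (1 :: u) = pY (z + x) a u := by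
  rw [pY, if_pos rfl]

theorem X (v : List ℕ) : ∀ a b : List S,
    ((sh a b).map fun w => pX w v).sum = ((splits v).map fun p => pX a p.1 * pX b p.2).sum := by
  induction v with
  | nil =>
    intro a b
    have e : ((splits ([] : List ℕ)).map fun p => pX a p.1 * pX b p.2).sum =
        pX a [] * pX b [] := by
      show ([pX a [] * pX b []]).sum = _
      simp
    rw [e]
    cases a with
    | nil => rw [sh_nil_left, sum_single, pX_nil_nil, one_mul]
    | cons x a =>
      cases b with
      | nil => rw [sh_nil_right, sum_single, pX_nil_nil, mul_one]
      | cons y b =>
        rw [sum_sh]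
        simp only [pX_cons_nil, sum_zero, zero_mul, add_zero]
  | cons k v ih =>
    intro a b
    rw [sum_splits]
    cases a with
    | nil =>
      cases b with
      | nil => simp only [sh_nil_left, sum_single, pX_nil_cons, zero_mul, mul_zero, sum_zero,
          add_zero]
      | cons y b =>
        have h := ih [] b
        rw [sh_nil_left, sum_single] at h
        simp only [sh_nil_left, sum_single, pX_nil_cons, zero_mul, sum_zero, zero_add, pX_cons_cons]
        rw [h, ← sum_mul]
        refine congrArg List.sum (List.map_congr_left fun p _ => ?_)
        ring
    | cons x a =>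
      cases b with
      | nil =>
        have h := ih a []
        rw [sh_nil_right, sum_single] at h
        simp only [sh_nil_right, sum_single, pX_nil_cons, mul_zero, sum_zero, add_zero,
          pX_cons_cons]
        rw [h, ← sum_mul]
        refine congrArg List.sum (List.map_congr_left fun p _ => ?_)
        ring
      | cons y b =>
        rw [sum_sh]
        simp only [pX_cons_cons]
        rw [sum_mul, sum_mul, ih, ih, ← sum_mul, ← sum_mul]
        congr 1
        · refine congrArg List.sum (List.map_congr_left fun p _ => ?_)
          ring
        · refine congrArg List.sum (List.map_congr_left fun p _ => ?_)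
          ring

theorem Y (u : List (Fin 2)) : ∀ (z t : S) (a b : List S),
    ((sh a b).map fun w => pY (z + t) w u).sum =
      ((splits u).map fun p => pY z a p.1 * pY t b p.2).sum := by
  induction u with
  | nil =>
    intro z t a b
    have e : ((splits ([] : List (Fin 2))).map fun p => pY z a p.1 * pY t b p.2).sum =
        pY z a [] * pY t b [] := by
      show ([pY z a [] * pY t b []]).sum = _
      simp
    rw [e]
    cases a with
    | nil =>
      rw [sh_nil_left, sum_single, pY_nil_nil, one_mul]
      cases b with
      | nil => rw [pY_nil_nil, pY_nil_nil]
      | cons y b => rw [pY_cons_nil, pY_cons_nil]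
    | cons x a =>
      cases b with
      | nil => rw [sh_nil_right, sum_single, pY_nil_nil, mul_one, pY_cons_nil, pY_cons_nil]
      | cons y b =>
        rw [sum_sh]
        simp only [pY_cons_nil, sum_zero, zero_mul, add_zero]
  | cons i u ih =>
    intro z t a b
    rw [sum_splits]
    by_cases hi : i = 1
    · subst hi
      cases a with
      | nil =>
        cases b with
        | nil => simp only [sh_nil_left, sum_single, pY_nil_one, zero_mul, mul_zero, sum_zero,
            add_zero]
        | cons y b =>
          have h := ih z (t + y) [] b
          rw [sh_nil_left, sum_single] at h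
          simp only [sh_nil_left, sum_single, pY_nil_one, zero_mul, sum_zero, zero_add, pY_cons_one]
          rw [add_assoc, h]
      | cons x a =>
        cases b with
        | nil =>
          have h := ih (z + x) t a []
          rw [sh_nil_right, sum_single] at h
          simp only [sh_nil_right, sum_single, pY_nil_one, mul_zero, sum_zero, add_zero,
            pY_cons_one]
          rw [add_right_comm, h]
        | cons y b =>
          rw [sum_sh]
          simp only [pY_cons_one]
          rw [add_right_comm z t x, add_assoc z t y, ih, ih]
    · simp only [pY_ne _ _ hi]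
      rw [sum_mul, ih, add_mul, ← sum_mul, ← sum_mul]
      congr 1
      · refine congrArg List.sum (List.map_congr_left fun p _ => ?_)
        ring
      · refine congrArg List.sum (List.map_congr_left fun p _ => ?_)
        ring

end Sp

theorem spX : SpX := fun _ _ a b v => Sp.X v a b

theorem spY : SpY := fun _ _ z t a b u => Sp.Y u z t a b

end Pool.Agent.H492.UB
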