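import Pool.Agent.H492.UB.Stm

/-!
# Lie elements are primitive, on words
-/

set_option autoImplicit false

namespace Pool.Agent.H492.UB

open Pool.Agent.H777R4.DM

attribute [local instance 100] LieRing.ofAssociativeRing

section gen

variable {α : Type}

/-- basis: the pairs of words -/
abbrev A2 (α : Type) : Type := MonoidAlgebra ℚ (FreeMonoid α × FreeMonoid α)

/-- `P ↦ P ⊗ 1` -/
noncomputable def ginl (α : Type) : Al α →ₐ[ℚ] A2 α :=
  MonoidAlgebra.mapDomainAlgHom ℚ ℚ (MonoidHom.inl (FreeMonoid α) (FreeMonoid α))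

/-- `P ↦ 1 ⊗ P` -/
noncomputable def ginr (α : Type) : Al α →ₐ[ℚ] A2 α :=
  MonoidAlgebra.mapDomainAlgHom ℚ ℚ (MonoidHom.inr (FreeMonoid α) (FreeMonoid α))

/-- the coproduct for which the letters are primitive -/
noncomputable def gΔ (α : Type) : Al α →ₐ[ℚ] A2 α :=
  MonoidAlgebra.lift ℚ (A2 α) (FreeMonoid α)
    (FreeMonoid.lift (fun k : α => ginl α (wd [k]) + ginr α (wd [k])))

/-- the pair of words `u ⊗ v` -/
noncomputable def tw (u v : List α) : A2 α :=
  MonoidAlgebra.of ℚ (FreeMonoid α × FreeMonoid α) (FreeMonoid.ofList u, FreeMonoid.ofList v)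

/-- linear extension of a function on pairs of words -/
noncomputable def lext2 {V : Type} [AddCommGroup V] [Module ℚ V] (G : List α → List α → V) :
    A2 α →ₗ[ℚ] V :=
  (Finsupp.linearCombination ℚ (fun m : FreeMonoid α × FreeMonoid α =>
    G (FreeMonoid.toList m.1) (FreeMonoid.toList m.2))) ∘ₗ
    (MonoidAlgebra.coeffLinearEquiv ℚ).toLinearMap

lemma lext2_tw {V : Type} [AddCommGroup V] [Module ℚ V] (G : List α → List α → V)
    (u v : List α) : lext2 G (tw u v) = G u v := by
  unfold lext2 tw
  simp only [LinearMap.comp_apply, MonoidAlgebra.of_apply]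
  show (Finsupp.linearCombination ℚ _)
    (Finsupp.single (FreeMonoid.ofList u, FreeMonoid.ofList v) (1 : ℚ)) = _
  rw [Finsupp.linearCombination_single, one_smul]
  rfl

lemma ginl_wd (u : List α) : ginl α (wd u) = tw u [] := by
  unfold ginl wd tw
  rw [MonoidAlgebra.of_apply, MonoidAlgebra.of_apply]
  exact MonoidAlgebra.mapDomain_single

lemma ginr_wd (u : List α) : ginr α (wd u) = tw [] u := by
  unfold ginr wd tw
  rw [MonoidAlgebra.of_apply, MonoidAlgebra.of_apply]
  exact MonoidAlgebra.mapDomain_single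

lemma tw_mul (u v u' v' : List α) : tw u v * tw u' v' = tw (u ++ u') (v ++ v') := by
  unfold tw
  rw [← map_mul]
  rfl

lemma wd_cons' (a : α) (w : List α) : wd (a :: w) = wd [a] * wd w := by
  unfold wd
  rw [← map_mul]
  rfl

lemma gΔ_one_letter (a : α) : gΔ α (wd [a]) = ginl α (wd [a]) + ginr α (wd [a]) := by
  unfold gΔ
  have h : (wd [a] : Al α) = MonoidAlgebra.of ℚ (FreeMonoid α) (FreeMonoid.of a) := rfl
  rw [h, MonoidAlgebra.lift_of, FreeMonoid.lift_eval_of]
  rfl

lemma gΔ_wd (w : List α) :
    gΔ α (wd w) = ((splits w).map (fun p => tw p.1 p.2)).sum := by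
  induction w with
  | nil =>
    have h1 : (wd [] : Al α) = 1 := by
      unfold wd
      exact map_one _
    have h2 : (tw [] [] : A2 α) = 1 := by
      unfold tw
      exact map_one _
    rw [h1, map_one]
    simp [splits, h2]
  | cons a w ih =>
    rw [wd_cons', map_mul, ih, gΔ_one_letter, ginl_wd, ginr_wd, add_mul, splits,
      List.map_append, List.sum_append, List.map_map, List.map_map,
      ← List.sum_map_mul_left, ← List.sum_map_mul_left]
    congr 1
    · congr 1
      refine List.map_congr_left fun p _ => ?_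
      simp only [Function.comp_apply, tw_mul]
      rfl
    · congr 1
      refine List.map_congr_left fun p _ => ?_
      simp only [Function.comp_apply, tw_mul]
      rfl

lemma ginl_ginr_comm (P Q : Al α) : ginl α P * ginr α Q = ginr α Q * ginl α P := by
  induction P using al_induction with
  | h1 u =>
    induction Q using al_induction with
    | h1 v =>
      rw [ginl_wd, ginr_wd, tw_mul, tw_mul]
      simp
    | h2 P Q hP hQ => rw [map_add, mul_add, add_mul, hP, hQ]
    | h3 c P hP => rw [map_smul, mul_smul_comm, smul_mul_assoc, hP]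
  | h2 P Q hP hQ => rw [map_add, mul_add, add_mul, hP, hQ]
  | h3 c P hP => rw [map_smul, mul_smul_comm, smul_mul_assoc, hP]

/-- the primitive elements -/
noncomputable def gPrim (α : Type) : LieSubalgebra ℚ (Al α) where
  carrier := {P | gΔ α P = ginl α P + ginr α P}
  add_mem' := by
    intro P Q hP hQ
    simp only [Set.mem_ofPred_eq] at hP hQ ⊢
    rw [map_add, map_add, map_add, hP, hQ]
    abel
  zero_mem' := by
    simp only [Set.mem_ofPred_eq, map_zero, add_zero]
  smul_mem' := by
    intro c P hP
    simp only [Set.mem_ofPred_eq] at hP ⊢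
    rw [map_smul, map_smul, map_smul, hP, smul_add]
  lie_mem' := by
    intro P Q hP hQ
    have hP' : gΔ α P = ginl α P + ginr α P := hP
    have hQ' : gΔ α Q = ginl α Q + ginr α Q := hQ
    show gΔ α ⁅P, Q⁆ = ginl α ⁅P, Q⁆ + ginr α ⁅P, Q⁆
    have e : (⁅P, Q⁆ : Al α) = P * Q - Q * P := rfl
    rw [e, map_sub, map_sub, map_sub, map_mul, map_mul, map_mul, map_mul, map_mul, map_mul,
      hP', hQ']
    have h1 := ginl_ginr_comm P Q
    have h2 := ginl_ginr_comm Q P
    rw [add_mul, add_mul, mul_add, mul_add, mul_add, mul_add, h1, h2]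
    abel

lemma gPrim_split (P : Al α) (hP : gΔ α P = ginl α P + ginr α P) (M : Type) [AddCommGroup M]
    [Module ℚ M] (g : List α → List α → M) :
    lext (fun w => ((splits w).map (fun p => g p.1 p.2)).sum) P
      = lext (fun w => g w [] + g [] w) P := by
  have h1 : (lext (fun w => ((splits w).map (fun p => g p.1 p.2)).sum) : Al α →ₗ[ℚ] M)
      = (lext2 g) ∘ₗ (gΔ α).toLinearMap := by
    refine lin_ext fun l => ?_
    rw [lext_wd, LinearMap.comp_apply]
    show _ = lext2 g (gΔ α (wd l))
    rw [gΔ_wd, map_list_sum, List.map_map]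
    congr 1
    refine List.map_congr_left fun p _ => ?_
    rw [Function.comp_apply, lext2_tw]
  have h2 : (lext (fun w => g w [] + g [] w) : Al α →ₗ[ℚ] M)
      = (lext2 g) ∘ₗ ((ginl α).toLinearMap + (ginr α).toLinearMap) := by
    refine lin_ext fun l => ?_
    rw [lext_wd, LinearMap.comp_apply, LinearMap.add_apply]
    show _ = lext2 g (ginl α (wd l) + ginr α (wd l))
    rw [ginl_wd, ginr_wd, map_add, lext2_tw, lext2_tw]
  rw [h1, h2, LinearMap.comp_apply, LinearMap.comp_apply, LinearMap.add_apply]
  exact congrArg (lext2 g) hP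

end gen

theorem sLieSplit : SLieSplit := by
  intro ψ hψ M _ _ g
  refine gPrim_split ψ ?_ M g
  have h : LieX ≤ gPrim (Fin 2) := by
    unfold LieX
    rw [LieSubalgebra.lieSpan_le]
    intro y hy
    rcases hy with rfl | hy
    · exact gΔ_one_letter 0
    · rw [Set.mem_singleton_iff] at hy
      subst hy
      exact gΔ_one_letter 1
  exact h hψ

theorem sPrimSplit : SPrimSplit := by
  intro P hP M _ _ g
  exact gPrim_split P hP M g

end Pool.Agent.H492.UB
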