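import Pool.Agent.H492.UB.StarF
import Pool.Agent.H492.UB.SDim
import Pool.Agent.H492.UB.Card
import Pool.Agent.H492.UB.SSepPf
import Pool.Agent.H492.UB.SLat
import Pool.Agent.H492.UB.STrans
import Pool.Agent.H492.UB.SModPf
import Pool.Agent.H492.UB.Split
import Pool.Agent.H492.UB.Sp
import Pool.Agent.H492.UB.SBAPf
import Pool.Agent.H492.UB.SInjPf
import Pool.Agent.H492.UB.SCountPf
import Pool.Graph.R_seed8.H777R4.DM.DMN

/-!
# Upper bounds for the depth graded pieces
-/

set_option autoImplicit false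

namespace Pool.Agent.H492.UB

open MvPolynomial Pool.Agent.H777R4.DM Pool.Agent.H159.LS

attribute [local instance 100] LieRing.ofAssociativeRing

/-- the coefficient polynomial as a linear map -/
noncomputable def hlin (r e : ℕ) : A →ₗ[ℚ] MvPolynomial (Fin r) ℚ where
  toFun := hpol r e
  map_add' ψ φ := by
    simp only [hpol, co_add, map_add, add_mul, Finset.sum_add_distrib]
  map_smul' c ψ := by
    simp only [hpol, co_smul, map_mul, mul_assoc, RingHom.id_apply, Finset.smul_sum, smul_eq_C_mul]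

theorem finite_W (K : Type) [Field K] (r e : ℕ) (hr : 1 ≤ r) : Module.Finite K (W K r e) := by
  have h1 : W K r e ≤ homogeneousSubmodule (Fin r) K e := fun f hf => hf.1
  have h2 : Module.Finite K (homogeneousSubmodule (Fin r) K e) := by
    refine Module.finite_of_finrank_pos ?_
    rw [sDim K r e hr]
    exact Nat.choose_pos (by omega)
  exact Submodule.finiteDimensional_of_le h1

/-- the restriction of `hlin` to `ls r e` -/
noncomputable def hls (r e : ℕ) (hr : 2 ≤ r) : ls r e →ₗ[ℚ] W ℚ r e :=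
  LinearMap.codRestrict _ ((hlin r e).domRestrict (ls r e)) fun ψ =>
    sBA sLieSplit sPrimSplit spX spY r e ψ.1 hr ψ.2

theorem hls_inj (r e : ℕ) (hr : 2 ≤ r) : Function.Injective (hls r e hr) := by
  rw [← LinearMap.ker_eq_bot, LinearMap.ker_eq_bot']
  intro ψ hψ
  have h1 : hpol r e ψ.1 = 0 := congrArg Subtype.val hψ
  exact Subtype.ext (sInj r e ψ.1 (by omega) ψ.2 h1)

theorem finite_ls (r e : ℕ) (hr : 2 ≤ r) : Module.Finite ℚ (ls r e) := by
  have := finite_W ℚ r e (by omega)
  exact Module.Finite.of_injective (hls r e hr) (hls_inj r e hr)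

theorem ls_le_W (r e : ℕ) (hr : 2 ≤ r) :
    Module.finrank ℚ (ls r e) ≤ Module.finrank ℚ (W ℚ r e) := by
  have := finite_W ℚ r e (by omega)
  exact LinearMap.finrank_le_finrank_of_injective (hls_inj r e hr)

theorem ls_le (r κ e : ℕ) (hr : 2 ≤ r) (hsep : Sep r κ) (hst : Star r) :
    r * (2 ^ r - 1) * Module.finrank ℚ (ls r e) ≤ (e + κ + r - 1).choose (r - 1) := by
  have h1 := ls_le_W r e hr
  have h2 := sMod sLattice sTransfer r e
  have h3 := sCount r κ (by omega) hsep hst sDim sCard e
  exact (Nat.mul_le_mul_left _ (h1.trans h2)).trans h3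

theorem ls4_le (e : ℕ) : 60 * Module.finrank ℚ (ls 4 e) ≤ (e + 230).choose 3 :=
  ls_le 4 227 e (by norm_num) sSep.1 star4

theorem ls5_le (e : ℕ) : 155 * Module.finrank ℚ (ls 5 e) ≤ (e + 998).choose 4 :=
  ls_le 5 994 e (by norm_num) sSep.2 star5

/-! ### the depth graded pieces of `dm` -/

/-- the elements of `dm` of weight `N` and depth at least `r` -/
noncomputable def dmD (N r : ℕ) : Submodule ℚ A where
  carrier := {ψ | IsDM ψ ∧ ∀ u, co ψ u ≠ 0 → u.length = N ∧ r ≤ u.count 1}
  add_mem' := by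
    rintro f g ⟨hf, hf1⟩ ⟨hg, hg1⟩
    refine ⟨isDM_add hf hg, fun u hu => ?_⟩
    rw [co_add] at hu
    by_cases h : co f u = 0
    · exact hg1 u fun h' => hu (by rw [h, h', add_zero])
    · exact hf1 u h
  zero_mem' := ⟨isDM_zero, fun u hu => absurd (co_zero u) hu⟩
  smul_mem' := by
    rintro c f ⟨hf, hf1⟩
    exact ⟨isDM_smul hf c, fun u hu => hf1 u fun h' => hu (by rw [co_smul, h', mul_zero])⟩

/-- `gr_r dm_N`: the elements of weight `N` and depth at least `r` modulo those of depth at least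
`r + 1` -/
abbrev grdm (N r : ℕ) : Type := dmD N r ⧸ (dmD N (r + 1)).comap (dmD N r).subtype

/-- the leading part -/
theorem dpart_mem (N r : ℕ) (hN : r ≤ N) (ψ : A) (hψ : ψ ∈ dmD N r) : dpart r ψ ∈ ls r (N - r) := by
  refine ⟨isLS_lead hψ.1 (fun u hu => (hψ.2 u hu).2), fun u hu => ?_⟩
  rw [co_dpart] at hu
  split_ifs at hu with h1
  · have := (hψ.2 u hu).1
    exact ⟨by omega, h1⟩
  · exact absurd rfl hu

/-- the map from the graded piece to `ls` -/
noncomputable def grMap (N r : ℕ) (hN : r ≤ N) : dmD N r →ₗ[ℚ] ls r (N - r) :=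
  LinearMap.codRestrict _ ((dpart r).domRestrict (dmD N r)) fun ψ => dpart_mem N r hN ψ.1 ψ.2

theorem ker_grMap (N r : ℕ) (hN : r ≤ N) :
    LinearMap.ker (grMap N r hN) = (dmD N (r + 1)).comap (dmD N r).subtype := by
  ext ψ
  rw [LinearMap.mem_ker, Submodule.mem_comap, Submodule.subtype_apply]
  constructor
  · intro h
    have h1 : dpart r ψ.1 = 0 := congrArg Subtype.val h
    refine ⟨ψ.2.1, fun u hu => ⟨(ψ.2.2 u hu).1, ?_⟩⟩
    have h2 := (ψ.2.2 u hu).2
    rcases Nat.lt_or_ge r (u.count 1) with h3 | h3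
    · exact h3
    · exfalso
      have h4 : u.count 1 = r := le_antisymm h3 h2
      have h5 := co_dpart r ψ.1 u
      rw [h1, co_zero, if_pos h4] at h5
      exact hu h5.symm
  · intro h
    apply Subtype.ext
    show dpart r ψ.1 = 0
    apply al_ext
    intro u
    rw [co_dpart, co_zero]
    split_ifs with h1
    · by_contra h2
      have := (h.2 u h2).2
      omega
    · rfl

theorem dmD_eq_bot (N r : ℕ) (hN : N < r) : dmD N r = ⊥ := by
  rw [eq_bot_iff]
  intro ψ hψ
  rw [Submodule.mem_bot]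
  by_contra h
  obtain ⟨u, hu⟩ := exists_co_ne h
  have h1 := hψ.2 u hu
  have h2 := List.count_le_length (a := (1 : Fin 2)) (l := u)
  omega

theorem finite_gr (N r : ℕ) (hr : 2 ≤ r) : Module.Finite ℚ (grdm N r) := by
  rcases Nat.lt_or_ge N r with h | h
  · have h1 := dmD_eq_bot N r h
    have h2 : Module.Finite ℚ (dmD N r) := by rw [h1]; infer_instance
    infer_instance
  · have h1 := finite_ls r (N - r) hr
    have h2 := ker_grMap N r h
    have e := (Submodule.quotEquivOfEq _ _ h2).symm.trans (grMap N r h).quotKerEquivRange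
    exact Module.Finite.equiv e.symm

theorem gr_le (N r : ℕ) (hr : 2 ≤ r) :
    Module.finrank ℚ (grdm N r) ≤ Module.finrank ℚ (ls r (N - r)) ∧
      (N < r → Module.finrank ℚ (grdm N r) = 0) := by
  rcases Nat.lt_or_ge N r with h | h
  · have h1 := dmD_eq_bot N r h
    have h2 : Module.finrank ℚ (dmD N r) = 0 := by rw [h1]; exact finrank_bot ℚ A
    have h3 : Module.Finite ℚ (dmD N r) := by rw [h1]; infer_instance
    have h4 : Module.finrank ℚ (grdm N r) = 0 := by
      have h5 := Submodule.finrank_quotient_le ((dmD N (r + 1)).comap (dmD N r).subtype)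
      rw [h2] at h5
      exact Nat.le_zero.mp h5
    exact ⟨by omega, fun _ => h4⟩
  · refine ⟨?_, fun h' => by omega⟩
    have h1 := finite_ls r (N - r) hr
    have h2 := ker_grMap N r h
    have e := (Submodule.quotEquivOfEq _ _ h2).symm.trans (grMap N r h).quotKerEquivRange
    rw [e.finrank_eq]
    exact Submodule.finrank_le _

end Pool.Agent.H492.UB
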