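import Pool.Agent.H492.UB.Stm

/-!
# Statements for the upper bound in depth four by reduction modulo three
-/

set_option autoImplicit false

namespace Pool.Agent.H492.UB

open MvPolynomial

/-- the double shuffle relations pass to the reduction modulo `p` -/
def STransferP : Prop := ∀ (p : ℕ) [Fact p.Prime] (r e : ℕ) (f : MvPolynomial (Fin r) ℤ),
  map (Int.castRingHom ℚ) f ∈ W ℚ r e → map (Int.castRingHom (ZMod p)) f ∈ W (ZMod p) r e

/-- reduction modulo `p` -/
def SModP : Prop := ∀ (p : ℕ) [Fact p.Prime] (r e : ℕ),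
  Module.finrank ℚ (W ℚ r e) ≤ Module.finrank (ZMod p) (W (ZMod p) r e)

/-- in depth four there is nothing in odd degrees -/
def SOdd : Prop := ∀ e : ℕ, Odd e → W ℚ 4 e = ⊥

/-- the vectors over `𝔽₃` -/
abbrev V3 : Type := Fin 4 → ZMod 3

/-- the linear form of a vector -/
noncomputable def lin3 (v : V3) : MvPolynomial (Fin 4) (ZMod 3) := ∑ i, C (v i) * X i

/-- the first nonzero coordinate is one -/
def Nrm (v : V3) : Prop := ∃ i, v i = 1 ∧ ∀ j < i, v j = 0

/-- the bases with normalized last vector -/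
abbrev BasN : Type := {h : Fin 4 → V3 // LinearIndependent (ZMod 3) h ∧ Nrm (h 3)}

noncomputable instance : Fintype BasN := Fintype.ofFinite _

/-- polynomials of degree `κ` over `𝔽₃` which separate the points `(lin h₁, …, lin h₄)` -/
def Sep3 (κ : ℕ) : Prop := ∃ p : BasN → MvPolynomial (Fin 4) (ZMod 3),
  (∀ j, (p j).IsHomogeneous κ) ∧ ∀ F : BasN → MvPolynomial (Fin 4) (ZMod 3),
    (∀ h : BasN, ∑ j, F j * aeval (fun i => lin3 (h.1 i)) (p j) = 0) → F = 0

def SSep3 : Prop := Sep3 3243 ∧ Fintype.card BasN = 12130560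

/-- `D` linear functionals which determine the even functions with the double shuffle relations -/
def Span3 (D : ℕ) : Prop := ∃ (Φ : Type) (_ : Fintype Φ) (φ : Φ → List (ZMod 3 × List V3)),
  Fintype.card Φ = D ∧ (∀ i, ∀ t ∈ φ i, t.2.length = 4) ∧
  ∀ (M : Type) [AddCommGroup M] [Module (ZMod 3) M] (H : List V3 → M), BA 4 H →
    (∀ w : List V3, H (w.map (fun x => -x)) = H w) →
    (∀ i, ((φ i).map fun t => t.1 • H t.2).sum = 0) →
    ∀ h : Fin 4 → V3, LinearIndependent (ZMod 3) h → H (List.ofFn h) = 0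

/-- the counting argument -/
def SCount3 : Prop := ∀ κ D : ℕ, Sep3 κ → Span3 D → SDim → ∀ e : ℕ, Even e →
  Fintype.card BasN * Module.finrank (ZMod 3) (W (ZMod 3) 4 e) ≤ D * (e + κ + 3).choose 3

/-- the unipotent matrices with entries at the places of `P` -/
def IsU (P : Finset (Fin 4 × Fin 4)) (u : Matrix (Fin 4) (Fin 4) (ZMod 3)) : Prop :=
  (∀ j, u j j = 1) ∧ ∀ j k, j ≠ k → (j, k) ∉ P → u j k = 0

/-- The functions with the double shuffle relations which are invariant under the unipotent matrices and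
of type `χ` under the diagonal matrices vanish, if they vanish at the words of `L`. -/
def CertT (P : Finset (Fin 4 × Fin 4)) (χ : Finset (Fin 4)) (L : List (List V3)) : Prop :=
  ∀ (M : Type) [AddCommGroup M] [Module (ZMod 3) M] (H : List V3 → M), BA 4 H →
    (∀ u, IsU P u → ∀ w, H (w.map (fun x => u.mulVec x)) = H w) →
    (∀ s : Fin 4 → ZMod 3, (∀ j, s j = 1 ∨ s j = -1) → ∀ w,
      H (w.map (fun x j => s j * x j)) = (∏ j ∈ χ, s j) • H w) →
    (∀ t ∈ L, H t = 0) → ∀ h : Fin 4 → V3, LinearIndependent (ZMod 3) h → H (List.ofFn h) = 0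

/-- Nakayama's lemma -/
def SNak : Prop := ∀ P : Finset (Fin 4 × Fin 4), (∀ q ∈ P, q.1 < q.2) →
  (∀ i j k, (i, j) ∈ P → (j, k) ∈ P → (i, k) ∈ P) →
  ∀ L : Finset (Fin 4) → List (List V3), (∀ χ, ∀ t ∈ L χ, t.length = 4) →
  (∀ χ : Finset (Fin 4), Even χ.card → CertT P χ (L χ)) →
  Span3 (3 ^ P.card * ∑ χ ∈ Finset.univ.filter (fun χ : Finset (Fin 4) => Even χ.card), (L χ).length)

end Pool.Agent.H492.UB
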