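import Pool.Agent.H492.UB.Alt

/-!
# Words with a given last letter span, in depths four and five
-/

set_option autoImplicit false

namespace Pool.Agent.H492.UB

variable {V M : Type} [AddCommGroup V] [Module (ZMod 2) V] [AddCommGroup M]

omit [Module (ZMod 2) V] in
theorem ps_append : ∀ (s : V) (a b : List V), ps s (a ++ b) = ps s a ++ ps (s + a.sum) b
  | s, [], b => by simp
  | s, x :: a, b => by
      simp only [List.cons_append, ps_cons, List.sum_cons]
      rw [ps_append (s + x) a b, add_assoc]

omit [Module (ZMod 2) V] in
theorem ps_map (x : V) : ∀ (s : V) (a : List V), ps (x + s) a = (ps s a).map (x + ·)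
  | s, [] => rfl
  | s, y :: a => by
      simp only [ps_cons, List.map_cons]
      rw [add_assoc, ps_map x (s + y) a]

omit [Module (ZMod 2) V] in
theorem length_ps : ∀ (s : V) (a : List V), (ps s a).length = a.length
  | s, [] => rfl
  | s, y :: a => by simp [length_ps (s + y) a]

/-- words of length `r` whose letters span `V` -/
def IsB (r : ℕ) (w : List V) : Prop := w.length = r ∧ Submodule.span (ZMod 2) {x | x ∈ w} = ⊤

theorem IsB.perm {r : ℕ} {w w' : List V} (h : IsB r w) (hp : w.Perm w') : IsB r w' := by
  refine ⟨hp.length_eq ▸ h.1, ?_⟩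
  rw [← h.2]
  congr 1
  ext x
  exact (hp.mem_iff).symm

/-- words all letters of which are combinations of the letters of another word -/
theorem IsB.of_le {r : ℕ} {w w' : List V} (h : IsB r w) (hl : w'.length = r)
    (hs : ∀ x ∈ w, x ∈ Submodule.span (ZMod 2) {x | x ∈ w'}) : IsB r w' := by
  refine ⟨hl, ?_⟩
  rw [eq_top_iff, ← h.2, Submodule.span_le]
  exact hs

theorem mem_span_ps : ∀ (w : List V) (s : V), s ∈ Submodule.span (ZMod 2) {x | x ∈ ps s w ∨ x = s} ∧
    ∀ x ∈ w, x ∈ Submodule.span (ZMod 2) {x | x ∈ ps s w ∨ x = s}
  | [], s => ⟨Submodule.subset_span (Or.inr rfl), fun x hx => by simp at hx⟩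
  | y :: w, s => by
      have h1 : s ∈ Submodule.span (ZMod 2) {x | x ∈ ps s (y :: w) ∨ x = s} :=
        Submodule.subset_span (Or.inr rfl)
      have h2 : s + y ∈ Submodule.span (ZMod 2) {x | x ∈ ps s (y :: w) ∨ x = s} :=
        Submodule.subset_span (Or.inl (by simp))
      refine ⟨h1, fun x hx => ?_⟩
      rcases List.mem_cons.mp hx with rfl | hx
      · have := Submodule.sub_mem _ h2 h1
        simpa using this
      · have h3 := (mem_span_ps w (s + y)).2 x hx
        refine Submodule.span_mono ?_ h3
        rintro z (hz | rfl)
        · left; simp [hz]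
        · left; simp

theorem IsB.psl {r : ℕ} {w : List V} (h : IsB r w) : IsB r (ps 0 w) := by
  refine h.of_le (by rw [length_ps, h.1]) fun x hx => ?_
  have h1 := (mem_span_ps w 0).2 x hx
  have h2 : Submodule.span (ZMod 2) {x | x ∈ ps 0 w ∨ x = (0 : V)} ≤
      Submodule.span (ZMod 2) {x | x ∈ ps 0 w} := by
    rw [Submodule.span_le]
    rintro z (hz | rfl)
    · exact Submodule.subset_span hz
    · exact Submodule.zero_mem _
  exact h2 h1

variable {r : ℕ} {H : List V → M}

omit [Module (ZMod 2) V] in
/-- the relations between the partial sums -/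
theorem BA.altY (h : BA r H) : Alt r (fun w => H (ps 0 w)) := h.2

omit [Module (ZMod 2) V] in
/-- the relations between the words -/
theorem BA.altX (h2 : ∀ m : M, m + m = 0) (h : BA r H) : Alt r H := by
  have h1 : Alt r (fun w => H w.reverse) := h.1
  intro a b ha hb hr
  have h3 := h1 a b ha hb hr
  rw [← h3]
  unfold S
  congr 1
  apply List.map_congr_left
  intro w hw
  have h4 := (sh_perm a b w hw).length_eq
  rw [List.length_append] at h4
  have h5 := h1.rev h2 w (by omega)
  simpa using h5

omit [Module (ZMod 2) V] in
theorem exists_ps : ∀ (w : List V) (s : V), ∃ y : List V, ps s y = w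
  | [], s => ⟨[], rfl⟩
  | a :: w, s => by
      obtain ⟨y, hy⟩ := exists_ps w a
      exact ⟨(a - s) :: y, by rw [ps_cons, add_sub_cancel, hy]⟩

omit [Module (ZMod 2) V] in
theorem ps_rev : ∀ (y : List V) (s : V), (ps 0 y.reverse).reverse =
    ((s :: ps s y).dropLast).map (fun t => (s + y.sum) - t)
  | [], s => rfl
  | a :: y, s => by
      have h1 : (s :: ps s (a :: y)).dropLast = s :: ((s + a) :: ps (s + a) y).dropLast := rfl
      rw [h1, List.map_cons, List.reverse_cons, ps_append, List.reverse_append]
      rw [ps_rev y (s + a), List.sum_reverse]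
      simp only [ps_cons, ps_nil, List.reverse_singleton, List.singleton_append, List.sum_cons, zero_add]
      congr 1
      · abel
      · apply List.map_congr_left
        intro t _
        abel

omit [Module (ZMod 2) V] in
theorem ps_last (y : List V) (u : List V) (x s : V) (h : ps s y = u ++ [x]) : s + y.sum = x := by
  rcases List.eq_nil_or_concat y with rfl | ⟨z, a, rfl⟩
  · have := congrArg List.length h
    simp at this
  · rw [List.concat_eq_append, ps_append] at h
    simp only [ps_cons, ps_nil] at h
    have h1 := List.append_inj_right' h rfl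
    have h3 : s + z.sum + a = x := by simpa using h1
    rw [List.concat_eq_append, List.sum_append, ← h3]
    simp [add_assoc]

theorem sub_eq_add (x t : V) : x - t = x + t := by
  have h := ZModModule.add_self t
  rw [sub_eq_add_neg]
  congr 1
  exact neg_eq_of_add_eq_zero_left h

/-- **Rotation of the points.** -/
theorem rot (h2 : ∀ m : M, m + m = 0) (h : BA r H) (u : List V) (x : V) (hu : u.length + 1 = r) :
    H (u ++ [x]) = H (x :: u.map (x + ·)) := by
  have hX := BA.altX h2 h
  have hY := h.altY
  obtain ⟨y, hy⟩ := exists_ps (u ++ [x]) (0 : V)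
  have hl : y.length = r := by
    have := congrArg List.length hy
    rw [length_ps, List.length_append] at this
    simpa using this.trans hu
  have h3 := hY.rev h2 y hl
  rw [hy] at h3
  rw [← h3, ← hX.rev h2 _ (by rw [length_ps, List.length_reverse, hl])]
  have hx := ps_last y u x 0 hy
  have h4 := ps_rev y 0
  rw [hy, hx] at h4
  have h5 : ((0 : V) :: (u ++ [x])).dropLast = 0 :: u := by
    rw [← List.cons_append, List.dropLast_concat]
  rw [h4, h5, List.map_cons, sub_zero]
  congr 2
  apply List.map_congr_left
  intro t _
  exact sub_eq_add x t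

section
variable (h2 : ∀ m : M, m + m = 0) (h : BA r H) {v : V}
  (hv : ∀ w : List V, IsB r (w ++ [v]) → H (w ++ [v]) = 0)

include h2 h hv

/-- `v` is one of the points -/
theorem pt_zero {w : List V} (hw : IsB r w) (hm : v ∈ w) : H w = 0 := by
  obtain ⟨a, b, rfl⟩ := List.append_of_mem hm
  have hl := hw.1
  rw [List.length_append, List.length_cons] at hl
  refine (BA.altX h2 h).last h2 v a b (by omega) fun u hu => hv u (hw.perm ?_)
  refine List.perm_middle.trans ?_
  exact (hu.symm.cons v).trans (List.perm_append_singleton v u).symm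

/-- `v` is the difference of two points -/
theorem pt_two {w : List V} (hw : IsB r w) (a b c : List V) (p q : V) (hwe : w = a ++ p :: (b ++ q :: c))
    (hpq : v = p + q) : H w = 0 := by
  subst hwe
  have hl := hw.1
  simp only [List.length_append, List.length_cons] at hl
  refine (BA.altX h2 h).last h2 p a _ (by simp only [List.length_append, List.length_cons]; omega)
    fun u hu => ?_
  have hlu := hu.length_eq
  simp only [List.length_append, List.length_cons] at hlu
  rw [rot h2 h u p (by omega)]
  have hq : q ∈ u := hu.mem_iff.mpr (by simp)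
  refine pt_zero h2 h hv ?_ ?_
  · have hw' : IsB r (u ++ [p]) := by
      refine hw.perm (List.perm_middle.trans ?_)
      exact (hu.symm.cons p).trans (List.perm_append_singleton p u).symm
    refine hw'.of_le (by simp only [List.length_cons, List.length_map]; omega) fun x hx => ?_
    have hp : p ∈ Submodule.span (ZMod 2) {x | x ∈ p :: u.map (p + ·)} :=
      Submodule.subset_span (by simp)
    rcases List.mem_append.mp hx with hx | hx
    · have h5 : p + x ∈ Submodule.span (ZMod 2) {x | x ∈ p :: u.map (p + ·)} := by
        refine Submodule.subset_span ?_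
        simp only [Set.mem_ofPred_eq, List.mem_cons, List.mem_map]
        exact Or.inr ⟨x, hx, rfl⟩
      have := Submodule.sub_mem _ h5 hp
      simpa using this
    · rw [List.mem_singleton] at hx
      rw [hx]
      exact hp
  · simp only [List.mem_cons, List.mem_map]
    exact Or.inr ⟨q, hq, hpq.symm⟩

/-- `v` is one of the gaps -/
theorem gap_one {y : List V} (hy : IsB r y) (hm : v ∈ y) : H (ps 0 y) = 0 := by
  obtain ⟨a, b, rfl⟩ := List.append_of_mem hm
  have hl := hy.1
  rw [List.length_append, List.length_cons] at hl
  refine h.altY.first v _ a b rfl (by omega) fun u hu => ?_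
  refine pt_zero h2 h hv ?_ ?_
  · exact (hy.perm (List.perm_middle.trans (hu.symm.cons v))).psl
  · simp

/-- `v` is the last gap -/
theorem gap_last {y : List V} (hy : IsB r y) (hr : 1 ≤ r) (hm : v = y.sum) : H (ps 0 y) = 0 := by
  rcases List.eq_nil_or_concat y with rfl | ⟨z, a, rfl⟩
  · have := hy.1
    simp at this
    omega
  · refine pt_zero h2 h hv hy.psl ?_
    rw [List.concat_eq_append, ps_append, hm, List.concat_eq_append]
    simp

/-- `v` is the sum of the last gap and another one -/
theorem gap_last_one {y : List V} (hy : IsB r y) (hr : 2 ≤ r) (a b : List V) (m : V)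
    (hye : y = a ++ m :: b) (hm : v = y.sum + m) : H (ps 0 y) = 0 := by
  subst hye
  have hl := hy.1
  rw [List.length_append, List.length_cons] at hl
  refine h.altY.first m _ a b rfl (by omega) fun u hu => ?_
  have hlu := hu.length_eq
  rw [List.length_append] at hlu
  have hb : IsB r (m :: u) := hy.perm (List.perm_middle.trans (hu.symm.cons m))
  have hsum : m + u.sum = (a ++ m :: b).sum := by
    rw [hu.sum_eq, List.sum_append, List.sum_append, List.sum_cons]
    abel
  rcases List.eq_nil_or_concat u with rfl | ⟨z, c, rfl⟩
  · simp at hlu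
    omega
  · rw [List.concat_eq_append] at hb hsum ⊢
    have e : ps 0 (m :: (z ++ [c])) = [] ++ m :: (ps m z ++ (a ++ m :: b).sum :: []) := by
      rw [ps_cons, zero_add, ps_append]
      simp only [ps_cons, ps_nil, List.nil_append]
      rw [← hsum, List.sum_append, List.sum_singleton, add_assoc]
    refine pt_two h2 h hv hb.psl [] (ps m z) [] m _ e ?_
    rw [hm, add_comm]

/-- `v` is the sum of two gaps -/
theorem gap_two {y : List V} (hy : IsB r y) (hr : 2 ≤ r) (a b c : List V) (m n : V)
    (hye : y = a ++ m :: (b ++ n :: c)) (hm : v = m + n) : H (ps 0 y) = 0 := by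
  subst hye
  have hl := hy.1
  simp only [List.length_append, List.length_cons] at hl
  refine h.altY.first m _ a _ rfl (by simp only [List.length_append, List.length_cons]; omega) fun u hu => ?_
  have hlu := hu.length_eq
  simp only [List.length_append, List.length_cons] at hlu
  have hb : IsB r (m :: u) := hy.perm (List.perm_middle.trans (hu.symm.cons m))
  have hn : n ∈ u := hu.mem_iff.mpr (by simp)
  -- rotation of the gaps
  have e : H (ps 0 (m :: u)) = H (ps 0 (u ++ [m + u.sum])) := by
    have h4 : ps 0 (m :: u) = m :: (ps 0 u).map (m + ·) := by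
      rw [ps_cons, zero_add, ← ps_map, add_zero]
    have h5 := rot h2 h (ps 0 u) m (by rw [length_ps]; omega)
    rw [h4, ← h5, ps_append]
    simp only [ps_cons, ps_nil, zero_add]
    congr 3
    have := ZModModule.add_self u.sum
    rw [add_comm m, ← add_assoc, this, zero_add]
  show H (ps 0 (m :: u)) = 0
  rw [e]
  obtain ⟨A, B, hAB⟩ := List.append_of_mem hn
  have hb' : IsB r (u ++ [m + u.sum]) := by
    refine hb.of_le (by rw [List.length_append, List.length_singleton]; omega) fun x hx => ?_
    have hin : ∀ x ∈ u, x ∈ Submodule.span (ZMod 2) {x | x ∈ u ++ [m + u.sum]} := fun x hx =>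
      Submodule.subset_span (by simp [hx])
    rcases List.mem_cons.mp hx with rfl | hx
    · have h6 : x + u.sum ∈ Submodule.span (ZMod 2) {z | z ∈ u ++ [x + u.sum]} :=
        Submodule.subset_span (by simp)
      have h7 : u.sum ∈ Submodule.span (ZMod 2) {z | z ∈ u ++ [x + u.sum]} := list_sum_mem hin
      have := Submodule.sub_mem _ h6 h7
      simpa using this
    · exact hin x hx
  refine gap_last_one h2 h hv hb' hr A (B ++ [m + u.sum]) n (by rw [hAB]; simp) ?_
  rw [hm, List.sum_append, List.sum_singleton]
  have := ZModModule.add_self u.sum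
  rw [add_comm m u.sum, ← add_assoc, this, zero_add]

end

end Pool.Agent.H492.UB
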