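import Pool.Agent.H492.UB.Stm3
import Pool.Agent.H492.UB.Star

/-!
# There is nothing in odd degrees in depth four
-/

set_option autoImplicit false

namespace Pool.Agent.H492.UB

open MvPolynomial

namespace T3odd

section alt

variable {α M : Type} [AddCommGroup M]

/-- the signed sum of `S` over all ways to move letters from `b` to `a` -/
def FS (G : List α → M) : List α → List α → M
  | a, [] => S G a []
  | a, y :: b => S G a (y :: b) - FS G (y :: a) b

theorem FS_cons : ∀ (b : List α) (G : List α → M) (x : α) (a : List α),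
    FS G (x :: a) b = S (fun w => G (x :: w)) a b
  | [], G, x, a => by simp [FS, S_nil_right]
  | y :: b, G, x, a => by
      rw [FS, FS_cons b G y (x :: a), S_cons_cons, add_sub_cancel_right]

theorem FS_alt {r : ℕ} {G : List α → M} (h : Alt r G) : ∀ (b a : List α), a ≠ [] →
    a.length + b.length = r → FS G a b = (-1 : ℤ) ^ b.length • G (b.reverse ++ a)
  | [], a, _, _ => by simp [FS, S_nil_right]
  | y :: b, a, ha, hr => by
      rw [FS, h a (y :: b) ha (by simp) hr, zero_sub, FS_alt h b (y :: a) (by simp) (by
        simp only [List.length_cons] at hr ⊢; omega)]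
      rw [List.length_cons, pow_succ, mul_neg_one, neg_smul, List.reverse_cons, List.append_assoc,
        List.singleton_append]

/-- **Reversal with sign.** -/
theorem rev_sign {r : ℕ} {G : List α → M} (h : Alt r G) (w : List α)
    (hw : w.length = r) (h4 : r = 4) : G w.reverse = - G w := by
  rcases w with _ | ⟨y, b⟩
  · simp only [List.length_nil] at hw
    omega
  · have hb : b.length = 3 := by
      simp only [List.length_cons] at hw
      omega
    have h3 := FS_alt h b [y] (by simp) (by simp only [List.length_cons, List.length_nil]; omega)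
    rw [FS_cons, S_nil_left, hb] at h3
    rw [h3, List.reverse_cons]
    norm_num

end alt

section rot

variable {V M : Type} [AddCommGroup V] [AddCommGroup M] {H : List V → M}

theorem revX (h : BA 4 H) (w : List V) (hw : w.length = 4) : H w.reverse = - H w := by
  have h1 : Alt 4 (fun w => H w.reverse) := h.1
  have h2 := rev_sign h1 w hw rfl
  beta_reduce at h2
  rw [List.reverse_reverse] at h2
  rw [h2, neg_neg]

theorem revY (h : BA 4 H) (w : List V) (hw : w.length = 4) :
    H (ps 0 w.reverse) = - H (ps 0 w) := by
  have h1 : Alt 4 (fun w => H (ps 0 w)) := h.2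
  exact rev_sign h1 w hw rfl

/-- **Rotation of the points.** -/
theorem rot4 (h : BA 4 H) (u : List V) (x : V) (hu : u.length = 3) :
    H (u ++ [x]) = H (x :: u.map (fun t => x - t)) := by
  obtain ⟨y, hy⟩ := exists_ps (u ++ [x]) (0 : V)
  have hl : y.length = 4 := by
    have := congrArg List.length hy
    rw [length_ps, List.length_append, hu] at this
    simpa using this
  have h3 := revY h y hl
  have h4 := revX h (ps 0 y.reverse) (by rw [length_ps, List.length_reverse, hl])
  rw [h3, neg_neg, hy] at h4
  rw [← h4]
  have hx := ps_last y u x 0 hy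
  have h5 := ps_rev y 0
  rw [hy, hx] at h5
  have h6 : ((0 : V) :: (u ++ [x])).dropLast = 0 :: u := by
    rw [← List.cons_append, List.dropLast_concat]
  rw [h5, h6, List.map_cons, sub_zero]

/-- **One step of the rotation of the five points.** -/
theorem step (h : BA 4 H) (hneg : ∀ w : List V, H (w.map (fun x => -x)) = - H w) (a b c d : V) :
    H [a, b, c, d] = - H [-d, a - d, b - d, c - d] := by
  have h1 := rot4 h [a, b, c] d rfl
  have h2 := hneg [-d, a - d, b - d, c - d]
  simp only [List.cons_append, List.nil_append, List.map_cons, List.map_nil] at h1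
  simp only [List.map_cons, List.map_nil, neg_neg, neg_sub] at h2
  rw [h1, h2]

theorem step' (h : BA 4 H) (hneg : ∀ w : List V, H (w.map (fun x => -x)) = - H w)
    {a b c d : V} (a' b' c' d' : V) (h1 : a' = -d) (h2 : b' = a - d) (h3 : c' = b - d)
    (h4 : d' = c - d) : H [a, b, c, d] = - H [a', b', c', d'] := by
  rw [h1, h2, h3, h4]
  exact step h hneg a b c d

theorem vanish (h : BA 4 H) (hneg : ∀ w : List V, H (w.map (fun x => -x)) = - H w)
    (h2 : ∀ m : M, m + m = 0 → m = 0) (a b c d : V) : H [a, b, c, d] = 0 := by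
  apply h2
  have e1 : H [a, b, c, d] = - H [-d, a - d, b - d, c - d] := step h hneg a b c d
  have e2 : H [-d, a - d, b - d, c - d] = - H [d - c, -c, a - c, b - c] :=
    step' h hneg _ _ _ _ (by abel) (by abel) (by abel) (by abel)
  have e3 : H [d - c, -c, a - c, b - c] = - H [c - b, d - b, -b, a - b] :=
    step' h hneg _ _ _ _ (by abel) (by abel) (by abel) (by abel)
  have e4 : H [c - b, d - b, -b, a - b] = - H [b - a, c - a, d - a, -a] :=
    step' h hneg _ _ _ _ (by abel) (by abel) (by abel) (by abel)
  have e5 : H [b - a, c - a, d - a, -a] = - H [a, b, c, d] :=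
    step' h hneg _ _ _ _ (by abel) (by abel) (by abel) (by abel)
  nth_rewrite 1 [e1]
  rw [e2, e3, e4, e5, neg_neg, neg_neg, neg_add_cancel]

end rot

section pol

variable {K S : Type} [CommRing K] [CommRing S] [Algebra K S] {r : ℕ}

theorem getD_neg (l : List S) (i : ℕ) : (l.map (fun x => -x)).getD i 0 = - l.getD i 0 := by
  induction l generalizing i with
  | nil => simp
  | cons a l ih =>
    cases i with
    | zero => simp
    | succ i => simpa using ih i

theorem aeval_neg' (f : MvPolynomial (Fin r) K) (e : ℕ) (hf : f.IsHomogeneous e) (he : Odd e)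
    (x : Fin r → S) : aeval (fun i => - x i) f = - aeval x f := by
  conv_lhs => rw [f.as_sum]
  conv_rhs => rw [f.as_sum]
  rw [map_sum, map_sum, ← Finset.sum_neg_distrib]
  refine Finset.sum_congr rfl fun d hd => ?_
  rw [aeval_monomial, aeval_monomial, ← mul_neg]
  congr 1
  have h1 : d.degree = e := by
    have := hf (mem_support_iff.1 hd)
    rw [← this, Finsupp.degree_eq_weight_one]
    rfl
  have h2 : (d.prod fun i k => (- x i) ^ k) = (d.prod fun _ k => (-1 : S) ^ k) *
      d.prod fun i k => x i ^ k := by
    unfold Finsupp.prod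
    rw [← Finset.prod_mul_distrib]
    refine Finset.prod_congr rfl fun i _ => ?_
    rw [← mul_pow, neg_one_mul]
  have h3 : (d.prod fun _ k => (-1 : S) ^ k) = (-1) ^ e := by
    unfold Finsupp.prod
    rw [Finset.prod_pow_eq_pow_sum, ← h1]
    rfl
  rw [h2, h3, he.neg_one_pow, neg_one_mul]

theorem ev_neg (f : MvPolynomial (Fin r) K) (e : ℕ) (hf : f.IsHomogeneous e) (he : Odd e)
    (l : List S) : ev f (l.map (fun x => -x)) = - ev f l := by
  unfold ev
  have e1 : (fun i : Fin r => (l.map (fun x => -x)).getD i 0) = fun i : Fin r => - l.getD i 0 := by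
    funext i
    rw [getD_neg]
  rw [e1, aeval_neg' f e hf he]

end pol

end T3odd

open T3odd in
theorem sOdd : SOdd := by
  intro e he
  rw [eq_bot_iff]
  intro f hf
  obtain ⟨hf1, hf2⟩ := hf
  rw [Submodule.mem_bot]
  have h1 := vanish (H := fun l : List (MvPolynomial (Fin 4) ℚ) => ev f l) hf2
    (fun w => ev_neg f e hf1 he w) (fun m hm => by
      have : (2 : MvPolynomial (Fin 4) ℚ) * m = 0 := by rw [two_mul]; exact hm
      exact (mul_eq_zero.1 this).resolve_left two_ne_zero) (X 0) (X 1) (X 2) (X 3)
  have h2 : ev f [(X 0 : MvPolynomial (Fin 4) ℚ), X 1, X 2, X 3] = f := by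
    unfold ev
    have e1 : (fun i : Fin 4 => [(X 0 : MvPolynomial (Fin 4) ℚ), X 1, X 2, X 3].getD i 0) = X := by
      funext i
      fin_cases i <;> rfl
    rw [e1, aeval_X_left_apply]
  rw [← h2]
  exact h1

end Pool.Agent.H492.UB
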