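import Pool.Agent.H492.UB.Defs

/-!
# Alternal functions in characteristic two
-/

set_option autoImplicit false

namespace Pool.Agent.H492.UB

variable {α M : Type} [AddCommGroup M]

/-- the sum of a function over the shuffles -/
def S (G : List α → M) (a b : List α) : M := ((sh a b).map G).sum

theorem S_nil_left (G : List α → M) (b : List α) : S G [] b = G b := by simp [S]

theorem S_nil_right (G : List α → M) (a : List α) : S G a [] = G a := by simp [S]

theorem S_cons_cons (G : List α → M) (x y : α) (a b : List α) :
    S G (x :: a) (y :: b) = S (fun w => G (x :: w)) a (y :: b) + S (fun w => G (y :: w)) (x :: a) b := by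
  simp [S, Function.comp_def]

/-- sums over nonempty words vanish -/
def Alt (r : ℕ) (G : List α → M) : Prop :=
  ∀ a b : List α, a ≠ [] → b ≠ [] → a.length + b.length = r → S G a b = 0

/-- the sum of `S` over all ways to move letters from `b` to `a` -/
def FF (G : List α → M) : List α → List α → M
  | a, [] => S G a []
  | a, y :: b => S G a (y :: b) + FF G (y :: a) b

theorem FF_cons (h2 : ∀ m : M, m + m = 0) : ∀ (b : List α) (G : List α → M) (x : α) (a : List α),
    FF G (x :: a) b = S (fun w => G (x :: w)) a b
  | [], G, x, a => by simp [FF, S_nil_right]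
  | y :: b, G, x, a => by
      rw [FF, FF_cons h2 b G y (x :: a), S_cons_cons, add_assoc, h2, add_zero]

theorem FF_alt {r : ℕ} {G : List α → M} (h : Alt r G) : ∀ (b a : List α), a ≠ [] →
    a.length + b.length = r → FF G a b = G (b.reverse ++ a)
  | [], a, _, _ => by simp [FF, S_nil_right]
  | y :: b, a, ha, hr => by
      rw [FF, h a (y :: b) ha (by simp) hr, zero_add, FF_alt h b (y :: a) (by simp) (by
        simp only [List.length_cons] at hr ⊢; omega)]
      simp

/-- **Reversal.** -/
theorem Alt.rev (h2 : ∀ m : M, m + m = 0) {r : ℕ} {G : List α → M} (h : Alt r G) (w : List α)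
    (hw : w.length = r) : G w.reverse = G w := by
  rcases w with _ | ⟨y, b⟩
  · rfl
  · have h3 := FF_alt h b [y] (by simp) (by simp only [List.length_cons, List.length_nil] at hw ⊢; omega)
    rw [FF_cons h2, S_nil_left] at h3
    rw [h3]
    simp

theorem sh_perm : ∀ (a b c : List α), c ∈ sh a b → c.Perm (a ++ b)
  | [], b, c, hc => by
      simp only [sh_nil_left, List.mem_singleton] at hc
      rw [hc]
      exact List.Perm.refl _
  | x :: a, [], c, hc => by
      simp only [sh_nil_right, List.mem_singleton] at hc
      rw [hc]
      simp
  | x :: a, y :: b, c, hc => by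
      rw [sh_cons_cons, List.mem_append, List.mem_map, List.mem_map] at hc
      rcases hc with ⟨d, hd, rfl⟩ | ⟨d, hd, rfl⟩
      · exact (sh_perm a (y :: b) d hd).cons x
      · have h1 := (sh_perm (x :: a) b d hd).cons y
        exact h1.trans (List.perm_middle.symm)
  termination_by a b _ _ => a.length + b.length

theorem S_one : ∀ (a : List α) (G : List α → M) (m : α) (b : List α),
    (∀ (a₁ : List α) (x : α) (a₂ : List α), a = a₁ ++ x :: a₂ → ∀ c ∈ sh (x :: a₂) b, G (a₁ ++ m :: c) = 0) →
    S G a (m :: b) = G (a ++ m :: b)
  | [], G, m, b, _ => by simp [S_nil_left]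
  | x :: a, G, m, b, h => by
      rw [S_cons_cons, S_one a (fun w => G (x :: w)) m b (fun a₁ y a₂ e c hc =>
        h (x :: a₁) y a₂ (by rw [e]; rfl) c hc)]
      have h1 : S (fun w => G (m :: w)) (x :: a) b = 0 := by
        unfold S
        apply List.sum_eq_zero
        intro t ht
        rw [List.mem_map] at ht
        obtain ⟨c, hc, rfl⟩ := ht
        exact h [] x a rfl c hc
      rw [h1, add_zero]
      rfl

/-- **First letters.** If `G` vanishes at the words with first letter `m` and the remaining letters
permuted, it vanishes at all permutations. -/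
theorem Alt.first {r : ℕ} {G : List α → M} (h : Alt r G) (m : α) :
    ∀ (n : ℕ) (a b : List α), a.length = n → a.length + b.length + 1 = r →
      (∀ u : List α, u.Perm (a ++ b) → G (m :: u) = 0) → G (a ++ m :: b) = 0 := by
  intro n
  induction n using Nat.strong_induction_on with
  | _ n ih =>
    intro a b ha hr h0
    rcases eq_or_ne a [] with rfl | hane
    · exact h0 b (by simp)
    · have h1 := h a (m :: b) hane (by simp) (by simp only [List.length_cons]; omega)
      rw [S_one a G m b ?_] at h1
      · exact h1
      · intro a₁ x a₂ e c hc
        have hp := sh_perm _ _ _ hc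
        have hl := hp.length_eq
        simp only [List.length_append, List.length_cons] at hl
        have hl2 := congrArg List.length e
        simp only [List.length_append, List.length_cons] at hl2
        refine ih a₁.length (by omega) a₁ c rfl (by omega) fun u hu => h0 u ?_
        refine hu.trans ?_
        rw [e, List.append_assoc]
        exact hp.append_left a₁

/-- **Last letters.** -/
theorem Alt.last (h2 : ∀ m : M, m + m = 0) {r : ℕ} {G : List α → M} (h : Alt r G) (m : α)
    (a b : List α) (hr : a.length + b.length + 1 = r)
    (h0 : ∀ u : List α, u.Perm (a ++ b) → G (u ++ [m]) = 0) : G (a ++ m :: b) = 0 := by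
  refine h.first m _ a b rfl hr fun u hu => ?_
  have h1 := h0 u.reverse ((List.reverse_perm u).trans hu)
  have h3 := hu.length_eq
  rw [List.length_append] at h3
  rw [← h.rev h2 _ (by simp only [List.length_append, List.length_reverse, List.length_singleton]; omega)] at h1
  simpa using h1

end Pool.Agent.H492.UB
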