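import Pool.Agent.H492.UB.Stm3
import Pool.Agent.H492.UB.Alt

/-!
# Nakayama's lemma for functions on words (helper997)
-/

set_option autoImplicit false
set_option linter.all false

namespace Pool.Agent.H492.UB

namespace T3Nak

section general

theorem sh_map {α β : Type} (g : α → β) : ∀ a b : List α,
    sh (a.map g) (b.map g) = (sh a b).map (List.map g) := by
  intro a
  induction a with
  | nil => intro b; rfl
  | cons x a iha =>
    intro b
    induction b with
    | nil => simp
    | cons y b ihb =>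
      have h1 := iha (y :: b)
      rw [List.map_cons] at h1
      rw [List.map_cons] at ihb
      rw [List.map_cons, List.map_cons, sh_cons_cons, sh_cons_cons, List.map_append, h1, ihb,
        List.map_map, List.map_map, List.map_map, List.map_map]
      rfl

variable {V M M' : Type} [AddCommGroup V] [AddCommGroup M] [AddCommGroup M'] {r : ℕ}

theorem ps_hom (g : V →+ V) : ∀ (w : List V) (s : V), ps (g s) (w.map g) = (ps s w).map g
  | [], s => rfl
  | y :: w, s => by
    rw [List.map_cons, ps_cons, ps_cons, List.map_cons, ← map_add, ps_hom g w (s + y)]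

theorem ba_comp {H : List V → M} (h : BA r H) (g : V →+ V) :
    BA r (fun w => H (w.map g)) := by
  refine ⟨fun a b ha hb hab => ?_, fun a b ha hb hab => ?_⟩
  · have h1 := h.1 (a.map g) (b.map g) (by simpa using ha) (by simpa using hb)
      (by simpa using hab)
    rw [sh_map, List.map_map] at h1
    rw [← h1]
    congr 1
    apply List.map_congr_left
    intro w _
    show H (w.reverse.map g) = H ((w.map g).reverse)
    rw [List.map_reverse]
  · have h1 := h.2 (a.map g) (b.map g) (by simpa using ha) (by simpa using hb)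
      (by simpa using hab)
    rw [sh_map, List.map_map] at h1
    rw [← h1]
    congr 1
    apply List.map_congr_left
    intro w _
    show H ((ps 0 w).map g) = H (ps 0 (w.map g))
    rw [← ps_hom, map_zero]

theorem ba_hom {H : List V → M} (h : BA r H) (l : M →+ M') : BA r (fun w => l (H w)) := by
  refine ⟨fun a b ha hb hab => ?_, fun a b ha hb hab => ?_⟩
  · have h1 := congrArg l (h.1 a b ha hb hab)
    rw [map_zero, map_list_sum, List.map_map] at h1
    exact h1
  · have h1 := congrArg l (h.2 a b ha hb hab)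
    rw [map_zero, map_list_sum, List.map_map] at h1
    exact h1

theorem ba_zero : BA r (0 : List V → M) :=
  ⟨fun a b _ _ _ => by simp, fun a b _ _ _ => by simp⟩

theorem ba_add {F G : List V → M} (hF : BA r F) (hG : BA r G) : BA r (F + G) := by
  refine ⟨fun a b ha hb hab => ?_, fun a b ha hb hab => ?_⟩
  · have h1 := hF.1 a b ha hb hab
    have h2 := hG.1 a b ha hb hab
    simp only [Pi.add_apply]
    rw [List.sum_map_add, h1, h2, add_zero]
  · have h1 := hF.2 a b ha hb hab
    have h2 := hG.2 a b ha hb hab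
    simp only [Pi.add_apply]
    rw [List.sum_map_add, h1, h2, add_zero]

theorem ba_sum {ι : Type} (T : Finset ι) (F : ι → List V → M) (h : ∀ i ∈ T, BA r (F i)) :
    BA r (fun w => ∑ i ∈ T, F i w) := by
  have h1 : BA r (∑ i ∈ T, F i) := Finset.sum_induction _ (BA r) (fun _ _ => ba_add) ba_zero h
  have e : (∑ i ∈ T, F i) = fun w => ∑ i ∈ T, F i w := by
    funext w
    rw [Finset.sum_apply]
  rwa [e] at h1

open Classical in
theorem ba_restrict {B : List V → Prop} (hp : ∀ w w' : List V, w.Perm w' → (B w ↔ B w'))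
    (hps : ∀ w, B (ps 0 w) ↔ B w) {H : List V → M} (h : BA r H) :
    BA r (fun w => if B w then H w else 0) := by
  refine ⟨fun a b ha hb hab => ?_, fun a b ha hb hab => ?_⟩
  · have h0 : ∀ w ∈ sh a b, (B w.reverse ↔ B (a ++ b)) := fun w hw =>
      hp _ _ ((List.reverse_perm w).trans (sh_perm a b w hw))
    by_cases hB : B (a ++ b)
    · refine Eq.trans ?_ (h.1 a b ha hb hab)
      congr 1
      apply List.map_congr_left
      intro w hw
      show (if B w.reverse then H w.reverse else 0) = H w.reverse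
      rw [if_pos ((h0 w hw).2 hB)]
    · have : (sh a b).map (fun w => if B w.reverse then H w.reverse else 0) =
          (sh a b).map (fun _ => (0 : M)) := by
        apply List.map_congr_left
        intro w hw
        rw [if_neg (fun h1 => hB ((h0 w hw).1 h1))]
      rw [this]
      simp
  · have h0 : ∀ w ∈ sh a b, (B (ps 0 w) ↔ B (a ++ b)) := fun w hw =>
      (hps w).trans (hp _ _ (sh_perm a b w hw))
    by_cases hB : B (a ++ b)
    · refine Eq.trans ?_ (h.2 a b ha hb hab)
      congr 1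
      apply List.map_congr_left
      intro w hw
      show (if B (ps 0 w) then H (ps 0 w) else 0) = H (ps 0 w)
      rw [if_pos ((h0 w hw).2 hB)]
    · have : (sh a b).map (fun w => if B (ps 0 w) then H (ps 0 w) else 0) =
          (sh a b).map (fun _ => (0 : M)) := by
        apply List.map_congr_left
        intro w hw
        rw [if_neg (fun h1 => hB ((h0 w hw).1 h1))]
      rw [this]
      simp

theorem length_ps' : ∀ (s : V) (a : List V), (ps s a).length = a.length
  | s, [] => rfl
  | s, y :: a => by simp [length_ps' (s + y) a]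

end general

/-- words of length four which are bases -/
def B (w : List V3) : Prop := w.length = 4 ∧ Submodule.span (ZMod 3) {x | x ∈ w} = ⊤

theorem B_perm (w w' : List V3) (h : w.Perm w') : B w ↔ B w' := by
  unfold B
  rw [h.length_eq]
  have e : {x | x ∈ w} = {x | x ∈ w'} := by
    ext x
    exact h.mem_iff
  rw [e]

theorem ps_sub : ∀ (w : List V3) (s : V3), ∀ x ∈ ps s w,
    x ∈ Submodule.span (ZMod 3) {x | x ∈ w ∨ x = s}
  | [], s => fun x hx => by simp at hx
  | y :: w, s => by
    intro x hx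
    have h1 : s ∈ Submodule.span (ZMod 3) {x | x ∈ y :: w ∨ x = s} :=
      Submodule.subset_span (Or.inr rfl)
    have h2 : y ∈ Submodule.span (ZMod 3) {x | x ∈ y :: w ∨ x = s} :=
      Submodule.subset_span (Or.inl (by simp))
    rw [ps_cons, List.mem_cons] at hx
    rcases hx with rfl | hx
    · exact Submodule.add_mem _ h1 h2
    · have h3 := ps_sub w (s + y) x hx
      refine (Submodule.span_le.2 ?_) h3
      rintro z (hz | rfl)
      · exact Submodule.subset_span (Or.inl (by simp [show z ∈ w from hz]))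
      · exact Submodule.add_mem _ h1 h2

theorem sub_ps : ∀ (w : List V3) (s : V3), ∀ x ∈ w,
    x ∈ Submodule.span (ZMod 3) {x | x ∈ ps s w ∨ x = s}
  | [], s => fun x hx => by simp at hx
  | y :: w, s => by
    have h1 : s ∈ Submodule.span (ZMod 3) {x | x ∈ ps s (y :: w) ∨ x = s} :=
      Submodule.subset_span (Or.inr rfl)
    have h2 : s + y ∈ Submodule.span (ZMod 3) {x | x ∈ ps s (y :: w) ∨ x = s} :=
      Submodule.subset_span (Or.inl (by simp))
    intro x hx
    rcases List.mem_cons.mp hx with rfl | hx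
    · have := Submodule.sub_mem _ h2 h1
      simpa using this
    · have h3 := sub_ps w (s + y) x hx
      refine Submodule.span_mono ?_ h3
      rintro z (hz | rfl)
      · left; simp [show z ∈ ps (s + y) w from hz]
      · left; simp

theorem span_zero (w : List V3) : Submodule.span (ZMod 3) {x | x ∈ w ∨ x = (0 : V3)} =
    Submodule.span (ZMod 3) {x | x ∈ w} := by
  apply le_antisymm
  · rw [Submodule.span_le]
    rintro z (hz | rfl)
    · exact Submodule.subset_span hz
    · exact Submodule.zero_mem _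
  · exact Submodule.span_mono fun z hz => Or.inl hz

theorem B_ps (w : List V3) : B (ps 0 w) ↔ B w := by
  unfold B
  rw [length_ps']
  have e : Submodule.span (ZMod 3) {x | x ∈ ps (0 : V3) w} =
      Submodule.span (ZMod 3) {x | x ∈ w} := by
    apply le_antisymm
    · rw [← span_zero w, Submodule.span_le]
      intro x hx
      exact ps_sub w 0 x hx
    · rw [← span_zero (ps (0 : V3) w), Submodule.span_le]
      intro x hx
      exact sub_ps w 0 x hx
  rw [e]

theorem B_map_of {f : V3 →ₗ[ZMod 3] V3} (hf : Function.Surjective f) {w : List V3} (h : B w) :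
    B (w.map f) := by
  refine ⟨by rw [List.length_map]; exact h.1, ?_⟩
  have e : {x | x ∈ w.map f} = f '' {x | x ∈ w} := by
    ext x
    simp
  rw [e, ← Submodule.map_span, h.2, Submodule.map_top, LinearMap.range_eq_top.2 hf]

theorem B_map {f g : V3 →ₗ[ZMod 3] V3} (hfg : ∀ x, f (g x) = x) (hgf : ∀ x, g (f x) = x)
    (w : List V3) : B (w.map f) ↔ B w := by
  constructor
  · intro h
    have h1 := B_map_of (f := g) (fun x => ⟨f x, hgf x⟩) h
    rw [List.map_map] at h1
    have e : (g : V3 → V3) ∘ f = id := funext hgf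
    rw [e, List.map_id] at h1
    exact h1
  · exact B_map_of (fun x => ⟨g x, hfg x⟩)

theorem B_ofFn {h : Fin 4 → V3} (hh : LinearIndependent (ZMod 3) h) : B (List.ofFn h) := by
  refine ⟨List.length_ofFn, ?_⟩
  have e : {x | x ∈ List.ofFn h} = Set.range h := by
    ext x
    exact List.mem_ofFn
  rw [e]
  exact hh.span_eq_top_of_card_eq_finrank (by simp)

theorem B_li {h : Fin 4 → V3} (hh : B (List.ofFn h)) : LinearIndependent (ZMod 3) h := by
  have e : {x | x ∈ List.ofFn h} = Set.range h := by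
    ext x
    exact List.mem_ofFn
  have h1 := hh.2
  rw [e] at h1
  exact linearIndependent_of_top_le_span_of_card_eq_finrank h1.ge (by simp)

theorem ofFn_of {w : List V3} (h : w.length = 4) : ∃ h : Fin 4 → V3, List.ofFn h = w := by
  subst_vars
  refine ⟨fun i => w.getD i 0, ?_⟩
  apply List.ext_getElem
  · rw [List.length_ofFn, h]
  · intro i h1 h2
    rw [List.getElem_ofFn, List.getD_eq_getElem _ _ h2]

/-! ### signs -/

/-- multiplication by signs -/
def sgL (s : Fin 4 → ZMod 3) : V3 →ₗ[ZMod 3] V3 where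
  toFun x := fun j => s j * x j
  map_add' x y := by funext j; simp [mul_add]
  map_smul' c x := by funext j; simp; ring

theorem sgL_apply (s : Fin 4 → ZMod 3) (x : V3) : sgL s x = fun j => s j * x j := rfl

/-- the vectors of signs -/
def sg : Finset (Fin 4 → ZMod 3) := Fintype.piFinset fun _ => {1, -1}

theorem mem_sg {s : Fin 4 → ZMod 3} : s ∈ sg ↔ ∀ j, s j = 1 ∨ s j = -1 := by
  unfold sg
  rw [Fintype.mem_piFinset]
  simp

theorem sg_sq {s : Fin 4 → ZMod 3} (hs : s ∈ sg) (j : Fin 4) : s j * s j = 1 := by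
  rcases mem_sg.1 hs j with h | h <;> rw [h] <;> decide

theorem sgL_sgL {s : Fin 4 → ZMod 3} (hs : s ∈ sg) (x : V3) : sgL s (sgL s x) = x := by
  funext j
  rw [sgL_apply, sgL_apply]
  show s j * (s j * x j) = x j
  rw [← mul_assoc, sg_sq hs, one_mul]

/-- the character -/
def chi (χ : Finset (Fin 4)) (s : Fin 4 → ZMod 3) : ZMod 3 := ∏ j ∈ χ, s j

theorem chi_mul (χ : Finset (Fin 4)) (s t : Fin 4 → ZMod 3) : chi χ (s * t) = chi χ s * chi χ t := by
  unfold chi
  rw [← Finset.prod_mul_distrib]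
  rfl

theorem sum_chi {s : Fin 4 → ZMod 3} (hs : s ∈ sg) :
    ∑ χ : Finset (Fin 4), chi χ s = if s = 1 then 1 else 0 := by
  unfold chi
  have h1 : ∑ χ : Finset (Fin 4), ∏ j ∈ χ, s j = ∏ j : Fin 4, (1 + s j) := by
    rw [Finset.prod_one_add]
    rw [Finset.powerset_univ]
  rw [h1]
  split_ifs with h
  · rw [h]
    simp
    decide
  · have : ∃ j, s j ≠ 1 := by
      by_contra hc
      push Not at hc
      exact h (funext hc)
    obtain ⟨j, hj⟩ := this
    have hj' : s j = -1 := (mem_sg.1 hs j).resolve_left hj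
    apply Finset.prod_eq_zero (Finset.mem_univ j)
    rw [hj']
    decide



/-! ### the group -/

theorem isU_one {P : Finset (Fin 4 × Fin 4)} : IsU P 1 :=
  ⟨fun j => Matrix.one_apply_eq j, fun j k hjk _ => Matrix.one_apply_ne hjk⟩

theorem isU_mul {P : Finset (Fin 4 × Fin 4)} (h1 : ∀ q ∈ P, q.1 < q.2)
    (h2 : ∀ i j k, (i, j) ∈ P → (j, k) ∈ P → (i, k) ∈ P)
    {u v : Matrix (Fin 4) (Fin 4) (ZMod 3)} (hu : IsU P u) (hv : IsU P v) : IsU P (u * v) := by
  constructor
  · intro j
    rw [Matrix.mul_apply, Finset.sum_eq_single j]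
    · rw [hu.1, hv.1, one_mul]
    · intro k _ hk
      by_cases hjk : (j, k) ∈ P
      · have : (k, j) ∉ P := fun h => absurd (h1 _ h) (not_lt.2 (le_of_lt (h1 _ hjk)))
        rw [hv.2 k j hk this, mul_zero]
      · rw [hu.2 j k hk.symm hjk, zero_mul]
    · intro h
      exact absurd (Finset.mem_univ j) h
  · intro j k hjk hP
    rw [Matrix.mul_apply]
    apply Finset.sum_eq_zero
    intro i _
    by_cases hji : (j, i) ∈ P
    · by_cases hik : (i, k) ∈ P
      · exact absurd (h2 j i k hji hik) hP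
      · by_cases e : i = k
        · subst e
          exact absurd hji hP
        · rw [hv.2 i k e hik, mul_zero]
    · by_cases e : j = i
      · subst e
        rw [hv.2 j k hjk hP, mul_zero]
      · rw [hu.2 j i e hji, zero_mul]

theorem isU_det {P : Finset (Fin 4 × Fin 4)} (h1 : ∀ q ∈ P, q.1 < q.2)
    {u : Matrix (Fin 4) (Fin 4) (ZMod 3)} (hu : IsU P u) : u.det = 1 := by
  rw [Matrix.det_of_upperTriangular]
  · apply Finset.prod_eq_one
    intro i _
    exact hu.1 i
  · intro i j hij
    exact hu.2 i j (ne_of_gt hij) (fun h => absurd (h1 _ h) (not_lt.2 (le_of_lt hij)))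

/-- the unipotent group -/
def GP (P : Finset (Fin 4 × Fin 4)) (h1 : ∀ q ∈ P, q.1 < q.2)
    (h2 : ∀ i j k, (i, j) ∈ P → (j, k) ∈ P → (i, k) ∈ P) :
    Subgroup (Matrix (Fin 4) (Fin 4) (ZMod 3))ˣ where
  carrier := {u | IsU P u.val}
  one_mem' := isU_one
  mul_mem' := fun {a b} ha hb => isU_mul h1 h2 ha hb
  inv_mem' := by
    intro x hx
    have h3 : ∀ n : ℕ, IsU P (x ^ n).val := by
      intro n
      induction n with
      | zero => exact isU_one
      | succ n ih =>
        rw [pow_succ]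
        exact isU_mul h1 h2 ih hx
    have h4 : x ^ (orderOf x - 1) * x = 1 := by
      rw [← pow_succ, Nat.sub_add_cancel (orderOf_pos x), pow_orderOf_eq_one]
    have h5 : x⁻¹ = x ^ (orderOf x - 1) := (eq_inv_of_mul_eq_one_left h4).symm
    show IsU P (x⁻¹).val
    rw [h5]
    exact h3 _

/-- the unipotent matrices -/
def eqU (P : Finset (Fin 4 × Fin 4)) (h1 : ∀ q ∈ P, q.1 < q.2) :
    {u : Matrix (Fin 4) (Fin 4) (ZMod 3) // IsU P u} ≃ (P → ZMod 3) where
  toFun u := fun q => u.1 q.1.1 q.1.2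
  invFun f := ⟨fun j k => if h : (j, k) ∈ P then f ⟨(j, k), h⟩ else if j = k then 1 else 0, by
    constructor
    · intro j
      have : (j, j) ∉ P := fun h => lt_irrefl _ (h1 _ h)
      show (if h : (j, j) ∈ P then f ⟨(j, j), h⟩ else if j = j then 1 else 0) = 1
      rw [dif_neg this, if_pos rfl]
    · intro j k hjk hP
      show (if h : (j, k) ∈ P then f ⟨(j, k), h⟩ else if j = k then 1 else 0) = 0
      rw [dif_neg hP, if_neg hjk]⟩
  left_inv := by
    rintro ⟨u, hu⟩
    apply Subtype.ext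
    funext j k
    show (if h : (j, k) ∈ P then u j k else if j = k then 1 else 0) = u j k
    split_ifs with h h'
    · rfl
    · subst h'
      exact (hu.1 j).symm
    · exact (hu.2 j k h' h).symm
  right_inv := by
    intro f
    funext q
    show (if h : (q.1.1, q.1.2) ∈ P then f ⟨(q.1.1, q.1.2), h⟩ else if q.1.1 = q.1.2 then 1 else 0)
      = f q
    rw [dif_pos q.2]

theorem exists_GP (P : Finset (Fin 4 × Fin 4)) (h1 : ∀ q ∈ P, q.1 < q.2)
    (h2 : ∀ i j k, (i, j) ∈ P → (j, k) ∈ P → (i, k) ∈ P)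
    (u : Matrix (Fin 4) (Fin 4) (ZMod 3)) (hu : IsU P u) : ∃ g : GP P h1 h2, g.1.val = u := by
  have h3 : IsUnit u := by
    rw [Matrix.isUnit_iff_isUnit_det, isU_det h1 hu]
    exact isUnit_one
  obtain ⟨g, rfl⟩ := h3
  exact ⟨⟨g, hu⟩, rfl⟩

theorem card_GP (P : Finset (Fin 4 × Fin 4)) (h1 : ∀ q ∈ P, q.1 < q.2)
    (h2 : ∀ i j k, (i, j) ∈ P → (j, k) ∈ P → (i, k) ∈ P) :
    Nat.card (GP P h1 h2) = 3 ^ P.card := by
  have e : Function.Bijective
      (fun g : GP P h1 h2 => (⟨g.1.val, g.2⟩ : {u : Matrix (Fin 4) (Fin 4) (ZMod 3) // IsU P u})) := by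
    constructor
    · intro g k hgk
      exact Subtype.ext (Units.ext (congrArg Subtype.val hgk))
    · rintro ⟨u, hu⟩
      obtain ⟨g, hg⟩ := exists_GP P h1 h2 u hu
      exact ⟨g, Subtype.ext hg⟩
  rw [Nat.card_congr ((Equiv.ofBijective _ e).trans (eqU P h1)), Nat.card_fun]
  rw [Nat.card_eq_fintype_card, Nat.card_eq_fintype_card, ZMod.card, Fintype.card_coe]

theorem isP (P : Finset (Fin 4 × Fin 4)) (h1 : ∀ q ∈ P, q.1 < q.2)
    (h2 : ∀ i j k, (i, j) ∈ P → (j, k) ∈ P → (i, k) ∈ P) : IsPGroup 3 (GP P h1 h2) :=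
  IsPGroup.of_card (card_GP P h1 h2)

/-! ### the space -/

/-- multiplication by a matrix, on words -/
def mv (u : Matrix (Fin 4) (Fin 4) (ZMod 3)) (w : List V3) : List V3 := w.map (u.mulVec ·)

theorem mv_mv (u v : Matrix (Fin 4) (Fin 4) (ZMod 3)) (w : List V3) :
    mv u (mv v w) = mv (u * v) w := by
  unfold mv
  rw [List.map_map]
  apply List.map_congr_left
  intro x _
  show u.mulVec (v.mulVec x) = _
  rw [Matrix.mulVec_mulVec]

theorem mv_one (w : List V3) : mv 1 w = w := by
  unfold mv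
  have : (fun x : V3 => (1 : Matrix (Fin 4) (Fin 4) (ZMod 3)).mulVec x) = id := by
    funext x
    exact Matrix.one_mulVec x
  rw [this, List.map_id]

theorem mv_B (g : (Matrix (Fin 4) (Fin 4) (ZMod 3))ˣ) (w : List V3) : B (mv g.val w) ↔ B w := by
  have h := B_map (f := Matrix.mulVecLin g.val) (g := Matrix.mulVecLin (g⁻¹).val)
    (by
      intro x
      show g.val.mulVec ((g⁻¹).val.mulVec x) = x
      rw [Matrix.mulVec_mulVec, Units.mul_inv, Matrix.one_mulVec])
    (by
      intro x
      show (g⁻¹).val.mulVec (g.val.mulVec x) = x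
      rw [Matrix.mulVec_mulVec, Units.inv_mul, Matrix.one_mulVec]) w
  exact h

theorem ba_mv {M : Type} [AddCommGroup M] {H : List V3 → M} (h : BA 4 H)
    (u : Matrix (Fin 4) (Fin 4) (ZMod 3)) : BA 4 (fun w => H (mv u w)) :=
  ba_comp h (Matrix.mulVecLin u).toAddMonoidHom

/-- signs, on words -/
def sw (s : Fin 4 → ZMod 3) (w : List V3) : List V3 := w.map (sgL s)

theorem ba_sw {M : Type} [AddCommGroup M] {H : List V3 → M} (h : BA 4 H)
    (s : Fin 4 → ZMod 3) : BA 4 (fun w => H (sw s w)) :=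
  ba_comp h (sgL s).toAddMonoidHom

theorem sw_B {s : Fin 4 → ZMod 3} (hs : s ∈ sg) (w : List V3) : B (sw s w) ↔ B w :=
  B_map (sgL_sgL hs) (sgL_sgL hs) w

theorem sw_sw (s t : Fin 4 → ZMod 3) (w : List V3) : sw s (sw t w) = sw (s * t) w := by
  unfold sw
  rw [List.map_map]
  apply List.map_congr_left
  intro x _
  funext j
  show s j * (t j * x j) = s j * t j * x j
  rw [mul_assoc]

/-- the negative word -/
def ng (w : List V3) : List V3 := w.map (fun x => -x)

theorem mv_ng (u : Matrix (Fin 4) (Fin 4) (ZMod 3)) (w : List V3) : mv u (ng w) = ng (mv u w) := by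
  unfold mv ng
  rw [List.map_map, List.map_map]
  apply List.map_congr_left
  intro x _
  exact Matrix.mulVec_neg x u

theorem sw_ng (s : Fin 4 → ZMod 3) (w : List V3) : sw s (ng w) = ng (sw s w) := by
  unfold sw ng
  rw [List.map_map, List.map_map]
  apply List.map_congr_left
  intro x _
  exact map_neg (sgL s) x

theorem ng_B (w : List V3) : B (ng w) ↔ B w := by
  have h := B_map (f := -(LinearMap.id : V3 →ₗ[ZMod 3] V3)) (g := -LinearMap.id)
    (fun x => by simp) (fun x => by simp) w
  exact h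

theorem sw_neg_one (w : List V3) : sw (-1) w = ng w := by
  unfold sw ng
  apply List.map_congr_left
  intro x _
  funext j
  show (-1 : ZMod 3) * x j = -x j
  rw [neg_one_mul]

/-- conjugation by signs -/
def cj (s : Fin 4 → ZMod 3) (u : Matrix (Fin 4) (Fin 4) (ZMod 3)) :
    Matrix (Fin 4) (Fin 4) (ZMod 3) := fun j k => s j * u j k * s k

theorem cj_isU {P : Finset (Fin 4 × Fin 4)} {s : Fin 4 → ZMod 3} (hs : s ∈ sg)
    {u : Matrix (Fin 4) (Fin 4) (ZMod 3)} (hu : IsU P u) : IsU P (cj s u) := by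
  constructor
  · intro j
    show s j * u j j * s j = 1
    rw [hu.1, mul_one, sg_sq hs]
  · intro j k hjk hP
    show s j * u j k * s k = 0
    rw [hu.2 j k hjk hP, mul_zero, zero_mul]

theorem sw_mv {s : Fin 4 → ZMod 3} (hs : s ∈ sg) (u : Matrix (Fin 4) (Fin 4) (ZMod 3))
    (w : List V3) : sw s (mv u w) = mv (cj s u) (sw s w) := by
  unfold sw mv
  rw [List.map_map, List.map_map]
  apply List.map_congr_left
  intro x _
  funext j
  show s j * (∑ k, u j k * x k) = ∑ k, s j * u j k * s k * (s k * x k)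
  rw [Finset.mul_sum]
  apply Finset.sum_congr rfl
  intro k _
  calc s j * (u j k * x k) = s j * u j k * (1 : ZMod 3) * x k := by ring
    _ = s j * u j k * (s k * s k) * x k := by rw [sg_sq hs]
    _ = s j * u j k * s k * (s k * x k) := by ring

/-- the space of functions -/
def SS (P : Finset (Fin 4 × Fin 4)) (L : Finset (Fin 4) → List (List V3)) :
    AddSubgroup (List V3 → ZMod 3) where
  carrier := {H | (∀ w, ¬ B w → H w = 0) ∧ BA 4 H ∧ (∀ w, H (ng w) = H w) ∧
    ∀ χ : Finset (Fin 4), Even χ.card → ∀ t ∈ L χ, ∀ u, IsU P u →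
      ∑ s ∈ sg, chi χ s * H (mv u (sw s t)) = 0}
  zero_mem' := by
    refine ⟨fun _ _ => rfl, ba_zero, fun _ => rfl, fun χ _ t _ u _ => ?_⟩
    apply Finset.sum_eq_zero
    intro s _
    show chi χ s * 0 = 0
    rw [mul_zero]
  add_mem' := by
    rintro F G ⟨hF1, hF2, hF3, hF4⟩ ⟨hG1, hG2, hG3, hG4⟩
    refine ⟨fun w hw => ?_, ba_add hF2 hG2, fun w => ?_, fun χ hχ t ht u hu => ?_⟩
    · show F w + G w = 0
      rw [hF1 w hw, hG1 w hw, add_zero]
    · show F (ng w) + G (ng w) = F w + G w
      rw [hF3, hG3]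
    · show ∑ s ∈ sg, chi χ s * (F (mv u (sw s t)) + G (mv u (sw s t))) = 0
      have e : ∀ s ∈ sg, chi χ s * (F (mv u (sw s t)) + G (mv u (sw s t))) =
          chi χ s * F (mv u (sw s t)) + chi χ s * G (mv u (sw s t)) := fun s _ => mul_add _ _ _
      rw [Finset.sum_congr rfl e, Finset.sum_add_distrib, hF4 χ hχ t ht u hu, hG4 χ hχ t ht u hu,
        add_zero]
  neg_mem' := by
    rintro F ⟨hF1, hF2, hF3, hF4⟩
    refine ⟨fun w hw => ?_, ba_hom hF2 (-AddMonoidHom.id (ZMod 3)), fun w => ?_,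
      fun χ hχ t ht u hu => ?_⟩
    · show -F w = 0
      rw [hF1 w hw, neg_zero]
    · show -F (ng w) = -F w
      rw [hF3]
    · show ∑ s ∈ sg, chi χ s * (-F (mv u (sw s t))) = 0
      have e : ∀ s ∈ sg, chi χ s * (-F (mv u (sw s t))) =
          -(chi χ s * F (mv u (sw s t))) := fun s _ => mul_neg _ _
      rw [Finset.sum_congr rfl e, Finset.sum_neg_distrib, hF4 χ hχ t ht u hu, neg_zero]

instance finSS (P : Finset (Fin 4 × Fin 4)) (L : Finset (Fin 4) → List (List V3)) :
    Finite (SS P L) := by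
  apply Finite.of_injective
    (fun H : SS P L => (fun h : Fin 4 → V3 => H.1 (List.ofFn h)))
  intro F G hFG
  apply Subtype.ext
  funext w
  by_cases hw : B w
  · obtain ⟨h, rfl⟩ := ofFn_of hw.1
    exact congrFun hFG h
  · rw [F.2.1 w hw, G.2.1 w hw]

/-- the action -/
instance actSS (P : Finset (Fin 4 × Fin 4)) (h1 : ∀ q ∈ P, q.1 < q.2)
    (h2 : ∀ i j k, (i, j) ∈ P → (j, k) ∈ P → (i, k) ∈ P) (L : Finset (Fin 4) → List (List V3)) :
    MulAction (GP P h1 h2) (SS P L) where
  smul g H := ⟨fun w => H.1 (mv (g⁻¹).1.val w), by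
    obtain ⟨H, hH1, hH2, hH3, hH4⟩ := H
    refine ⟨fun w hw => hH1 _ (fun h => hw ((mv_B (g⁻¹).1 w).1 h)), ba_mv hH2 _, fun w => ?_,
      fun χ hχ t ht u hu => ?_⟩
    · show H (mv (g⁻¹).1.val (ng w)) = H (mv (g⁻¹).1.val w)
      rw [mv_ng, hH3]
    · have e : ∀ s ∈ sg, chi χ s * H (mv (g⁻¹).1.val (mv u (sw s t))) =
          chi χ s * H (mv ((g⁻¹).1.val * u) (sw s t)) := fun s _ => by rw [mv_mv]
      show ∑ s ∈ sg, chi χ s * H (mv (g⁻¹).1.val (mv u (sw s t))) = 0
      rw [Finset.sum_congr rfl e]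
      exact hH4 χ hχ t ht _ (isU_mul h1 h2 (g⁻¹).2 hu)⟩
  one_smul := by
    intro H
    apply Subtype.ext
    funext w
    show H.1 (mv ((1 : GP P h1 h2)⁻¹).1.val w) = H.1 w
    have : ((1 : GP P h1 h2)⁻¹).1.val = 1 := by
      rw [inv_one]
      rfl
    rw [this, mv_one]
  mul_smul := by
    intro g k H
    apply Subtype.ext
    funext w
    show H.1 (mv ((g * k)⁻¹).1.val w) = H.1 (mv (k⁻¹).1.val (mv (g⁻¹).1.val w))
    rw [mv_mv]
    have : ((g * k)⁻¹).1.val = (k⁻¹).1.val * (g⁻¹).1.val := by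
      rw [mul_inv_rev]
      rfl
    rw [this]

/-- the component of type `χ` -/
def Hc (b : List V3 → ZMod 3) (χ : Finset (Fin 4)) (w : List V3) : ZMod 3 :=
  ∑ s ∈ sg, chi χ s * b (sw s w)

theorem Hc_ba {b : List V3 → ZMod 3} (hb : BA 4 b) (χ : Finset (Fin 4)) : BA 4 (Hc b χ) := by
  apply ba_sum
  intro s _
  exact ba_hom (ba_sw hb s) (AddMonoidHom.mulLeft (chi χ s))

theorem Hc_u {P : Finset (Fin 4 × Fin 4)} {b : List V3 → ZMod 3}
    (hb : ∀ u, IsU P u → ∀ w, b (mv u w) = b w) (χ : Finset (Fin 4))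
    (u : Matrix (Fin 4) (Fin 4) (ZMod 3)) (hu : IsU P u) (w : List V3) :
    Hc b χ (mv u w) = Hc b χ w := by
  apply Finset.sum_congr rfl
  intro s hs
  rw [sw_mv hs, hb _ (cj_isU hs hu)]

theorem mul_mem_sg {s t : Fin 4 → ZMod 3} (hs : s ∈ sg) (ht : t ∈ sg) : s * t ∈ sg := by
  rw [mem_sg] at hs ht ⊢
  intro j
  show s j * t j = 1 ∨ s j * t j = -1
  rcases hs j with h | h <;> rcases ht j with h' | h' <;> rw [h, h'] <;> decide

theorem mul_self_sg {s : Fin 4 → ZMod 3} (hs : s ∈ sg) : s * s = 1 := by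
  funext j
  exact sg_sq hs j

theorem Hc_s (b : List V3 → ZMod 3) (χ : Finset (Fin 4)) {t : Fin 4 → ZMod 3} (ht : t ∈ sg)
    (w : List V3) : Hc b χ (sw t w) = chi χ t * Hc b χ w := by
  unfold Hc
  rw [Finset.mul_sum]
  refine Finset.sum_bij' (fun s _ => s * t) (fun s _ => s * t) (fun s hs => mul_mem_sg hs ht)
    (fun s hs => mul_mem_sg hs ht) (fun s hs => ?_) (fun s hs => ?_) (fun s hs => ?_)
  · show s * t * t = s
    rw [mul_assoc, mul_self_sg ht, mul_one]
  · show s * t * t = s
    rw [mul_assoc, mul_self_sg ht, mul_one]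
  · show chi χ s * b (sw s (sw t w)) = chi χ t * (chi χ (s * t) * b (sw (s * t) w))
    rw [sw_sw, chi_mul]
    have h : chi χ t * chi χ t = 1 := by
      rw [← chi_mul, mul_self_sg ht]
      unfold chi
      simp
    calc chi χ s * b (sw (s * t) w) = chi χ s * 1 * b (sw (s * t) w) := by rw [mul_one]
      _ = chi χ s * (chi χ t * chi χ t) * b (sw (s * t) w) := by rw [h]
      _ = chi χ t * (chi χ s * chi χ t * b (sw (s * t) w)) := by ring

theorem neg_one_mem_sg : (-1 : Fin 4 → ZMod 3) ∈ sg := by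
  rw [mem_sg]
  intro j
  right
  rfl

theorem Hc_odd {b : List V3 → ZMod 3} (hb : ∀ w, b (ng w) = b w) {χ : Finset (Fin 4)}
    (hχ : ¬ Even χ.card) (w : List V3) : Hc b χ w = 0 := by
  have h1 := Hc_s b χ neg_one_mem_sg w
  have h2 : Hc b χ (sw (-1) w) = Hc b χ w := by
    rw [sw_neg_one]
    apply Finset.sum_congr rfl
    intro s _
    rw [sw_ng, hb]
  have h3 : chi χ (-1) = -1 := by
    unfold chi
    have : ∀ j ∈ χ, (-1 : Fin 4 → ZMod 3) j = -1 := fun j _ => rfl
    rw [Finset.prod_congr rfl this, Finset.prod_const]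
    exact Odd.neg_one_pow (Nat.not_even_iff_odd.1 hχ)
  rw [h2, h3] at h1
  have : ∀ x : ZMod 3, x = -1 * x → x = 0 := by decide
  exact this _ h1

theorem sum_Hc (b : List V3 → ZMod 3) (w : List V3) : ∑ χ : Finset (Fin 4), Hc b χ w = b w := by
  unfold Hc
  rw [Finset.sum_comm]
  have e : ∀ s ∈ sg, ∑ χ : Finset (Fin 4), chi χ s * b (sw s w) =
      if s = 1 then b w else 0 := by
    intro s hs
    rw [← Finset.sum_mul, sum_chi hs]
    split_ifs with h
    · rw [h, one_mul]
      congr 1
      unfold sw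
      have : ((sgL 1 : V3 →ₗ[ZMod 3] V3) : V3 → V3) = id := by
        funext x j
        show 1 * x j = x j
        rw [one_mul]
      rw [this, List.map_id]
    · rw [zero_mul]
  rw [Finset.sum_congr rfl e, Finset.sum_ite_eq', if_pos]
  rw [mem_sg]
  intro j
  left
  rfl

theorem fixed_zero {P : Finset (Fin 4 × Fin 4)} {L : Finset (Fin 4) → List (List V3)}
    (hC : ∀ χ : Finset (Fin 4), Even χ.card → CertT P χ (L χ))
    {b : List V3 → ZMod 3} (hb : b ∈ SS P L) (hu : ∀ u, IsU P u → ∀ w, b (mv u w) = b w) :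
    b = 0 := by
  obtain ⟨hb1, hb2, hb3, hb4⟩ := hb
  funext w
  by_cases hw : B w
  · obtain ⟨h, rfl⟩ := ofFn_of hw.1
    have hh := B_li hw
    rw [← sum_Hc b (List.ofFn h)]
    apply Finset.sum_eq_zero
    intro χ _
    by_cases hχ : Even χ.card
    · have k1 : ∀ u, IsU P u → ∀ w : List V3,
          Hc b χ (w.map (fun x => u.mulVec x)) = Hc b χ w := fun u hu' w => Hc_u hu χ u hu' w
      have k2 : ∀ s : Fin 4 → ZMod 3, (∀ j, s j = 1 ∨ s j = -1) → ∀ w : List V3,
          Hc b χ (w.map (fun x j => s j * x j)) = (∏ j ∈ χ, s j) • Hc b χ w := fun s hs w =>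
        Hc_s b χ (mem_sg.2 hs) w
      have k3 : ∀ t ∈ L χ, Hc b χ t = 0 := by
        intro t ht
        have := hb4 χ hχ t ht 1 isU_one
        refine Eq.trans ?_ this
        apply Finset.sum_congr rfl
        intro s _
        rw [mv_one]
      exact hC χ hχ (ZMod 3) (Hc b χ) (Hc_ba hb2 χ) k1 k2 k3 h hh
    · exact Hc_odd hb3 hχ _
  · exact hb1 w hw

theorem z3 : ∀ x : ZMod 3, (3 : ℕ) • x = 0 := by decide

theorem SS_zero {P : Finset (Fin 4 × Fin 4)} (h1 : ∀ q ∈ P, q.1 < q.2)
    (h2 : ∀ i j k, (i, j) ∈ P → (j, k) ∈ P → (i, k) ∈ P)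
    {L : Finset (Fin 4) → List (List V3)}
    (hC : ∀ χ : Finset (Fin 4), Even χ.card → CertT P χ (L χ))
    {H : List V3 → ZMod 3} (hH : H ∈ SS P L) : H = 0 := by
  by_contra hne
  have h3 : (3 : ℕ) • (⟨H, hH⟩ : SS P L) = 0 := by
    apply Subtype.ext
    funext w
    show ((3 : ℕ) • H) w = 0
    rw [Pi.smul_apply]
    exact z3 _
  have h4 : addOrderOf (⟨H, hH⟩ : SS P L) = 3 :=
    addOrderOf_eq_prime h3 (fun h => hne (congrArg Subtype.val h))
  have h5 : 3 ∣ Nat.card (SS P L) := by
    have h6 := addOrderOf_dvd_natCard (⟨H, hH⟩ : SS P L)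
    rw [h4] at h6
    exact h6
  have h0 : (0 : SS P L) ∈ MulAction.fixedPoints (GP P h1 h2) (SS P L) := fun g => by
    apply Subtype.ext
    funext w
    rfl
  obtain ⟨b, hb, hb0⟩ :=
    (isP P h1 h2).exists_fixed_point_of_prime_dvd_card_of_fixed_point (SS P L) h5 h0
  apply hb0
  apply Subtype.ext
  refine (fixed_zero hC b.2 (fun u hu w => ?_)).symm
  obtain ⟨g, hg⟩ := exists_GP P h1 h2 u hu
  have h6 := hb g⁻¹
  have h7 := congrFun (congrArg Subtype.val h6) w
  have h9 : b.1 (mv ((g⁻¹)⁻¹).1.val w) = b.1 w := h7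
  rw [inv_inv, hg] at h9
  exact h9

end T3Nak

open T3Nak in
theorem sNak : SNak := by
  intro P h1 h2 L hL hC
  refine ⟨(Σ χ : {χ : Finset (Fin 4) // Even χ.card}, Fin (L χ).length) × (P → ZMod 3),
    inferInstance, fun i => sg.toList.map (fun s =>
      (chi i.1.1 s, mv ((eqU P h1).symm i.2).1 (sw s ((L i.1.1).get i.1.2)))), ?_, ?_, ?_⟩
  · rw [Fintype.card_prod, Fintype.card_sigma, mul_comm]
    congr 1
    · rw [Fintype.card_fun, ZMod.card, Fintype.card_coe]
    · simp only [Fintype.card_fin]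
      rw [Finset.sum_subtype (p := fun χ : Finset (Fin 4) => Even χ.card)
        (Finset.univ.filter (fun χ : Finset (Fin 4) => Even χ.card)) (by intro x; simp)
        (fun χ => (L χ).length)]
  · intro i t ht
    rw [List.mem_map] at ht
    obtain ⟨s, _, rfl⟩ := ht
    show (mv _ (sw s ((L i.1.1).get i.1.2))).length = 4
    unfold mv sw
    rw [List.length_map, List.length_map]
    exact hL _ _ (List.get_mem _ _)
  · intro M _ _ H hH hev hΦ h hh
    rw [← Module.forall_dual_apply_eq_zero_iff (ZMod 3)]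
    intro l
    classical
    have hG : (fun w => if B w then l (H w) else 0) ∈ SS P L := by
      refine ⟨fun w hw => if_neg hw,
        ba_restrict B_perm B_ps (ba_hom hH l.toAddMonoidHom), fun w => ?_,
        fun χ hχ t ht u hu => ?_⟩
      · show (if B (ng w) then l (H (ng w)) else 0) = if B w then l (H w) else 0
        have : H (ng w) = H w := hev w
        rw [this]
        by_cases hw : B w
        · rw [if_pos hw, if_pos ((ng_B w).2 hw)]
        · rw [if_neg hw, if_neg (fun h => hw ((ng_B w).1 h))]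
      · show ∑ s ∈ sg, chi χ s * (if B (mv u (sw s t)) then l (H (mv u (sw s t))) else 0) = 0
        have hB : ∀ s ∈ sg, (B (mv u (sw s t)) ↔ B t) := by
          intro s hs
          obtain ⟨g, hg⟩ := exists_GP P h1 h2 u hu
          rw [← hg]
          exact (mv_B g.1 _).trans (sw_B hs t)
        by_cases hBt : B t
        · obtain ⟨i, hi, rfl⟩ := List.getElem_of_mem ht
          have h3 := hΦ ⟨⟨⟨χ, hχ⟩, ⟨i, hi⟩⟩, eqU P h1 ⟨u, hu⟩⟩
          simp only [Equiv.symm_apply_apply] at h3
          rw [List.map_map] at h3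
          have h4 : ∑ s ∈ sg, chi χ s • H (mv u (sw s ((L χ)[i]))) = 0 := by
            rw [← Finset.sum_map_toList]
            exact h3
          have h5 := congrArg l h4
          rw [map_sum, map_zero] at h5
          refine Eq.trans ?_ h5
          apply Finset.sum_congr rfl
          intro s hs
          rw [if_pos ((hB s hs).2 hBt), map_smul, smul_eq_mul]
        · apply Finset.sum_eq_zero
          intro s hs
          rw [if_neg (fun h => hBt ((hB s hs).1 h)), mul_zero]
    have hz := congrFun (SS_zero h1 h2 hC hG) (List.ofFn h)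
    have hz' : (if B (List.ofFn h) then l (H (List.ofFn h)) else 0) = 0 := hz
    rw [if_pos (B_ofFn hh)] at hz'
    exact hz'

end Pool.Agent.H492.UB
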