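import Pool.Agent.H492.UB.Stm3
import Pool.Agent.H492.UB.SSepPf

set_option autoImplicit false

/-! `SSep3`: polynomials over `𝔽₃` which separate the basis points. -/

namespace Pool.Agent.H492.UB

open MvPolynomial

namespace T3Sep

theorem lin_add (v w : V3) : lin3 (v + w) = lin3 v + lin3 w := by
  unfold lin3
  rw [← Finset.sum_add_distrib]
  exact Finset.sum_congr rfl fun i _ => by rw [Pi.add_apply, map_add, add_mul]

theorem lin_smul (c : ZMod 3) (v : V3) : lin3 (c • v) = C c * lin3 v := by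
  unfold lin3
  rw [Finset.mul_sum]
  exact Finset.sum_congr rfl fun i _ => by rw [Pi.smul_apply, smul_eq_mul, map_mul, mul_assoc]

theorem lin_zero : lin3 (0 : V3) = 0 := by
  unfold lin3
  simp

theorem coeff_lin (v : V3) (i : Fin 4) : coeff (Finsupp.single i 1) (lin3 v) = v i := by
  classical
  unfold lin3
  rw [coeff_sum, Finset.sum_eq_single i]
  · rw [coeff_C_mul, coeff_X, if_pos rfl, mul_one]
  · intro j _ hj
    rw [coeff_C_mul, coeff_X, if_neg, mul_zero]
    intro h
    exact hj (Finsupp.single_left_injective one_ne_zero h)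
  · intro h; exact absurd (Finset.mem_univ i) h

theorem lin_inj {v w : V3} (h : lin3 v = lin3 w) : v = w := by
  funext i
  rw [← coeff_lin v i, ← coeff_lin w i, h]

theorem lin_ne {v : V3} (h : v ≠ 0) : lin3 v ≠ 0 := fun h' => h (lin_inj (h'.trans lin_zero.symm))

/-- the algebra endomorphism of a linear map -/
noncomputable def Phi (A : V3 →ₗ[ZMod 3] V3) :
    MvPolynomial (Fin 4) (ZMod 3) →ₐ[ZMod 3] MvPolynomial (Fin 4) (ZMod 3) :=
  aeval (fun i => lin3 (A (Pi.single i 1)))

/-- `lin3` as a linear map -/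
noncomputable def linL : V3 →ₗ[ZMod 3] MvPolynomial (Fin 4) (ZMod 3) where
  toFun := lin3
  map_add' := lin_add
  map_smul' := by
    intro c v
    rw [RingHom.id_apply, lin_smul, smul_eq_C_mul]

theorem Phi_lin (A : V3 →ₗ[ZMod 3] V3) (v : V3) : Phi A (lin3 v) = lin3 (A v) := by
  have h1 : (Phi A).toLinearMap ∘ₗ linL = linL ∘ₗ A := by
    refine LinearMap.pi_ext' fun i => LinearMap.ext_ring ?_
    show Phi A (lin3 (Pi.single i 1)) = lin3 (A (Pi.single i 1))
    have : lin3 (Pi.single i 1 : V3) = X i := by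
      unfold lin3
      rw [Finset.sum_eq_single i]
      · rw [Pi.single_eq_same, C_1, one_mul]
      · intro j _ hj
        rw [Pi.single_eq_of_ne hj, C_0, zero_mul]
      · intro h; exact absurd (Finset.mem_univ i) h
    rw [this, Phi, aeval_X]
  exact LinearMap.congr_fun h1 v

theorem pair_inj {a b a' b' : V3} (ha : a ≠ 0) (hab : ∀ c : ZMod 3, b ≠ c • a)
    (h : lin3 a * lin3 b' = lin3 a' * lin3 b) : ∃ c : ZMod 3, a' = c • a ∧ b' = c • b := by
  obtain ⟨i₀, hi₀⟩ : ∃ i, a i ≠ 0 := by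
    by_contra hcon
    push Not at hcon
    exact ha (funext hcon)
  let A : V3 →ₗ[ZMod 3] V3 :=
    { toFun := fun v => v - (v i₀ * (a i₀)⁻¹) • a
      map_add' := by
        intro v w
        simp only [Pi.add_apply, add_mul, add_smul]
        abel
      map_smul' := by
        intro c v
        simp only [Pi.smul_apply, smul_eq_mul, RingHom.id_apply, smul_sub, mul_smul, mul_assoc] }
  have hAa : A a = 0 := by
    show a - (a i₀ * (a i₀)⁻¹) • a = 0
    rw [mul_inv_cancel₀ hi₀, one_smul, sub_self]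
  have hker : ∀ v : V3, A v = 0 → ∃ c : ZMod 3, v = c • a := by
    intro v hv
    have hv' : v - (v i₀ * (a i₀)⁻¹) • a = 0 := hv
    exact ⟨_, sub_eq_zero.1 hv'⟩
  have h5 := congrArg (Phi A) h
  rw [map_mul, map_mul, Phi_lin, Phi_lin, Phi_lin, Phi_lin, hAa, lin_zero, zero_mul] at h5
  have h6 : A a' = 0 := by
    rcases mul_eq_zero.1 h5.symm with h7 | h7
    · exact lin_inj (h7.trans lin_zero.symm)
    · exfalso
      obtain ⟨c, hc⟩ := hker b (lin_inj (h7.trans lin_zero.symm))
      exact hab c hc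
  obtain ⟨c, hc⟩ := hker a' h6
  refine ⟨c, hc, ?_⟩
  rw [hc, lin_smul] at h
  have h8 : lin3 a * lin3 b' = lin3 a * (C c * lin3 b) := by rw [h]; ring
  have h9 := mul_left_cancel₀ (lin_ne ha) h8
  rw [← lin_smul] at h9
  exact lin_inj h9

theorem nrm_iff (v : V3) : Nrm v ↔ v 0 = 1 ∨ (v 0 = 0 ∧ v 1 = 1) ∨ (v 0 = 0 ∧ v 1 = 0 ∧ v 2 = 1) ∨
    (v 0 = 0 ∧ v 1 = 0 ∧ v 2 = 0 ∧ v 3 = 1) := by
  constructor
  · rintro ⟨i, hi, hj⟩
    fin_cases i
    · exact Or.inl hi
    · exact Or.inr (Or.inl ⟨hj 0 (by decide), hi⟩)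
    · exact Or.inr (Or.inr (Or.inl ⟨hj 0 (by decide), hj 1 (by decide), hi⟩))
    · exact Or.inr (Or.inr (Or.inr ⟨hj 0 (by decide), hj 1 (by decide), hj 2 (by decide), hi⟩))
  · rintro (h | ⟨h0, h⟩ | ⟨h0, h1, h⟩ | ⟨h0, h1, h2, h⟩)
    · exact ⟨0, h, fun j hj => absurd hj (by simp)⟩
    · refine ⟨1, h, fun j hj => ?_⟩
      fin_cases j <;> first | exact h0 | exact absurd hj (by decide)
    · refine ⟨2, h, fun j hj => ?_⟩
      fin_cases j <;> first | exact h0 | exact h1 | exact absurd hj (by decide)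
    · refine ⟨3, h, fun j hj => ?_⟩
      fin_cases j <;> first | exact h0 | exact h1 | exact h2 | exact absurd hj (by decide)

theorem nrm_neg_aux : ∀ a b c d : ZMod 3, ¬ (a = 0 ∧ b = 0 ∧ c = 0 ∧ d = 0) →
    ((a = 1 ∨ (a = 0 ∧ b = 1) ∨ (a = 0 ∧ b = 0 ∧ c = 1) ∨ (a = 0 ∧ b = 0 ∧ c = 0 ∧ d = 1)) ↔
      ¬ (-a = 1 ∨ (-a = 0 ∧ -b = 1) ∨ (-a = 0 ∧ -b = 0 ∧ -c = 1) ∨
        (-a = 0 ∧ -b = 0 ∧ -c = 0 ∧ -d = 1))) := by
  decide

theorem nrm_neg {v : V3} (hv : v ≠ 0) : Nrm v ↔ ¬ Nrm (-v) := by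
  rw [nrm_iff, nrm_iff]
  refine nrm_neg_aux (v 0) (v 1) (v 2) (v 3) ?_
  rintro ⟨h0, h1, h2, h3⟩
  apply hv
  funext i
  fin_cases i
  · exact h0
  · exact h1
  · exact h2
  · exact h3

theorem nrm_ne {v : V3} (h : Nrm v) : v ≠ 0 := by
  rintro rfl
  obtain ⟨i, hi, -⟩ := h
  exact zero_ne_one hi

theorem smul_nrm {c : ZMod 3} {b : V3} (hb : Nrm b) (hc : Nrm (c • b)) : c = 1 := by
  have h3 : ∀ x : ZMod 3, x = 0 ∨ x = 1 ∨ x = -1 := by decide
  rcases h3 c with h | h | h
  · exfalso
    rw [h, zero_smul] at hc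
    exact nrm_ne hc rfl
  · exact h
  · exfalso
    rw [h, neg_smul, one_smul] at hc
    exact (nrm_neg (nrm_ne hb)).1 hb hc

theorem card_li (k : ℕ) (hk : k ≤ 4) :
    Nat.card {s : Fin k → V3 // LinearIndependent (ZMod 3) s} = ∏ i : Fin k, (3 ^ 4 - 3 ^ (i : ℕ)) := by
  have h1 : Module.finrank (ZMod 3) V3 = 4 := by simp
  have h := card_linearIndependent (K := ZMod 3) (V := V3) (k := k) (by rw [h1]; exact hk)
  rw [h1] at h
  rw [h]
  simp

/-- change of the sign of the first vector -/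
def sgn {k : ℕ} (g : Fin (k + 1) → V3) : Fin (k + 1) → V3 :=
  fun i => (if i = 0 then (-1 : (ZMod 3)ˣ) else 1) • g i

theorem sgn_zero {k : ℕ} (g : Fin (k + 1) → V3) : sgn g 0 = - g 0 := by
  unfold sgn
  rw [if_pos rfl, Units.smul_def]
  simp

theorem sgn_sgn {k : ℕ} (g : Fin (k + 1) → V3) : sgn (sgn g) = g := by
  funext i
  unfold sgn
  by_cases h : i = 0
  · simp only [if_pos h]
    rw [smul_smul]
    simp
  · simp only [if_neg h, one_smul]

theorem sgn_li {k : ℕ} {g : Fin (k + 1) → V3} (hg : LinearIndependent (ZMod 3) g) :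
    LinearIndependent (ZMod 3) (sgn g) :=
  hg.units_smul (fun i => if i = 0 then (-1 : (ZMod 3)ˣ) else 1)

/-- half of the independent systems are normalized -/
theorem card_nrm (k : ℕ) :
    2 * Nat.card {g : Fin (k + 1) → V3 // LinearIndependent (ZMod 3) g ∧ Nrm (g 0)} =
      Nat.card {g : Fin (k + 1) → V3 // LinearIndependent (ZMod 3) g} := by
  classical
  let A := {g : Fin (k + 1) → V3 // LinearIndependent (ZMod 3) g ∧ Nrm (g 0)}
  let B := {g : Fin (k + 1) → V3 // LinearIndependent (ZMod 3) g}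
  have e : A ⊕ A ≃ B :=
    { toFun := fun x => match x with
        | Sum.inl g => ⟨g.1, g.2.1⟩
        | Sum.inr g => ⟨sgn g.1, sgn_li g.2.1⟩
      invFun := fun g => if h : Nrm (g.1 0) then Sum.inl ⟨g.1, g.2, h⟩ else
        Sum.inr ⟨sgn g.1, sgn_li g.2, by
          have h1 := (nrm_neg (neg_ne_zero.2 (g.2.ne_zero 0)) (v := - g.1 0)).2
            (by rwa [neg_neg])
          rwa [sgn_zero]⟩
      left_inv := by
        rintro (g | g)
        · simp only
          rw [dif_pos g.2.2]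
        · simp only
          have h1 : ¬ Nrm (sgn g.1 0) := by
            rw [sgn_zero]
            exact (nrm_neg (nrm_ne g.2.2)).1 g.2.2
          rw [dif_neg h1]
          refine congrArg Sum.inr (Subtype.ext ?_)
          exact sgn_sgn g.1
      right_inv := by
        intro g
        by_cases h : Nrm (g.1 0)
        · simp only [dif_pos h]
          rfl
        · simp only [dif_neg h]
          exact Subtype.ext (sgn_sgn g.1) }
  have h1 := Nat.card_congr e
  rw [Nat.card_sum] at h1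
  show 2 * Nat.card A = Nat.card B
  rw [← h1]
  ring

/-- separating polynomials in `k + 1` variables -/
def SepK (k κ N : ℕ) : Prop := ∃ (J : Type) (_ : Fintype J) (q : J → MvPolynomial (Fin (k + 1)) (ZMod 3)),
  Fintype.card J = N ∧ (∀ j, (q j).IsHomogeneous κ) ∧ ∀ F : J → MvPolynomial (Fin 4) (ZMod 3),
    (∀ g : Fin (k + 1) → V3, LinearIndependent (ZMod 3) g → Nrm (g 0) →
      ∑ j, F j * aeval (fun i => lin3 (g i)) (q j) = 0) → F = 0

theorem sepK_two : SepK 1 3119 3120 := by
  classical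
  have hcard : 2 * Nat.card {g : Fin 2 → V3 // LinearIndependent (ZMod 3) g ∧ Nrm (g 0)} =
      6240 := by
    rw [card_nrm 1, card_li 2 (by norm_num), Fin.prod_univ_two]
    rfl
  have hcard' : Nat.card {g : Fin 2 → V3 // LinearIndependent (ZMod 3) g ∧ Nrm (g 0)} = 3120 := by
    omega
  refine ⟨Fin 3120, inferInstance, fun j => X 1 ^ (j : ℕ) * X 0 ^ (3120 - 1 - (j : ℕ)),
    Fintype.card_fin _, ?_, ?_⟩
  · intro j
    have := ((isHomogeneous_X (ZMod 3) (1 : Fin 2)).pow (j : ℕ)).mul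
      ((isHomogeneous_X (ZMod 3) (0 : Fin 2)).pow (3120 - 1 - (j : ℕ)))
    have e : 1 * (j : ℕ) + 1 * (3120 - 1 - (j : ℕ)) = 3119 := by
      have := j.2
      omega
    rwa [e] at this
  · intro F hF
    have : Fintype {s : Fin 2 → V3 // LinearIndependent (ZMod 3) s ∧ Nrm (s 0)} := Fintype.ofFinite _
    refine SepAux.level (ι := {s : Fin 2 → V3 // LinearIndependent (ZMod 3) s ∧ Nrm (s 0)})
      (fun g => lin3 (g.1 1)) (fun g => lin3 (g.1 0)) ?_ 3120 ?_ F ?_
    · intro g g' hgg
      have hind : ∀ c : ZMod 3, g.1 0 ≠ c • g.1 1 := by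
        intro c hc
        have h1 := LinearIndependent.pair_iff.1 (by
          have h2 := g.2.1
          have e1 : g.1 = ![g.1 0, g.1 1] := by
            funext i
            fin_cases i <;> rfl
          rw [e1] at h2
          exact h2) 1 (-c) (by rw [one_smul, hc, neg_smul, add_neg_cancel])
        exact one_ne_zero h1.1
      obtain ⟨c, e1, e2⟩ := pair_inj (g.2.1.ne_zero 1) hind hgg
      have hc : c = 1 := smul_nrm g.2.2 (by rw [← e2]; exact g'.2.2)
      rw [hc, one_smul] at e1 e2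
      refine Subtype.ext (funext fun i => ?_)
      fin_cases i
      · exact e2.symm
      · exact e1.symm
    · rw [← Nat.card_eq_fintype_card, hcard']
    · intro g
      have := hF g.1 g.2.1 g.2.2
      rw [← this]
      refine Finset.sum_congr rfl fun j _ => ?_
      rw [map_mul, map_pow, map_pow, aeval_X, aeval_X]

theorem sepK_succ (k κ N : ℕ) (hk : k + 1 < 4) (h : SepK k κ N) :
    SepK (k + 1) (κ + (3 ^ 4 - 3 ^ (k + 1) - 1)) (N * (3 ^ 4 - 3 ^ (k + 1))) := by
  classical
  obtain ⟨J, _, q, hJ, hq, hs⟩ := h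
  set n := 3 ^ 4 - 3 ^ (k + 1) with hn
  refine ⟨J × Fin n, inferInstance, fun x => rename Fin.castSucc (q x.1) *
    (X (Fin.last (k + 1)) ^ (x.2 : ℕ) * X 0 ^ (n - 1 - (x.2 : ℕ))), ?_, ?_, ?_⟩
  · rw [Fintype.card_prod, hJ, Fintype.card_fin]
  · intro x
    refine IsHomogeneous.mul ((hq x.1).rename_isHomogeneous) ?_
    have := ((isHomogeneous_X (ZMod 3) (Fin.last (k + 1))).pow (x.2 : ℕ)).mul
      ((isHomogeneous_X (ZMod 3) (0 : Fin (k + 2))).pow (n - 1 - (x.2 : ℕ)))
    have e : 1 * (x.2 : ℕ) + 1 * (n - 1 - (x.2 : ℕ)) = n - 1 := by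
      have := x.2.2
      omega
    rwa [e] at this
  · intro F hF
    have key : ∀ t : Fin n, (fun j => F (j, t)) = 0 := by
      intro t
      apply hs
      intro g hg hg0
      set ι := {h : V3 // h ∉ Submodule.span (ZMod 3) (Set.range g)} with hι
      have : Fintype ι := Fintype.ofFinite _
      have hcard : Fintype.card ι = n := by
        have h1 : Nat.card (Submodule.span (ZMod 3) (Set.range g)) = 3 ^ (k + 1) := by
          rw [Module.natCard_eq_pow_finrank (K := ZMod 3), finrank_span_eq_card hg]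
          simp
        have h2 : Nat.card V3 = 3 ^ 4 := by simp
        rw [← Nat.card_eq_fintype_card]
        have h3 : Nat.card ι = Nat.card V3 - Nat.card (Submodule.span (ZMod 3) (Set.range g)) := by
          rw [Nat.card_eq_fintype_card, Nat.card_eq_fintype_card, Nat.card_eq_fintype_card]
          exact Fintype.card_subtype_compl _
        rw [h3, h1, h2]
      have h4 := SepAux.level (ι := ι) (fun h => lin3 h.1) (fun _ => lin3 (g 0)) (fun i i' he => by
          have := mul_right_cancel₀ (lin_ne (hg.ne_zero 0)) he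
          exact Subtype.ext (lin_inj this)) n (le_of_eq hcard.symm)
        (fun t => ∑ j, F (j, t) * aeval (fun i => lin3 (g i)) (q j)) (fun h => by
          have e3 : (Fin.snoc g h.1 : Fin (k + 2) → V3) 0 = g 0 := by
            have := Fin.snoc_castSucc (α := fun _ => V3) h.1 g (0 : Fin (k + 1))
            rwa [Fin.castSucc_zero] at this
          have h5 := hF (Fin.snoc g h.1) (hg.finSnoc h.2) (by rw [e3]; exact hg0)
          rw [← h5, Fintype.sum_prod_type_right]
          refine Finset.sum_congr rfl fun t' _ => ?_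
          rw [Finset.sum_mul]
          refine Finset.sum_congr rfl fun j _ => ?_
          rw [map_mul, map_mul, map_pow, map_pow, aeval_X, aeval_X, aeval_rename]
          have e1 : ((fun i => lin3 ((Fin.snoc g h.1 : Fin (k + 2) → V3) i)) ∘ Fin.castSucc) =
              fun i => lin3 (g i) := by
            funext i
            simp only [Function.comp_apply, Fin.snoc_castSucc]
          have e2 : (Fin.snoc g h.1 : Fin (k + 2) → V3) (Fin.last (k + 1)) = h.1 := Fin.snoc_last _ _
          rw [e1, e2, e3]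
          ring)
      exact congrFun h4 t
    funext x
    exact congrFun (key x.2) x.1

/-- exchange of the first and the last vector -/
def basEquiv : BasN ≃ {g : Fin 4 → V3 // LinearIndependent (ZMod 3) g ∧ Nrm (g 0)} where
  toFun h := ⟨h.1 ∘ Equiv.swap (0 : Fin 4) 3, h.2.1.comp _ (Equiv.injective _), by
    show Nrm (h.1 (Equiv.swap (0 : Fin 4) 3 0))
    rw [Equiv.swap_apply_left]
    exact h.2.2⟩
  invFun g := ⟨g.1 ∘ Equiv.swap (0 : Fin 4) 3, g.2.1.comp _ (Equiv.injective _), by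
    show Nrm (g.1 (Equiv.swap (0 : Fin 4) 3 3))
    rw [Equiv.swap_apply_right]
    exact g.2.2⟩
  left_inv h := by
    refine Subtype.ext (funext fun i => ?_)
    show h.1 (Equiv.swap (0 : Fin 4) 3 (Equiv.swap (0 : Fin 4) 3 i)) = h.1 i
    rw [Equiv.swap_apply_self]
  right_inv h := by
    refine Subtype.ext (funext fun i => ?_)
    show h.1 (Equiv.swap (0 : Fin 4) 3 (Equiv.swap (0 : Fin 4) 3 i)) = h.1 i
    rw [Equiv.swap_apply_self]

theorem card_BasN : Fintype.card BasN = 12130560 := by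
  rw [← Nat.card_eq_fintype_card, Nat.card_congr basEquiv]
  have hcard : 2 * Nat.card {g : Fin 4 → V3 // LinearIndependent (ZMod 3) g ∧ Nrm (g 0)} =
      24261120 := by
    rw [card_nrm 3, card_li 4 le_rfl, Fin.prod_univ_four]
    rfl
  omega

theorem sep_of (κ : ℕ) (h : SepK 3 κ 12130560) : Sep3 κ := by
  classical
  obtain ⟨J, _, q, hJ, hq, hs⟩ := h
  have hc : Fintype.card BasN = Fintype.card J := by rw [hJ, card_BasN]
  obtain ⟨e⟩ : Nonempty (BasN ≃ J) := Fintype.card_eq.1 hc
  refine ⟨fun h => rename (Equiv.swap (0 : Fin 4) 3) (q (e h)),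
    fun j => (hq _).rename_isHomogeneous, fun F hF => ?_⟩
  have h1 : (fun j => F (e.symm j)) = 0 := by
    apply hs
    intro g hg hg0
    have h2 := hF (basEquiv.symm ⟨g, hg, hg0⟩)
    rw [← h2, ← e.sum_comp]
    refine Finset.sum_congr rfl fun j _ => ?_
    simp only [Equiv.symm_apply_apply]
    rw [aeval_rename]
    refine congrArg (fun f => F j * aeval f (q (e j))) ?_
    funext i
    show lin3 (g i) = lin3 (g (Equiv.swap (0 : Fin 4) 3 (Equiv.swap (0 : Fin 4) 3 i)))
    rw [Equiv.swap_apply_self]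
  funext j
  have := congrFun h1 (e j)
  simpa using this

end T3Sep

open T3Sep in
theorem sSep3 : SSep3 := by
  refine ⟨?_, card_BasN⟩
  have h3 := sepK_succ 1 _ _ (by norm_num) sepK_two
  have h4 := sepK_succ 2 _ _ (by norm_num) h3
  norm_num at h4
  exact sep_of 3243 h4

end Pool.Agent.H492.UB
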