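import Pool.Agent.H492.UB.Stm3
import Pool.Agent.H492.UB.STrans
import Pool.Agent.H492.UB.SModPf
import Pool.Agent.H492.UB.SLat

/-!
# The double shuffle relations pass to the reduction modulo a prime
(helper282 for helper492)
-/

set_option autoImplicit false

namespace Pool.Agent.H492.UB

open MvPolynomial

open Transfer in
/-- the double shuffle relations pass to the reduction modulo `p` -/
theorem sTransferP : STransferP := by
  intro p _ r e f hf
  obtain ⟨hh, h1, h2⟩ := hf
  refine ⟨?_, ?_, ?_⟩
  · intro c hc
    apply hh
    rw [coeff_map] at hc ⊢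
    intro h
    apply hc
    have h3 : coeff c f = 0 := Int.cast_injective (α := ℚ) (by simpa using h)
    rw [h3, map_zero]
  · intro a b ha hb hab
    have h3 := rel (fun _ _ w => w.reverse) (fun _ _ _ _ g w => List.map_reverse.symm) f
      (fun a b ha hb hab => by
        have := h1 a b ha hb hab
        simpa only [ev_map] using this) a b ha hb hab
    simpa only [ev_map] using h3
  · intro a b ha hb hab
    have h3 := rel (fun _ _ w => ps 0 w) (fun _ _ _ _ g w => by
        rw [← ps_map g w 0, map_zero]) f
      (fun a b ha hb hab => by
        have := h2 a b ha hb hab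
        simpa only [ev_map] using this) a b ha hb hab
    simpa only [ev_map] using h3

open SModAux in
/-- **reduction modulo `p`** -/
theorem sModP : SModP := by
  intro p _ r e
  rw [finrank_W ℚ r e, finrank_W (ZMod p) r e]
  refine sLattice p (Ix r e) ((W ℚ r e).comap (Ph ℚ r e))
    ((W (ZMod p) r e).comap (Ph (ZMod p) r e)) ?_
  intro c hc
  rw [Submodule.mem_comap, ← map_Ph ℚ r e c] at hc
  rw [Submodule.mem_comap, ← map_Ph (ZMod p) r e c]
  exact sTransferP p r e _ hc

end Pool.Agent.H492.UB
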