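import Mathlib

/-!
# Definitions and statements for the upper bounds in depths four and five

`sh a b`: the list of all shuffles of two words. `ps s w`: the partial sums `s + w₁, s + w₁ + w₂, …`.
`BA r H`: the double shuffle relations in depth `r` for a function `H` on words. `W K r e`: the homogeneous
polynomials of degree `e` in `r` variables over `K` which satisfy them.
-/

set_option autoImplicit false

namespace Pool.Agent.H492.UB

open MvPolynomial

/-- auxiliary function for the shuffles: the shuffles of `x :: a` with a word, from those of `a` -/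
def sh1 {α : Type} (x : α) (a : List α) (f : List α → List (List α)) : List α → List (List α)
  | [] => [x :: a]
  | y :: b => (f (y :: b)).map (x :: ·) ++ (sh1 x a f b).map (y :: ·)

/-- all shuffles of two words (with multiplicities) -/
def sh {α : Type} : List α → List α → List (List α)
  | [] => fun b => [b]
  | x :: a => sh1 x a (sh a)

@[simp] theorem sh_nil_left {α : Type} (b : List α) : sh [] b = [b] := rfl
@[simp] theorem sh_nil_right {α : Type} (a : List α) : sh a [] = [a] := by cases a <;> rfl
@[simp] theorem sh_cons_cons {α : Type} (x y : α) (a b : List α) :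
    sh (x :: a) (y :: b) = (sh a (y :: b)).map (x :: ·) ++ (sh (x :: a) b).map (y :: ·) := rfl

/-- partial sums `s + x₁, s + x₁ + x₂, …` -/
def ps {V : Type} [Add V] : V → List V → List V
  | _, [] => []
  | s, x :: w => (s + x) :: ps (s + x) w

@[simp] theorem ps_nil {V : Type} [Add V] (s : V) : ps s [] = [] := rfl
@[simp] theorem ps_cons {V : Type} [Add V] (s x : V) (w : List V) :
    ps s (x :: w) = (s + x) :: ps (s + x) w := rfl

/-- the double shuffle relations in depth `r` for a function `H` on words -/
def BA {V M : Type} [AddCommMonoid V] [AddCommMonoid M] (r : ℕ) (H : List V → M) : Prop :=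
  (∀ a b : List V, a ≠ [] → b ≠ [] → a.length + b.length = r →
    ((sh a b).map fun w => H w.reverse).sum = 0) ∧
  (∀ a b : List V, a ≠ [] → b ≠ [] → a.length + b.length = r →
    ((sh a b).map fun w => H (ps 0 w)).sum = 0)

/-- the value of the polynomial `f` at a list -/
noncomputable def ev {K S : Type} [CommRing K] [CommRing S] [Algebra K S] {r : ℕ}
    (f : MvPolynomial (Fin r) K) (l : List S) : S :=
  aeval (fun i : Fin r => l.getD i 0) f

/-- homogeneous polynomials of degree `e` which satisfy the double shuffle relations -/
noncomputable def W (K : Type) [Field K] (r e : ℕ) : Submodule K (MvPolynomial (Fin r) K) where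
  carrier := {f | f.IsHomogeneous e ∧
    BA r (fun l : List (MvPolynomial (Fin r) K) => ev f l)}
  add_mem' := by
    rintro f g ⟨hf, hf1, hf2⟩ ⟨hg, hg1, hg2⟩
    refine ⟨hf.add hg, fun a b ha hb hab => ?_, fun a b ha hb hab => ?_⟩
    · have := congrArg₂ (· + ·) (hf1 a b ha hb hab) (hg1 a b ha hb hab)
      simpa [ev, List.sum_map_add] using this
    · have := congrArg₂ (· + ·) (hf2 a b ha hb hab) (hg2 a b ha hb hab)
      simpa [ev, List.sum_map_add] using this
  zero_mem' := ⟨isHomogeneous_zero _ _ _, fun a b _ _ _ => by simp [ev], fun a b _ _ _ => by simp [ev]⟩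
  smul_mem' := by
    rintro c f ⟨hf, hf1, hf2⟩
    refine ⟨?_, fun a b ha hb hab => ?_, fun a b ha hb hab => ?_⟩
    · rw [smul_eq_C_mul]
      simpa using (isHomogeneous_C (Fin r) c).mul hf
    · have := congrArg (c • ·) (hf1 a b ha hb hab)
      simpa [ev, List.smul_sum, Function.comp_def] using this
    · have := congrArg (c • ·) (hf2 a b ha hb hab)
      simpa [ev, List.smul_sum, Function.comp_def] using this

end Pool.Agent.H492.UB
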