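import Pool.Agent.H492.UB.Star

/-!
# Words with a given last letter span, in depths four and five
-/

set_option autoImplicit false

namespace Pool.Agent.H492.UB

variable {V M : Type} [AddCommGroup V] [Module (ZMod 2) V] [AddCommGroup M] {r : ℕ} {H : List V → M}

theorem mem_span_of_ps : ∀ (y : List V) (s : V) (P : Submodule (ZMod 2) V), s ∈ P → (∀ x ∈ y, x ∈ P) →
    ∀ x ∈ ps s y, x ∈ P
  | [], s, P, _, _, x, hx => by simp at hx
  | a :: y, s, P, hs, hy, x, hx => by
      have h1 : s + a ∈ P := P.add_mem hs (hy a (by simp))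
      rcases List.mem_cons.mp hx with rfl | hx
      · exact h1
      · exact mem_span_of_ps y (s + a) P h1 (fun z hz => hy z (by simp [hz])) x hx

theorem isB_of_ps {y : List V} (h : IsB r (ps 0 y)) : IsB r y := by
  have hl := h.1
  rw [length_ps] at hl
  exact h.of_le hl (mem_span_of_ps y 0 _ (Submodule.zero_mem _) fun x hx => Submodule.subset_span hx)

omit [AddCommGroup V] [Module (ZMod 2) V] in
theorem list4 {y : List V} (h : y.length = 4) : ∃ y1 y2 y3 y4, y = [y1, y2, y3, y4] := by
  match y, h with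
  | [y1, y2, y3, y4], _ => exact ⟨y1, y2, y3, y4, rfl⟩

theorem span4 (y1 y2 y3 y4 v : V) (h : v ∈ Submodule.span (ZMod 2) {x | x ∈ [y1, y2, y3, y4]}) :
    ∃ c1 c2 c3 c4 : ZMod 2, v = c1 • y1 + (c2 • y2 + (c3 • y3 + c4 • y4)) := by
  have e : {x | x ∈ [y1, y2, y3, y4]} = ({y1, y2, y3, y4} : Set V) := by
    ext x; simp
  rw [e] at h
  simp only [Submodule.mem_span_insert, Submodule.mem_span_singleton] at h
  obtain ⟨c1, _, ⟨c2, _, ⟨c3, _, ⟨c4, rfl⟩, rfl⟩, rfl⟩, rfl⟩ := h
  exact ⟨c1, c2, c3, c4, rfl⟩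

omit [AddCommGroup V] [Module (ZMod 2) V] in
theorem list5 {y : List V} (h : y.length = 5) : ∃ y1 y2 y3 y4 y5, y = [y1, y2, y3, y4, y5] := by
  match y, h with
  | [y1, y2, y3, y4, y5], _ => exact ⟨y1, y2, y3, y4, y5, rfl⟩

theorem span5 (y1 y2 y3 y4 y5 v : V) (h : v ∈ Submodule.span (ZMod 2) {x | x ∈ [y1, y2, y3, y4, y5]}) :
    ∃ c1 c2 c3 c4 c5 : ZMod 2, v = c1 • y1 + (c2 • y2 + (c3 • y3 + (c4 • y4 + c5 • y5))) := by
  have e : {x | x ∈ [y1, y2, y3, y4, y5]} = ({y1, y2, y3, y4, y5} : Set V) := by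
    ext x; simp
  rw [e] at h
  simp only [Submodule.mem_span_insert, Submodule.mem_span_singleton] at h
  obtain ⟨c1, _, ⟨c2, _, ⟨c3, _, ⟨c4, _, ⟨c5, rfl⟩, rfl⟩, rfl⟩, rfl⟩, rfl⟩ := h
  exact ⟨c1, c2, c3, c4, c5, rfl⟩

theorem IsB.of_mem {w w' : List V} (h : IsB r w) (hl : w'.length = w.length) (hs : ∀ x ∈ w, x ∈ w') :
    IsB r w' :=
  h.of_le (hl.trans h.1) fun x hx => Submodule.subset_span (hs x hx)

variable (h2 : ∀ m : M, m + m = 0) (h : BA r H) {v : V}
  (hv : ∀ w : List V, IsB r (w ++ [v]) → H (w ++ [v]) = 0)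

include h2 h hv in
/-- a point which is not in the affine relation comes first -/
theorem five_good (hr : r = 5) (z a b c d : V) (hw : IsB r [z, a, b, c, d]) (e : v = a + b + c + d) :
    H [z, a, b, c, d] = 0 := by
  have hz : ∀ x : V, x + x = 0 := fun x => ZModModule.add_self x
  have e1 : ps 0 [z, z + a, a + b, b + c, c + d] = [z, a, b, c, d] := by
    simp only [ps_cons, ps_nil, zero_add]
    have q1 : z + (z + a) = a := by linear_combination (norm := abel) hz z
    rw [q1]
    have q2 : a + (a + b) = b := by linear_combination (norm := abel) hz a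
    rw [q2]
    have q3 : b + (b + c) = c := by linear_combination (norm := abel) hz b
    rw [q3]
    have q4 : c + (c + d) = d := by linear_combination (norm := abel) hz c
    rw [q4]
  rw [← e1] at hw ⊢
  exact gap_two h2 h hv (isB_of_ps hw) (by omega) [z, z + a] [b + c] [] (a + b) (c + d) rfl
    (by rw [e]; abel)

include h2 h hv in
/-- the pattern with the two other points not adjacent -/
theorem five_bad (hr : r = 5) (z a b c d : V) (hw : IsB r [a, z, b, c, d]) (e : v = a + b + c + d) :
    H [a, z, b, c, d] = 0 := by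
  have h1 := (BA.altX h2 h) [a] [z, b, c, d] (by simp) (by simp) (by simp [hr])
  simp only [S, sh_cons_cons, sh_nil_left, sh_nil_right, List.map_cons, List.map_nil,
    List.cons_append, List.nil_append, List.sum_cons, List.sum_nil, add_zero] at h1
  rw [five_good h2 h hv hr z a b c d (hw.of_mem rfl (by
      simp only [List.mem_cons, List.not_mem_nil, or_false]; tauto)) e,
    five_good h2 h hv hr z b a c d (hw.of_mem rfl (by
      simp only [List.mem_cons, List.not_mem_nil, or_false]; tauto)) (by rw [e]; abel),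
    five_good h2 h hv hr z b c a d (hw.of_mem rfl (by
      simp only [List.mem_cons, List.not_mem_nil, or_false]; tauto)) (by rw [e]; abel),
    five_good h2 h hv hr z b c d a (hw.of_mem rfl (by
      simp only [List.mem_cons, List.not_mem_nil, or_false]; tauto)) (by rw [e]; abel)] at h1
  simpa using h1

include h2 h hv in
/-- `v` is the sum of the last gap and two others -/
theorem gap_three (hr : r = 5) {y : List V} (hy : IsB r y) (a b c : List V) (m n : V)
    (hye : y = a ++ m :: (b ++ n :: c)) (hm : v = y.sum + m + n) : H (ps 0 y) = 0 := by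
  have hz : ∀ x : V, x + x = 0 := fun x => ZModModule.add_self x
  subst hye
  have hl := hy.1
  simp only [List.length_append, List.length_cons] at hl
  refine h.altY.first m _ a _ rfl (by simp only [List.length_append, List.length_cons]; omega) fun u hu => ?_
  have hlu := hu.length_eq
  simp only [List.length_append, List.length_cons] at hlu
  have hb : IsB r (m :: u) := hy.perm (List.perm_middle.trans (hu.symm.cons m))
  have hn : n ∈ u := hu.mem_iff.mpr (by simp)
  have hsum : (a ++ m :: (b ++ n :: c)).sum = m + u.sum := by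
    rw [hu.sum_eq]
    simp only [List.sum_append, List.sum_cons]
    abel
  rw [hsum] at hm
  show H (ps 0 (m :: u)) = 0
  obtain ⟨u1, u2, u3, u4, rfl⟩ := list4 (show u.length = 4 by omega)
  have hx := hb.psl
  simp only [ps_cons, ps_nil, zero_add] at hx ⊢
  simp only [List.sum_cons, List.sum_nil, add_zero] at hm
  simp only [List.mem_cons, List.not_mem_nil, or_false] at hn
  rcases hn with rfl | rfl | rfl | rfl
  · refine pt_two h2 h hv hx [m] [m + n + u2, m + n + u2 + u3] [] (m + n) (m + n + u2 + u3 + u4) rfl ?_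
    rw [hm]
    abel
  · rw [← (BA.altX h2 h).rev h2 _ (by simp [hr])]
    simp only [List.reverse_cons, List.reverse_nil, List.nil_append, List.cons_append]
    refine five_bad h2 h hv hr _ _ _ _ _ (hx.of_mem rfl (by
      simp only [List.mem_cons, List.not_mem_nil, or_false]; tauto)) ?_
    rw [hm]
    linear_combination (norm := abel) (-1 : ℤ) • (hz m + hz u1)
  · refine five_bad h2 h hv hr _ _ _ _ _ hx ?_
    rw [hm]
    linear_combination (norm := abel) (-1 : ℤ) • (hz m + hz u1 + hz u2)
  · refine pt_two h2 h hv hx [] [m + u1, m + u1 + u2] [m + u1 + u2 + u3 + n] m (m + u1 + u2 + u3) rfl ?_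
    rw [hm]
    linear_combination (norm := abel) hz n

include h2 h hv in
theorem words4 (hr : r = 4) (hv0 : v ≠ 0) {w : List V} (hw : IsB r w) : H w = 0 := by
  subst hr
  have hz : ∀ x : V, x + x = 0 := fun x => ZModModule.add_self x
  obtain ⟨y, rfl⟩ := exists_ps w (0 : V)
  have hy := isB_of_ps hw
  obtain ⟨y1, y2, y3, y4, rfl⟩ := list4 hy.1
  obtain ⟨c1, c2, c3, c4, hc⟩ := span4 y1 y2 y3 y4 v (by
    have h1 : v ∈ Submodule.span (ZMod 2) {x | x ∈ [y1, y2, y3, y4]} := by rw [hy.2]; trivial
    exact h1)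
  have h01 : ∀ c : ZMod 2, c = 0 ∨ c = 1 := by decide
  rcases h01 c1 with rfl | rfl <;> rcases h01 c2 with rfl | rfl <;> rcases h01 c3 with rfl | rfl <;> rcases h01 c4 with rfl | rfl
  all_goals simp only [zero_smul, one_smul, zero_add, add_zero] at hc
  · exact absurd hc hv0
  · exact gap_one h2 h hv hy (by rw [hc]; simp)
  · exact gap_one h2 h hv hy (by rw [hc]; simp)
  · exact gap_two h2 h hv hy (by norm_num) [y1, y2] [] [] y3 y4 rfl hc
  · exact gap_one h2 h hv hy (by rw [hc]; simp)
  · exact gap_two h2 h hv hy (by norm_num) [y1] [y3] [] y2 y4 rfl hc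
  · exact gap_two h2 h hv hy (by norm_num) [y1] [] [y4] y2 y3 rfl hc
  · exact gap_last_one h2 h hv hy (by norm_num) [] [y2, y3, y4] y1 rfl (by
      rw [hc]; simp only [List.sum_cons, List.sum_nil]
      linear_combination (norm := abel) (-1 : ℤ) • hz y1)
  · exact gap_one h2 h hv hy (by rw [hc]; simp)
  · exact gap_two h2 h hv hy (by norm_num) [] [y2, y3] [] y1 y4 rfl hc
  · exact gap_two h2 h hv hy (by norm_num) [] [y2] [y4] y1 y3 rfl hc
  · exact gap_last_one h2 h hv hy (by norm_num) [y1] [y3, y4] y2 rfl (by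
      rw [hc]; simp only [List.sum_cons, List.sum_nil]
      linear_combination (norm := abel) (-1 : ℤ) • hz y2)
  · exact gap_two h2 h hv hy (by norm_num) [] [] [y3, y4] y1 y2 rfl hc
  · exact gap_last_one h2 h hv hy (by norm_num) [y1, y2] [y4] y3 rfl (by
      rw [hc]; simp only [List.sum_cons, List.sum_nil]
      linear_combination (norm := abel) (-1 : ℤ) • hz y3)
  · exact gap_last_one h2 h hv hy (by norm_num) [y1, y2, y3] [] y4 rfl (by
      rw [hc]; simp only [List.sum_cons, List.sum_nil]
      linear_combination (norm := abel) (-1 : ℤ) • hz y4)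
  · exact gap_last h2 h hv hy (by norm_num) (by rw [hc]; simp)

include h2 h hv in
theorem words5 (hr : r = 5) (hv0 : v ≠ 0) {w : List V} (hw : IsB r w) : H w = 0 := by
  subst hr
  have hz : ∀ x : V, x + x = 0 := fun x => ZModModule.add_self x
  obtain ⟨y, rfl⟩ := exists_ps w (0 : V)
  have hy := isB_of_ps hw
  obtain ⟨y1, y2, y3, y4, y5, rfl⟩ := list5 hy.1
  obtain ⟨c1, c2, c3, c4, c5, hc⟩ := span5 y1 y2 y3 y4 y5 v (by
    have h1 : v ∈ Submodule.span (ZMod 2) {x | x ∈ [y1, y2, y3, y4, y5]} := by rw [hy.2]; trivial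
    exact h1)
  have h01 : ∀ c : ZMod 2, c = 0 ∨ c = 1 := by decide
  rcases h01 c1 with rfl | rfl <;> rcases h01 c2 with rfl | rfl <;> rcases h01 c3 with rfl | rfl <;> rcases h01 c4 with rfl | rfl <;> rcases h01 c5 with rfl | rfl
  all_goals simp only [zero_smul, one_smul, zero_add, add_zero] at hc
  · exact absurd hc hv0
  · exact gap_one h2 h hv hy (by rw [hc]; simp)
  · exact gap_one h2 h hv hy (by rw [hc]; simp)
  · exact gap_two h2 h hv hy (by norm_num) [y1, y2, y3] [] [] y4 y5 rfl hc
  · exact gap_one h2 h hv hy (by rw [hc]; simp)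
  · exact gap_two h2 h hv hy (by norm_num) [y1, y2] [y4] [] y3 y5 rfl hc
  · exact gap_two h2 h hv hy (by norm_num) [y1, y2] [] [y5] y3 y4 rfl hc
  · exact gap_three h2 h hv rfl hy [] [] [y3, y4, y5] y1 y2 rfl (by
      rw [hc]; simp only [List.sum_cons, List.sum_nil]
      linear_combination (norm := abel) (-1 : ℤ) • hz y1 + (-1 : ℤ) • hz y2)
  · exact gap_one h2 h hv hy (by rw [hc]; simp)
  · exact gap_two h2 h hv hy (by norm_num) [y1] [y3, y4] [] y2 y5 rfl hc
  · exact gap_two h2 h hv hy (by norm_num) [y1] [y3] [y5] y2 y4 rfl hc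
  · exact gap_three h2 h hv rfl hy [] [y2] [y4, y5] y1 y3 rfl (by
      rw [hc]; simp only [List.sum_cons, List.sum_nil]
      linear_combination (norm := abel) (-1 : ℤ) • hz y1 + (-1 : ℤ) • hz y3)
  · exact gap_two h2 h hv hy (by norm_num) [y1] [] [y4, y5] y2 y3 rfl hc
  · exact gap_three h2 h hv rfl hy [] [y2, y3] [y5] y1 y4 rfl (by
      rw [hc]; simp only [List.sum_cons, List.sum_nil]
      linear_combination (norm := abel) (-1 : ℤ) • hz y1 + (-1 : ℤ) • hz y4)
  · exact gap_three h2 h hv rfl hy [] [y2, y3, y4] [] y1 y5 rfl (by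
      rw [hc]; simp only [List.sum_cons, List.sum_nil]
      linear_combination (norm := abel) (-1 : ℤ) • hz y1 + (-1 : ℤ) • hz y5)
  · exact gap_last_one h2 h hv hy (by norm_num) [] [y2, y3, y4, y5] y1 rfl (by
      rw [hc]; simp only [List.sum_cons, List.sum_nil]
      linear_combination (norm := abel) (-1 : ℤ) • hz y1)
  · exact gap_one h2 h hv hy (by rw [hc]; simp)
  · exact gap_two h2 h hv hy (by norm_num) [] [y2, y3, y4] [] y1 y5 rfl hc
  · exact gap_two h2 h hv hy (by norm_num) [] [y2, y3] [y5] y1 y4 rfl hc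
  · exact gap_three h2 h hv rfl hy [y1] [] [y4, y5] y2 y3 rfl (by
      rw [hc]; simp only [List.sum_cons, List.sum_nil]
      linear_combination (norm := abel) (-1 : ℤ) • hz y2 + (-1 : ℤ) • hz y3)
  · exact gap_two h2 h hv hy (by norm_num) [] [y2] [y4, y5] y1 y3 rfl hc
  · exact gap_three h2 h hv rfl hy [y1] [y3] [y5] y2 y4 rfl (by
      rw [hc]; simp only [List.sum_cons, List.sum_nil]
      linear_combination (norm := abel) (-1 : ℤ) • hz y2 + (-1 : ℤ) • hz y4)
  · exact gap_three h2 h hv rfl hy [y1] [y3, y4] [] y2 y5 rfl (by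
      rw [hc]; simp only [List.sum_cons, List.sum_nil]
      linear_combination (norm := abel) (-1 : ℤ) • hz y2 + (-1 : ℤ) • hz y5)
  · exact gap_last_one h2 h hv hy (by norm_num) [y1] [y3, y4, y5] y2 rfl (by
      rw [hc]; simp only [List.sum_cons, List.sum_nil]
      linear_combination (norm := abel) (-1 : ℤ) • hz y2)
  · exact gap_two h2 h hv hy (by norm_num) [] [] [y3, y4, y5] y1 y2 rfl hc
  · exact gap_three h2 h hv rfl hy [y1, y2] [] [y5] y3 y4 rfl (by
      rw [hc]; simp only [List.sum_cons, List.sum_nil]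
      linear_combination (norm := abel) (-1 : ℤ) • hz y3 + (-1 : ℤ) • hz y4)
  · exact gap_three h2 h hv rfl hy [y1, y2] [y4] [] y3 y5 rfl (by
      rw [hc]; simp only [List.sum_cons, List.sum_nil]
      linear_combination (norm := abel) (-1 : ℤ) • hz y3 + (-1 : ℤ) • hz y5)
  · exact gap_last_one h2 h hv hy (by norm_num) [y1, y2] [y4, y5] y3 rfl (by
      rw [hc]; simp only [List.sum_cons, List.sum_nil]
      linear_combination (norm := abel) (-1 : ℤ) • hz y3)
  · exact gap_three h2 h hv rfl hy [y1, y2, y3] [] [] y4 y5 rfl (by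
      rw [hc]; simp only [List.sum_cons, List.sum_nil]
      linear_combination (norm := abel) (-1 : ℤ) • hz y4 + (-1 : ℤ) • hz y5)
  · exact gap_last_one h2 h hv hy (by norm_num) [y1, y2, y3] [y5] y4 rfl (by
      rw [hc]; simp only [List.sum_cons, List.sum_nil]
      linear_combination (norm := abel) (-1 : ℤ) • hz y4)
  · exact gap_last_one h2 h hv hy (by norm_num) [y1, y2, y3, y4] [] y5 rfl (by
      rw [hc]; simp only [List.sum_cons, List.sum_nil]
      linear_combination (norm := abel) (-1 : ℤ) • hz y5)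
  · exact gap_last h2 h hv hy (by norm_num) (by rw [hc]; simp)

end Pool.Agent.H492.UB
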