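import Pool.Agent.H492.UB.Defs
import Pool.Graph.R_pool_sql_team_seeded_3997aac3.H159.LS.Fin2

/-!
# Statements for the upper bounds in depths four and five
-/

set_option autoImplicit false

namespace Pool.Agent.H492.UB

open MvPolynomial Pool.Agent.H777R4.DM Pool.Agent.H159.LS

attribute [local instance 100] LieRing.ofAssociativeRing

/-- the vectors -/
abbrev V (r : ℕ) : Type := Fin r → ZMod 2

/-- the linear form of a vector -/
noncomputable def lin {r : ℕ} (v : V r) : MvPolynomial (Fin r) (ZMod 2) := ∑ i, C (v i) * X i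

/-- the bases of `V r` -/
abbrev Bas (r : ℕ) : Type := {h : Fin r → V r // LinearIndependent (ZMod 2) h}

noncomputable instance (r : ℕ) : Fintype (Bas r) := Fintype.ofFinite _

/-- a numbering of the vectors -/
noncomputable def enc {r : ℕ} (v : V r) : ℕ := (Fintype.equivFin (V r) v).val

/-- bases with sum `v` the first vector of which has the smallest number -/
def IsT {r : ℕ} (v : V r) (y : Fin r → V r) : Prop :=
  LinearIndependent (ZMod 2) y ∧ ∑ i, y i = v ∧
    ∀ i j : Fin r, i.val = 0 → j.val ≠ 0 → enc (y i) < enc (y j)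

/-- the dimension of the space of homogeneous polynomials -/
def SDim : Prop := ∀ (K : Type) [Field K] (r n : ℕ), 1 ≤ r →
  Module.finrank K (homogeneousSubmodule (Fin r) K n) = (n + r - 1).choose (r - 1)

/-- reduction modulo `p` of rational subspaces -/
def SLattice : Prop := ∀ (p : ℕ) [Fact p.Prime] (ι : Type) [Fintype ι] (WQ : Submodule ℚ (ι → ℚ))
  (Wp : Submodule (ZMod p) (ι → ZMod p)),
  (∀ c : ι → ℤ, (fun i => (c i : ℚ)) ∈ WQ → (fun i => (c i : ZMod p)) ∈ Wp) →
  Module.finrank ℚ WQ ≤ Module.finrank (ZMod p) Wp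

/-- the double shuffle relations pass to the reduction modulo two -/
def STransfer : Prop := ∀ (r e : ℕ) (f : MvPolynomial (Fin r) ℤ),
  map (Int.castRingHom ℚ) f ∈ W ℚ r e → map (Int.castRingHom (ZMod 2)) f ∈ W (ZMod 2) r e

/-- reduction modulo two -/
def SMod : Prop := ∀ r e : ℕ,
  Module.finrank ℚ (W ℚ r e) ≤ Module.finrank (ZMod 2) (W (ZMod 2) r e)

/-- polynomials of degree `κ` over `𝔽₂` which separate the points `(lin h₁, …, lin h_r)`, `h` a basis -/
def Sep (r κ : ℕ) : Prop := ∃ p : Bas r → MvPolynomial (Fin r) (ZMod 2),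
  (∀ j, (p j).IsHomogeneous κ) ∧ ∀ F : Bas r → MvPolynomial (Fin r) (ZMod 2),
    (∀ h : Bas r, ∑ j, F j * aeval (fun i => lin (h.1 i)) (p j) = 0) → F = 0

/-- the degree in depths four and five -/
def SSep : Prop := Sep 4 227 ∧ Sep 5 994

/-- the number of the words `IsT` -/
def SCard : Prop := ∀ (r : ℕ) (v : V r), 1 ≤ r → v ≠ 0 →
  r * (2 ^ r - 1) * Nat.card {y : Fin r → V r // IsT v y} ≤ Nat.card (Bas r)

/-- the double shuffle relations modulo two determine everything from the words `IsT` -/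
def Star (r : ℕ) : Prop := ∀ (M : Type) [AddCommGroup M], (∀ m : M, m + m = 0) →
  ∀ H : List (V r) → M, BA r H → ∀ v : V r, v ≠ 0 →
    (∀ y : Fin r → V r, IsT v y → H (ps 0 (List.ofFn y)) = 0) →
    ∀ h : Bas r, H (List.ofFn h.1) = 0

/-- the counting argument -/
def SCount : Prop := ∀ r κ : ℕ, 1 ≤ r → Sep r κ → Star r → SDim → SCard → ∀ e : ℕ,
  r * (2 ^ r - 1) * Module.finrank (ZMod 2) (W (ZMod 2) r e) ≤ (e + κ + r - 1).choose (r - 1)

/-! ### Lie elements -/

/-- the words `x₁ x₀^{k₁} ⋯ x₁ x₀^{k_r}` -/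
def xw : List ℕ → List (Fin 2)
  | [] => []
  | k :: v => 1 :: (List.replicate k 0 ++ xw v)

/-- the polynomial of the coefficients of the words `x₁ x₀^{k₁} ⋯ x₁ x₀^{k_r}` of degree `e` in `x₀` -/
noncomputable def hpol (r e : ℕ) (ψ : A) : MvPolynomial (Fin r) ℚ :=
  ∑ k ∈ Finset.Nat.antidiagonalTuple r e, C (co ψ (xw (List.ofFn k))) * ∏ i, X i ^ k i

/-- all ways to split a word into two complementary subwords -/
def splits {α : Type} : List α → List (List α × List α)
  | [] => [([], [])]
  | x :: w => (splits w).map (fun p => (x :: p.1, p.2)) ++ (splits w).map (fun p => (p.1, x :: p.2))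

/-- Lie elements are primitive -/
def SLieSplit : Prop := ∀ ψ ∈ LieX, ∀ (M : Type) [AddCommGroup M] [Module ℚ M]
  (g : List (Fin 2) → List (Fin 2) → M),
  lext (fun w => ((splits w).map (fun p => g p.1 p.2)).sum) ψ = lext (fun w => g w [] + g [] w) ψ

/-- primitive elements of `ℚ⟨Y⟩` -/
def SPrimSplit : Prop := ∀ P : AY, Prim P → ∀ (M : Type) [AddCommGroup M] [Module ℚ M]
  (g : List ℕ → List ℕ → M),
  lext (fun w => ((splits w).map (fun p => g p.1 p.2)).sum) P = lext (fun w => g w [] + g [] w) P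

/-- the monomial `a₁^{v₁} a₂^{v₂} ⋯` if the lengths agree, otherwise zero -/
def pX {S : Type} [CommRing S] : List S → List ℕ → S
  | [], [] => 1
  | [], _ :: _ => 0
  | _ :: _, [] => 0
  | a :: l, k :: v => a ^ k * pX l v

/-- `x₀^{m₀} x₁ x₀^{m₁} ⋯ x₁ x₀^{m_p} ↦ z^{m₀} (z + a₁)^{m₁} (z + a₁ + a₂)^{m₂} ⋯` if `a` has length `p`,
otherwise zero -/
def pY {S : Type} [CommRing S] : S → List S → List (Fin 2) → S
  | _, [], [] => 1
  | _, _ :: _, [] => 0
  | z, a, i :: u => if i = 1 then (match a with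
      | [] => 0
      | a₁ :: l => pY (z + a₁) l u) else z * pY z a u

def SpX : Prop := ∀ (S : Type) [CommRing S] (a b : List S) (v : List ℕ),
  ((sh a b).map fun w => pX w v).sum = ((splits v).map fun p => pX a p.1 * pX b p.2).sum

def SpY : Prop := ∀ (S : Type) [CommRing S] (z t : S) (a b : List S) (u : List (Fin 2)),
  ((sh a b).map fun w => pY (z + t) w u).sum = ((splits u).map fun p => pY z a p.1 * pY t b p.2).sum

/-- elements of `ls` of depth `r` and weight `e + r` -/
noncomputable def ls (r e : ℕ) : Submodule ℚ A where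
  carrier := {ψ | IsLS ψ ∧ ∀ u, co ψ u ≠ 0 → u.length = e + r ∧ u.count 1 = r}
  add_mem' := by
    rintro f g ⟨hf, hf1⟩ ⟨hg, hg1⟩
    refine ⟨?_, fun u hu => ?_⟩
    · have := isLS_sub hg hf (-1)
      simpa [add_comm] using this
    · rw [co_add] at hu
      by_cases h : co f u = 0
      · exact hg1 u fun h' => hu (by rw [h, h', add_zero])
      · exact hf1 u h
  zero_mem' := by
    refine ⟨isLS_of (LieX.zero_mem) (fun u hu => absurd (co_zero u) hu) fun w r => ?_,
      fun u hu => absurd (co_zero u) hu⟩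
    rw [map_zero, Fp_zero]
    exact prim_zero
  smul_mem' := by
    rintro c f ⟨hf, hf1⟩
    refine ⟨?_, fun u hu => hf1 u fun h' => hu (by rw [co_smul, h', mul_zero])⟩
    have h0 : IsLS (0 : A) := by
      refine isLS_of (LieX.zero_mem) (fun u hu => absurd (co_zero u) hu) fun w r => ?_
      rw [map_zero, Fp_zero]
      exact prim_zero
    have := isLS_sub hf h0 (-c)
    simpa using this

/-- the coefficient polynomial satisfies the double shuffle relations -/
def SBA : Prop := ∀ (r e : ℕ) (ψ : A), 2 ≤ r → ψ ∈ ls r e → hpol r e ψ ∈ W ℚ r e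

/-- the coefficient polynomial determines the element -/
def SInj : Prop := ∀ (r e : ℕ) (ψ : A), 1 ≤ r → ψ ∈ ls r e → hpol r e ψ = 0 → ψ = 0

end Pool.Agent.H492.UB
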