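import Pool.Agent.H492.UB.Star45
import Pool.Agent.H492.UB.Stm

/-!
# The words with a given sum of the gaps and smallest first gap determine everything
-/

set_option autoImplicit false

namespace Pool.Agent.H492.UB

theorem isB_ofFn {r : ℕ} (hr : 1 ≤ r) (h : Fin r → V r) (hh : LinearIndependent (ZMod 2) h) :
    IsB r (List.ofFn h) := by
  have : Nonempty (Fin r) := ⟨⟨0, hr⟩⟩
  refine ⟨List.length_ofFn, ?_⟩
  have e : {x | x ∈ List.ofFn h} = Set.range h := by
    ext x
    simp [List.mem_ofFn]
  rw [e]
  exact hh.span_eq_top_of_card_eq_finrank (by simp)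

theorem li_of_isB {r : ℕ} (y : Fin r → V r) (h : IsB r (List.ofFn y)) : LinearIndependent (ZMod 2) y := by
  have e : {x | x ∈ List.ofFn y} = Set.range y := by
    ext x
    simp [List.mem_ofFn]
  have h1 := h.2
  rw [e] at h1
  exact linearIndependent_of_top_le_span_of_card_eq_finrank h1.ge (by simp)

theorem enc_inj {r : ℕ} {v w : V r} (h : enc v = enc w) : v = w := by
  unfold enc at h
  exact (Fintype.equivFin (V r)).injective (Fin.ext h)

/-- a smallest letter -/
theorem exists_min {r : ℕ} : ∀ (y : List (V r)), y ≠ [] → ∃ m ∈ y, ∀ x ∈ y, enc m ≤ enc x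
  | [], h => absurd rfl h
  | [a], _ => ⟨a, by simp, by simp⟩
  | a :: b :: y, _ => by
      obtain ⟨m, hm, hmin⟩ := exists_min (b :: y) (by simp)
      rcases le_total (enc a) (enc m) with h | h
      · exact ⟨a, by simp, fun x hx => by
          rcases List.mem_cons.mp hx with rfl | hx
          · exact le_rfl
          · exact h.trans (hmin x hx)⟩
      · exact ⟨m, by simp only [List.mem_cons] at hm ⊢; tauto, fun x hx => by
          rcases List.mem_cons.mp hx with rfl | hx
          · exact h
          · exact hmin x hx⟩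

theorem last_of_T {r : ℕ} {M : Type} [AddCommGroup M]
    {H : List (V r) → M} (h : BA r H) {v : V r}
    (hT : ∀ y : Fin r → V r, IsT v y → H (ps 0 (List.ofFn y)) = 0) (w : List (V r)) (hr : 1 ≤ r)
    (hw : IsB r (w ++ [v])) : H (w ++ [v]) = 0 := by
  obtain ⟨y, hy⟩ := exists_ps (w ++ [v]) (0 : V r)
  have hyB : IsB r y := isB_of_ps (hy ▸ hw)
  have hs : y.sum = v := by simpa using ps_last y w v 0 hy
  rw [← hy]
  obtain ⟨m, hm, hmin⟩ := exists_min y (by
    rintro rfl
    have := hyB.1
    simp at this
    omega)
  obtain ⟨a, b, rfl⟩ := List.append_of_mem hm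
  have hl := hyB.1
  rw [List.length_append, List.length_cons] at hl
  refine h.altY.first m _ a b rfl (by omega) fun u hu => ?_
  have hb : IsB r (m :: u) := hyB.perm (List.perm_middle.trans (hu.symm.cons m))
  have hlu : (m :: u).length = r := hb.1
  show H (ps 0 (m :: u)) = 0
  have e : m :: u = List.ofFn (fun i : Fin r => (m :: u).get (i.cast hlu.symm)) := by
    apply List.ext_get
    · simp [hlu]
    · intro n h1 h2
      simp
  rw [e]
  apply hT
  refine ⟨li_of_isB _ (e ▸ hb), ?_, ?_⟩
  · rw [← List.sum_ofFn, ← e, List.sum_cons, hu.sum_eq, ← hs]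
    simp only [List.sum_append, List.sum_cons]
    abel
  · intro i j hi hj
    have h1 : (m :: u).get (i.cast hlu.symm) = m := by
      simp [List.get_eq_getElem, hi]
    show enc ((m :: u).get (i.cast hlu.symm)) < enc ((m :: u).get (j.cast hlu.symm))
    rw [h1]
    have hjm : (m :: u).get (j.cast hlu.symm) ∈ (m :: u) := List.get_mem _ _
    have hle : enc m ≤ enc ((m :: u).get (j.cast hlu.symm)) := by
      refine hmin _ ?_
      rcases List.mem_cons.mp hjm with h2 | h2
      · rw [h2]; simp
      · have := hu.mem_iff.mp h2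
        simp only [List.mem_append, List.mem_cons] at this ⊢
        tauto
    refine lt_of_le_of_ne hle fun h3 => ?_
    have h4 := enc_inj h3
    have hli := li_of_isB _ (e ▸ hb)
    have h5 : (fun i : Fin r => (m :: u).get (i.cast hlu.symm)) i =
        (fun i : Fin r => (m :: u).get (i.cast hlu.symm)) j := by
      show (m :: u).get (i.cast hlu.symm) = (m :: u).get (j.cast hlu.symm)
      rw [h1]
      exact h4
    have h6 := hli.injective h5
    exact hj (by rw [← h6]; exact hi)

theorem star4 : Star 4 := by
  intro M _ h2 H h v hv hT w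
  exact words4 h2 h (fun w hw => last_of_T h hT w (by norm_num) hw) rfl hv (isB_ofFn (by norm_num) w.1 w.2)

theorem star5 : Star 5 := by
  intro M _ h2 H h v hv hT w
  exact words5 h2 h (fun w hw => last_of_T h hT w (by norm_num) hw) rfl hv (isB_ofFn (by norm_num) w.1 w.2)

end Pool.Agent.H492.UB
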